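import Pool.Agent.Lib.MP_54c436_pu.VI
/-!
# PU, V-side: generic tools
-/


set_option autoImplicit false
set_option linter.unusedSectionVars false
open Cardinal Set
namespace Pool.PU
open Pool.CF
/-- Small subsets of a regular cardinal are bounded. -/
theorem bdd_of_small {K : Type} [LinearOrder K] [WellFoundedLT K] (hreg : (#K).IsRegular)
    (hinit : ∀ a : K, #(Iio a) < #K) (s : Set K) (hs : #s < #K) : ∃ b, ∀ x ∈ s, x < b := by
  by_contra hcon
  push Not at hcon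
  -- every element is `≤` some element of `s`
  have hcov : (univ : Set K) ⊆ ⋃ x : s, Iio x.1 ∪ {x.1} := by
    intro b _
    obtain ⟨x, hx, hbx⟩ := hcon b
    refine mem_iUnion.2 ⟨⟨x, hx⟩, ?_⟩
    rcases eq_or_lt_of_le hbx with h | h
    · exact Or.inr h
    · exact Or.inl h
  have h1 : #K ≤ #(⋃ x : s, Iio x.1 ∪ {x.1} : Set K) := by
    rw [← mk_univ]
    exact mk_le_mk_of_subset hcov
  have h2 : #(⋃ x : s, Iio x.1 ∪ {x.1} : Set K) < #K := by
    refine (mk_iUnion_le_sum_mk).trans_lt ?_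
    refine Cardinal.sum_lt_of_isRegular hreg hs fun x => ?_
    refine (mk_union_le _ _).trans_lt ?_
    rw [mk_singleton]
    exact add_lt_of_lt hreg.aleph0_le (hinit x.1) (one_lt_aleph0.trans_le hreg.aleph0_le)
  exact absurd h1 (not_le.2 h2)

/-- Fewer than `κ` dense open sets have a dense intersection. -/
theorem dc_inter {P : Type} [PartialOrder P] {κ : Cardinal.{0}} (h : DirClosed κ P) {J : Type}
    (hJ : #J < κ) (A : J → Set P) (hA : ∀ j, ∀ p ∈ A j, ∀ q ≤ p, q ∈ A j) (p : P)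
    (hd : ∀ j, ∀ q ≤ p, ∃ r ≤ q, r ∈ A j) : ∃ q ≤ p, ∀ j, q ∈ A j := by
  classical
  -- well-order `J`
  let lt : J → J → Prop := WellOrderingRel
  have hwf : WellFounded lt := (inferInstance : IsWellOrder J WellOrderingRel).wf
  -- one step: a lower bound of the previous elements and of `p`, in `A j`
  have step : ∀ (j : J) (S : Set P), ∃ r : P, (∃ l ≤ p, ∀ a ∈ S, l ≤ a) → r ∈ A j ∧ r ≤ p ∧
      ∀ a ∈ S, r ≤ a := by
    intro j S
    by_cases hS : ∃ l ≤ p, ∀ a ∈ S, l ≤ a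
    · obtain ⟨l, hl, h1⟩ := hS
      obtain ⟨r, hr, h2⟩ := hd j l hl
      exact ⟨r, fun _ => ⟨h2, hr.trans hl, fun a ha => hr.trans (h1 a ha)⟩⟩
    · exact ⟨p, fun h' => absurd h' hS⟩
  choose nx hnx using step
  let f : J → P := hwf.fix fun j F => nx j {a | ∃ i, ∃ hi : lt i j, a = F i hi}
  have hf : ∀ j, f j = nx j {a | ∃ i, lt i j ∧ a = f i} := by
    intro j
    show hwf.fix _ j = _
    rw [WellFounded.fix_eq]
    congr 1
    ext a
    constructor
    · rintro ⟨i, hi, rfl⟩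
      exact ⟨i, hi, rfl⟩
    · rintro ⟨i, hi, rfl⟩
      exact ⟨i, hi, rfl⟩
  -- lower bounds of the initial parts
  have lb : ∀ S : Set J, (∀ i ∈ S, f i ≤ p) → (∀ i ∈ S, ∀ k ∈ S, f i ≤ f k ∨ f k ≤ f i) →
      ∃ l ≤ p, ∀ i ∈ S, l ≤ f i := by
    intro S h1 h2
    rcases S.eq_empty_or_nonempty with rfl | ⟨i0, hi0⟩
    · exact ⟨p, le_rfl, fun i hi => absurd hi (notMem_empty i)⟩
    · obtain ⟨l, hl⟩ := h (f '' S) ⟨f i0, i0, hi0, rfl⟩
        ((Cardinal.mk_image_le.trans (Cardinal.mk_set_le S)).trans_lt hJ) (by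
        rintro a ⟨i, hi, rfl⟩ b ⟨k, hk, rfl⟩
        rcases h2 i hi k hk with h3 | h3
        · exact ⟨f i, ⟨i, hi, rfl⟩, le_rfl, h3⟩
        · exact ⟨f k, ⟨k, hk, rfl⟩, h3, le_rfl⟩)
      exact ⟨l, (hl _ ⟨i0, hi0, rfl⟩).trans (h1 i0 hi0), fun i hi => hl _ ⟨i, hi, rfl⟩⟩
  have htri : ∀ i k : J, lt i k ∨ i = k ∨ lt k i := fun i k =>
    trichotomous_of (WellOrderingRel : J → J → Prop) i k
  have key : ∀ j, f j ∈ A j ∧ f j ≤ p ∧ ∀ i, lt i j → f j ≤ f i := by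
    intro j
    induction j using hwf.induction with
    | _ j ih =>
      obtain ⟨l, hl, h1⟩ := lb {i | lt i j} (fun i hi => (ih i hi).2.1) (fun i hi k hk => by
        rcases htri i k with h3 | h3 | h3
        · exact Or.inr ((ih k hk).2.2 i h3)
        · exact Or.inl (h3 ▸ le_rfl)
        · exact Or.inl ((ih i hi).2.2 k h3))
      have h2 := hnx j {a | ∃ i, lt i j ∧ a = f i} ⟨l, hl, by
        rintro a ⟨i, hi, rfl⟩
        exact h1 i hi⟩
      rw [← hf j] at h2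
      exact ⟨h2.1, h2.2.1, fun i hi => h2.2.2 _ ⟨i, hi, rfl⟩⟩
  obtain ⟨l, hl, h1⟩ := lb univ (fun i _ => (key i).2.1) (fun i _ k _ => by
    rcases htri i k with h3 | h3 | h3
    · exact Or.inr ((key k).2.2 i h3)
    · exact Or.inl (h3 ▸ le_rfl)
    · exact Or.inl ((key i).2.2 k h3))
  exact ⟨l, hl, fun j => hA j _ (key j).1 l (h1 j (mem_univ j))⟩

/-- Row VG1.  Closure points of a Boolean valued function.  `ω` steps: `δ 0 = γ`, `q 0 = p`;
by `dc_inter` below `q n` there is `q (n+1)` which belongs to `⋃ w, G i w` for all `i ≤ δ n`, and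
by `bdd_of_small` there is `δ (n+1) > δ n` above the values.  Take a lower bound `q` of the `q n`
(`DirClosed`) and `δ` = the least element above all `δ n` (`bdd_of_small`, `#ℕ < #K`). -/
theorem clo {K : Type} [LinearOrder K] [WellFoundedLT K] (hreg : (#K).IsRegular)
    (hunc : ℵ₀ < #K) (hinit : ∀ a : K, #(Iio a) < #K) {P : Type} [PartialOrder P]
    (hd : DirClosed #K P) (G : K → K → Set P) (hG : ∀ i w, ∀ p ∈ G i w, ∀ q ≤ p, q ∈ G i w)
    (p : P) (hdense : ∀ i, ∀ q ≤ p, ∃ r ≤ q, ∃ w, r ∈ G i w) (γ : K) :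
    ∃ q ≤ p, ∃ δ, γ < δ ∧ ∀ i < δ, ∃ w < δ, q ∈ G i w := by
  classical
  have step : ∀ x : {q : P // q ≤ p} × K, ∃ y : {q : P // q ≤ p} × K, (y.1 : P) ≤ x.1 ∧
      x.2 < y.2 ∧ ∀ i ≤ x.2, ∃ w < y.2, (y.1 : P) ∈ G i w := by
    rintro ⟨⟨q, hq⟩, δ⟩
    have hJ : #(Iic δ) < #K := by
      have h1 : Iic δ ⊆ insert δ (Iio δ) := by
        intro x hx
        rcases eq_or_lt_of_le (show x ≤ δ from hx) with h | h
        · exact Or.inl h
        · exact Or.inr h
      refine ((Cardinal.mk_le_mk_of_subset h1).trans Cardinal.mk_insert_le).trans_lt ?_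
      exact Cardinal.add_lt_of_lt hreg.aleph0_le (hinit δ)
        (Cardinal.one_lt_aleph0.trans_le hreg.aleph0_le)
    obtain ⟨q', hq', h2⟩ := dc_inter hd hJ (fun j : Iic δ => {r | ∃ w, r ∈ G j.1 w})
      (fun j r hr r' hr' => by
        obtain ⟨w, hw⟩ := hr
        exact ⟨w, hG _ _ _ hw _ hr'⟩) q
      (fun j r hr => by
        obtain ⟨r', hr', w, hw⟩ := hdense j.1 r (hr.trans hq)
        exact ⟨r', hr', w, hw⟩)
    choose w hw using h2
    have hs : #(insert δ (range w) : Set K) < #K := by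
      refine Cardinal.mk_insert_le.trans_lt ?_
      exact Cardinal.add_lt_of_lt hreg.aleph0_le (Cardinal.mk_range_le.trans_lt hJ)
        (Cardinal.one_lt_aleph0.trans_le hreg.aleph0_le)
    obtain ⟨δ', hδ'⟩ := bdd_of_small hreg hinit _ hs
    exact ⟨⟨⟨q', hq'.trans hq⟩, δ'⟩, hq', hδ' δ (mem_insert _ _), fun i hi =>
      ⟨w ⟨i, hi⟩, hδ' _ (mem_insert_of_mem _ ⟨_, rfl⟩), hw ⟨i, hi⟩⟩⟩
  choose nx h1 h2 h3 using step
  let f : ℕ → {q : P // q ≤ p} × K := fun n => nx^[n] (⟨p, le_rfl⟩, γ)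
  have hf : ∀ n, f (n + 1) = nx (f n) := fun n => Function.iterate_succ_apply' nx n _
  have hanti : Antitone fun n => ((f n).1 : P) := antitone_nat_of_succ_le fun n => by
    show ((f (n + 1)).1 : P) ≤ (f n).1
    rw [hf]
    exact h1 _
  obtain ⟨q, hq⟩ := hd (range fun n => ((f n).1 : P)) ⟨_, 0, rfl⟩
    (Cardinal.mk_range_le.trans_lt (by rw [Cardinal.mk_nat]; exact hunc)) (by
      rintro a ⟨n, rfl⟩ b ⟨k, rfl⟩
      exact ⟨_, ⟨max n k, rfl⟩, hanti (le_max_left n k), hanti (le_max_right n k)⟩)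
  have hS : #(range fun n => (f n).2) < #K :=
    Cardinal.mk_range_le.trans_lt (by rw [Cardinal.mk_nat]; exact hunc)
  obtain ⟨b, hb⟩ := bdd_of_small hreg hinit _ hS
  have hne : {δ : K | ∀ n, (f n).2 < δ}.Nonempty := ⟨b, fun n => hb _ ⟨n, rfl⟩⟩
  refine ⟨q, hq _ ⟨0, rfl⟩, wellFounded_lt.min _ hne, wellFounded_lt.min_mem _ hne 0, ?_⟩
  intro i hi
  have h4 : ¬ ∀ n, (f n).2 < i := fun h =>
    wellFounded_lt.not_lt_min {δ : K | ∀ n, (f n).2 < δ} (x := i) h hi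
  push Not at h4
  obtain ⟨n, hn⟩ := h4
  obtain ⟨w, hw, hw'⟩ := h3 (f n) i hn
  rw [← hf] at hw hw'
  exact ⟨w, hw.trans (wellFounded_lt.min_mem _ hne (n + 1)), hG _ _ _ hw' _ (hq _ ⟨n + 1, rfl⟩)⟩

/-- The number of small subsets. -/
theorem mk_small_subsets {κ : Cardinal.{0}} (hreg : κ.IsRegular) (hsl : ∀ c < κ, 2 ^ c < κ)
    {E : Type} (Y : Set E) (hY : #Y ≤ κ) : #{τ : Set E // τ ⊆ Y ∧ #τ < κ} ≤ κ := by
  obtain ⟨f⟩ : Nonempty (Y ↪ κ.ord.ToType) := by
    rw [← Cardinal.le_def, mk_ord_toType]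
    exact hY
  have h1 : #{s : Set κ.ord.ToType // #s < κ} = κ := by
    have h2 := mk_subset_mk_lt_cof (α := κ.ord.ToType) (by
      rw [mk_ord_toType]
      exact fun c hc => hsl c hc)
    rw [mk_ord_toType, hreg.cof_ord] at h2
    exact h2
  refine le_of_le_of_eq ?_ h1
  refine mk_le_of_injective (f := fun τ => ⟨f '' {y | (y : E) ∈ τ.1}, ?_⟩) ?_
  · refine (mk_image_le).trans_lt ?_
    refine lt_of_le_of_lt ?_ τ.2.2
    exact mk_le_of_injective (f := fun y => (⟨y.1.1, y.2⟩ : τ.1)) (by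
      intro a b hab
      exact Subtype.ext (Subtype.ext (Subtype.mk.inj hab)))
  · intro τ τ' h
    have h3 : f '' {y | (y : E) ∈ τ.1} = f '' {y | (y : E) ∈ τ'.1} := congrArg Subtype.val h
    have h4 := f.injective.image_injective h3
    refine Subtype.ext (Set.ext fun x => ?_)
    constructor
    · intro hx
      have h5 : (⟨x, τ.2.1 hx⟩ : Y) ∈ {y : Y | (y : E) ∈ τ.1} := hx
      rw [h4] at h5
      exact h5
    · intro hx
      have h5 : (⟨x, τ'.2.1 hx⟩ : Y) ∈ {y : Y | (y : E) ∈ τ'.1} := hx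
      rw [← h4] at h5
      exact h5

/-- Row VG2.  Closing off under a function of small sets: `κ` steps. -/
theorem exists_closed {κ : Cardinal.{0}} (hreg : κ.IsRegular) (hsl : ∀ c < κ, 2 ^ c < κ)
    {E : Type} (g : Set E → Set E) (hg : ∀ τ : Set E, #τ < κ → #(g τ) ≤ κ) :
    ∃ Y : Set E, #Y ≤ κ ∧ ∀ τ : Set E, τ ⊆ Y → #τ < κ → g τ ⊆ Y := by
  have hK : #κ.ord.ToType = κ := mk_ord_toType κ
  have hwf : WellFounded (fun a b : κ.ord.ToType => a < b) := wellFounded_lt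
  let y : κ.ord.ToType → Set E := hwf.fix fun i F =>
    ⋃ τ : {τ : Set E // τ ⊆ (⋃ j : {j // j < i}, F j.1 j.2) ∧ #τ < κ}, g τ.1
  have hy : ∀ i, y i = ⋃ τ : {τ : Set E // τ ⊆ (⋃ j : {j // j < i}, y j.1) ∧ #τ < κ}, g τ.1 := by
    intro i
    show hwf.fix _ i = _
    rw [WellFounded.fix_eq]
  have hcard : ∀ i, #(y i) ≤ κ := by
    intro i
    induction i using hwf.induction with
    | _ i ih =>
      have h1 : #(⋃ j : {j // j < i}, y j.1 : Set E) ≤ κ := by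
        refine mk_iUnion_le_sum_mk.trans ?_
        refine (sum_le_sum _ (fun _ => κ) fun j : {j // j < i} => ih j.1 j.2).trans ?_
        rw [sum_const']
        refine (mul_le_mul_left ?_ κ).trans (mul_eq_self hreg.aleph0_le).le
        exact (mk_subtype_le _).trans hK.le
      rw [hy i]
      refine mk_iUnion_le_sum_mk.trans ?_
      refine (sum_le_sum _ (fun _ => κ)
        fun τ : {τ : Set E // τ ⊆ (⋃ j : {j // j < i}, y j.1) ∧ #τ < κ} => hg τ.1 τ.2.2).trans ?_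
      rw [sum_const']
      exact (mul_le_mul_left (mk_small_subsets hreg hsl _ h1) κ).trans
        (mul_eq_self hreg.aleph0_le).le
  refine ⟨⋃ i, y i, ?_, ?_⟩
  · refine mk_iUnion_le_sum_mk.trans ?_
    refine (sum_le_sum _ (fun _ => κ) fun i => hcard i).trans ?_
    rw [sum_const', hK]
    exact (mul_eq_self hreg.aleph0_le).le
  · intro τ hτ hs
    have hch : ∀ x : τ, ∃ i, x.1 ∈ y i := fun x => mem_iUnion.1 (hτ x.2)
    choose c hc using hch
    obtain ⟨b, hb⟩ := bdd_of_small (K := κ.ord.ToType) (by rw [hK]; exact hreg)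
      (fun a => mk_Iio_lt a (by rw [hK]; simp)) (range c)
      (by rw [hK]; exact mk_range_le.trans_lt hs)
    have h2 : τ ⊆ ⋃ j : {j // j < b}, y j.1 := fun x hx =>
      mem_iUnion.2 ⟨⟨c ⟨x, hx⟩, hb _ ⟨⟨x, hx⟩, rfl⟩⟩, hc ⟨x, hx⟩⟩
    refine Subset.trans ?_ (subset_iUnion y b)
    rw [hy b]
    exact subset_iUnion (fun τ : {τ : Set E // τ ⊆ (⋃ j : {j // j < b}, y j.1) ∧ #τ < κ} => g τ.1)
      ⟨τ, h2, hs⟩

end Pool.PU
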