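import Pool.Agent.Lib.MP_54c436_pu.ND
import Pool.Agent.Lib.MP_54c436_pu.VG
import Pool.Agent.Lib.MP_cc7fb1_cn.NC1
/-!
# PU, N-side, row N1: the cardinal `κ` of the model
-/


set_option autoImplicit false
set_option linter.unusedSectionVars false
open Cardinal Set
namespace Pool.PU
open Pool.MP_3ade05_lc Pool.PC Pool.CF Pool.UL Pool.UT Pool.GE Pool.CN
variable {P : Type} [PartialOrder P] {κ : Cardinal.{0}} {G : (KT κ → Set P) → Set P}
lemma mk_KT (κ : Cardinal.{0}) : #(KT κ) = κ := by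
  rw [← card_ty, ty_KT, card_ord]

lemma mk_Iio_KT {κ : Cardinal.{0}} (a : KT κ) : #(Iio a) < κ := by
  rw [← card_od a, ← Cardinal.lt_ord]
  exact lt_of_lt_of_eq (od_lt_ty a) (ty_KT κ)

/-- Functions on initial segments are bounded. -/
lemma bd_KT {κ : Cardinal.{0}} (hκ : κ.IsRegular) (g : KT κ → KT κ) (a : KT κ) :
    ∃ c, ∀ j < a, g j < c := by
  have h2 : (⨆ j : Iio a, (od (g j.1) + 1)) < κ.ord := by
    refine Ordinal.iSup_add_one_lt_of_lt_cof (by rw [hκ.cof_ord]; exact mk_Iio_KT a) ?_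
    intro j
    exact lt_of_lt_of_eq (od_lt_ty _) (ty_KT κ)
  obtain ⟨c, hc⟩ := exists_od (lt_of_lt_of_eq h2 (ty_KT κ).symm)
  refine ⟨c, fun j hj => ?_⟩
  rw [← od_lt_iff, hc]
  have h3 : od (g j) + 1 ≤ ⨆ j : Iio a, (od (g j.1) + 1) :=
    le_ciSup (f := fun j : Iio a => od (g j.1) + 1) Ordinal.bddAbove_of_small ⟨j, hj⟩
  exact lt_of_lt_of_le (Order.lt_succ _) h3

/-- Row N1a: `κ` is a cardinal of the model. -/
theorem Ev.card_k (hC : Core κ P G) :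
    Ev (P := PP P) (fun U H => InfCard (MM U H) (kp κ U H)) := by
  refine ((Ev.base (P := PP P)).and ((Ev.no_surj (P := PP P)).and
    (Ev.seedN (P := PP P) (ordN (PP P) κ.ord)))).mono ?_
  rintro U H ⟨hB, hns, hκ⟩
  show InfCard (MM U H) (Name.val U H (ordN _ (ty (KT κ))))
  rw [ty_KT]
  refine ⟨mem_MM hκ, isOrdinal_val_ordN hB _, ?_, ?_⟩
  · rw [← val_ordN_omega hB]
    refine (val_ordN_subset_iff hB hB.omega hκ).2 ?_
    rw [← Cardinal.ord_aleph0]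
    exact Cardinal.ord_le_ord.2 hC.unc.le
  · intro a ha f hf hfa
    obtain ⟨δ, hδ, hδU, rfl⟩ := (mem_val_ordN hB).1 ha
    obtain ⟨p₀, hp₀⟩ := hB.filt.ne
    refine hns δ _ hδU hκ ⟨p₀, hp₀, fun p _ R' hmono huniq => ?_⟩ f hf hfa
    obtain ⟨q, hq, b, hb⟩ := NC1_ns hC.dir (A := δ.ToType) (B := κ.ord.ToType)
      (by
        rw [Cardinal.mk_toType]
        exact Cardinal.lt_ord.1 hδ)
      (by rw [Cardinal.mk_toType, Cardinal.card_ord]) p.down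
      (fun q a b => R' (ULift.up q) a b)
      (fun q q' a b h => hmono (ULift.up q) (ULift.up q') a b h)
      (fun q hq a b b' => huniq (ULift.up q) hq a b b')
    exact ⟨ULift.up q, hq, b, fun q' hq' a => hb q'.down hq' a⟩

/-- Row N1b: `κ` is regular in the model. -/
theorem Ev.reg_k (hC : Core κ P G) : Ev (P := PP P) (fun U H => ∀ a ∈ kp κ U H, ∀ f ∈ MM U H,
    FunOn f a → (∀ x ∈ a, ap f x ∈ kp κ U H) → ∃ b ∈ kp κ U H, ∀ x ∈ a, ap f x ∈ b) := by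
  have : Nonempty (KT κ) := by
    rw [Ordinal.nonempty_toType_iff]
    exact (Cardinal.ord_pos.2 hC.reg.pos).ne'
  have hb := fun z : (KT κ → KT κ) × KT κ => bd_KT hC.reg z.1 z.2
  choose c hc using hb
  refine ((Ev.base (P := PP P)).and (((Ev.wd (P := P) (KT κ)).and
    (Ev.short (P := P) κ hC.dir (KT κ))).and
      ((Ev.pairT (P := PP P) (KT κ → KT κ) (KT κ)).and
        (Ev.opT (P := PP P) c)))).mono ?_
  rintro U H ⟨hB, ⟨hW, hs⟩, hp, ho⟩ a ha f ⟨σ, _, hσ, rfl⟩ hf hv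
  obtain ⟨a0, ha0, rfl⟩ := (hW.mem _).1 ha
  have haU := (hW.iff a0).2 ha0
  have hlt : od a0 < κ.ord := by
    have h1 := od_lt_ty a0
    rwa [ty_KT] at h1
  obtain ⟨g, hg, hgj⟩ := hs σ hσ (od a0) haU hlt hf (by
    intro x y hxy
    have hx := FunOn.dom hf hxy
    rw [← (FunOn.ap_eq hf hx).1 hxy]
    exact hv x hx)
  have hcU := ho _ (hp g a0 hg ha0)
  refine ⟨Name.val U H (ordN _ (od (c (g, a0)))), (hW.mem _).2 ⟨_, hcU, rfl⟩, ?_⟩
  intro x hx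
  obtain ⟨β, hβ, hβU, rfl⟩ := (mem_val_ordN hB).1 hx
  obtain ⟨j, rfl⟩ := exists_od (W := KT κ) (hβ.trans (od_lt_ty a0))
  have hj := (hW.iff j).1 hβU
  obtain ⟨h1, h2⟩ := hgj j hj hβ
  rw [(FunOn.ap_eq hf hx).1 h2]
  exact (hW.lt _ _ h1 hcU).2 (hc (g, a0) j (od_lt_iff.1 hβ))

/-- Row N1c: closure points of functions are unbounded. -/
theorem Ev.clo_k (hC : Core κ P G) : Ev (P := PP P) (fun U H => ∀ f ∈ MM U H,
    FunOn f (kp κ U H) → (∀ x ∈ kp κ U H, ap f x ∈ kp κ U H) → ∀ a ∈ kp κ U H,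
      ∃ d ∈ kp κ U H, a ∈ d ∧ ∀ x ∈ d, ap f x ∈ d) := by
  classical
  have hg1 := Ev.genT (P := PP P) (T := Unit) (T' := KT κ) 1
    (fun _ v q j => ∀ r ≤ q, ∀ w : KT κ,
      ¬ Name.fmem (oN (ordN (PP P) (od j)) (ordN (PP P) (od w))) (v 0) r)
  have hg2 := Ev.genT (P := PP P) (T := KT κ) (T' := KT κ × (KT κ → KT κ)) 1
    (fun γ v q z => γ < z.1 ∧ ∀ i < z.1, z.2 i < z.1 ∧
      Name.fmem (oN (ordN (PP P) (od i)) (ordN (PP P) (od (z.2 i)))) (v 0) q)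
  have hev := Ev.opT (P := PP P) (T := (KT κ × (KT κ → KT κ)) × KT κ) (T' := KT κ)
    (fun z => z.1.2 z.2)
  have hev2 := Ev.opT (P := PP P) (T := KT κ × (KT κ → KT κ)) (T' := KT κ) (fun z => z.1)
  refine (((Ev.base (P := PP P)).and (Ev.wd (P := P) (KT κ))).and
    ((hg1.and hg2).and ((hev.and hev2).and
      ((Ev.pairT (P := PP P) (KT κ × (KT κ → KT κ)) (KT κ)).and
      (Ev.seed (P := PP P) (T := Unit) ()))))).mono ?_
  rintro U H ⟨⟨hB, hK⟩, ⟨h1, h2⟩, ⟨hev, hev2⟩, hpair, hunit⟩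
  rintro f ⟨σ, _, hσ, rfl⟩ hf hv a ha
  obtain ⟨γ, hγ, rfl⟩ := (hK.mem _).1 ha
  have hσv : ∀ i, (![σ] : Fin 1 → Name (PP P)) i ∈ U := by
    intro i
    fin_cases i
    exact hσ
  rcases h2 γ hγ ![σ] hσv with ⟨q, hq, ⟨δ, g⟩, hz, hγδ, hR⟩ | ⟨p', hp', hn'⟩
  · have hδ : tN (P := PP P) δ ∈ U := hev2 _ hz
    refine ⟨Name.val U H (ordN _ (od δ)), (hK.mem _).2 ⟨_, hδ, rfl⟩, (hK.lt _ _ hγ hδ).2 hγδ, ?_⟩
    intro x hx
    obtain ⟨β, hβ, hβU, rfl⟩ := (mem_val_ordN hB).1 hx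
    obtain ⟨j, rfl⟩ := exists_od (W := KT κ) (hβ.trans (od_lt_ty δ))
    have hj := (hK.iff j).1 hβU
    obtain ⟨h3, h4⟩ := hR j (od_lt_iff.1 hβ)
    have h5 : tN (P := PP P) (g j) ∈ U := hev ((δ, g), j) (hpair _ _ hz hj)
    have h6 : ordN (PP P) (od (g j)) ∈ U := (hK.iff (g j)).2 h5
    have h7 : Name.val U H (ordN (PP P) (od j)) ∈ kp κ U H := (hK.mem _).2 ⟨_, hj, rfl⟩
    have h8 : ZFSet.pair (Name.val U H (ordN _ (od j))) (Name.val U H (ordN _ (od (g j)))) ∈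
        Name.val U H σ := by
      rw [← val_oN hB hβU h6]
      exact (Name.val_mem_iff hB.full.at' (oN_mem hB hβU h6) hσ).2 ⟨q, hq, h4⟩
    rw [(FunOn.ap_eq hf h7).1 h8]
    exact (hK.lt _ _ h5 hδ).2 h3
  · exfalso
    rcases h1 () hunit ![σ] hσv with ⟨q, hq, j, hj, hR⟩ | ⟨p, hp, hn⟩
    · have h4 : ordN (PP P) (od j) ∈ U := (hK.iff j).2 hj
      have h5 : Name.val U H (ordN (PP P) (od j)) ∈ kp κ U H := (hK.mem _).2 ⟨_, hj, rfl⟩
      obtain ⟨w, hw, hwe⟩ := (hK.mem _).1 (hv _ h5)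
      have h6 : ordN (PP P) (od w) ∈ U := (hK.iff w).2 hw
      have hy := (FunOn.ap_eq hf h5).2 hwe
      rw [← val_oN hB h4 h6] at hy
      obtain ⟨s, hs, hf'⟩ := (Name.val_mem_iff hB.full.at' (oN_mem hB h4 h6) hσ).1 hy
      obtain ⟨r, hr, hr1, hr2⟩ := hB.filt.dir s hs q hq
      exact hR r hr2 w (Name.fmem_mono hf' hr1)
    · obtain ⟨p₀, _, hp1, hp2⟩ := hB.filt.dir p hp p' hp'
      have hcard : #(KT κ) = κ := mk_KT κ
      obtain ⟨q, hq, δ, hδ, hqA⟩ := clo (K := KT κ) (by rw [hcard]; exact hC.reg)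
        (by rw [hcard]; exact hC.unc) (fun a => by rw [hcard]; exact mk_Iio_KT a)
        (by rw [hcard]; exact hC.dir)
        (fun i w => {q : P | Name.fmem (oN (ordN (PP P) (od i)) (ordN (PP P) (od w))) σ ⟨q⟩})
        (fun i w s hw t ht => Name.fmem_mono (p := (⟨s⟩ : PP P)) (q := ⟨t⟩) hw ht) p₀.down
        (by
          intro j s hs
          have h7 := hn ⟨s⟩ (le_trans (show (⟨s⟩ : PP P) ≤ p₀ from hs) hp1) j
          push Not at h7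
          obtain ⟨r, hr, w, hw⟩ := h7
          exact ⟨r.down, hr, w, hw⟩) γ
      have : Nonempty (KT κ) := ⟨δ⟩
      choose! w hw using hqA
      exact hn' ⟨q⟩ (le_trans (show (⟨q⟩ : PP P) ≤ p₀ from hq) hp2) (δ, w) ⟨hδ, hw⟩

theorem Ev.mc (hC : Core κ P G) : Ev (P := PP P) (fun U H => MC (MM U H) (kp κ U H)) := by
  refine ((((Ev.zf (P := PP P)).and (Ev.choice (P := PP P))).and (Ev.base (P := PP P))).and
    (((Ev.wd (P := P) (KT κ)).and (Ev.card_k hC)).and ((Ev.reg_k hC).and (Ev.clo_k hC)))).mono ?_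
  rintro U H ⟨⟨⟨hzf, hch⟩, hB⟩, ⟨hK, h1⟩, h2, h3⟩
  refine ⟨fun x hx y hy => MM_trans hx hy, ⟨hzf, hch⟩, h1, ?_, h2, h3⟩
  rw [← val_ordN_omega hB]
  refine (val_ordN_mem_iff hB hB.omega hK.ty_mem).2 ?_
  rw [ty_KT, lt_ord, Ordinal.card_omega0]
  exact hC.unc

end Pool.PU
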