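import Pool.Agent.Lib.MP_54c436_pu.ND
/-!
# PU, N-side, row N2: the ultrafilter of the model
-/


set_option autoImplicit false
set_option linter.unusedSectionVars false
open Cardinal Set
namespace Pool.PU
open Pool.MP_3ade05_lc Pool.PC Pool.CF Pool.UL Pool.UT Pool.GE Pool.CN
variable {P : Type} [PartialOrder P] {κ : Cardinal.{0}} {G : (KT κ → Set P) → Set P}
/-- The final segments. -/
private def N2a_seg {P : Type} [PartialOrder P] {κ : Cardinal.{0}} (j : KT κ) : RA (KT κ) P :=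
  ⟨fun a => {_q | j < a}, fun _ => ⟨fun _ h _ _ => h, fun p h => by
    obtain ⟨r, _, h1⟩ := h p le_rfl
    exact h1⟩⟩

/-- The nice name of the diagonal intersection of the values of the function named by `σ`. -/
private noncomputable def N2c_dg {P : Type} [PartialOrder P] (W : Type) [LinearOrder W]
    [WellFoundedLT W] (σ : Name (PP P)) : RA W P :=
  ⟨fun ξ => {q | ∀ ν < ξ, q ∈ (rs W σ (od ν)).1 ξ}, fun ξ =>
    ⟨fun p h q hq ν hν => ((rs W σ (od ν)).2 ξ).1 p (h ν hν) q hq,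
      fun p h ν hν => ((rs W σ (od ν)).2 ξ).2 p fun q hq => by
        obtain ⟨r, hr, h1⟩ := h q hq
        exact ⟨r, hr, h1 ν hν⟩⟩⟩

/-- Row N2a (compare `Ev.FZ1` in `MP_cc7fb1_cn/ND1`, `Ev.ext` in `NE3`). -/
theorem Ev.nu1 (hC : Core κ P G) : Ev (P := PP P) (fun U H =>
    (∅ : ZFSet.{0}) ∉ ug G U H ∧
    (∀ A ∈ MM U H, A ⊆ kp κ U H → A ∈ ug G U H ∨ kp κ U H \ A ∈ ug G U H) ∧
    ∀ b ∈ kp κ U H, ZFSet.sep (fun y => b ∈ y) (kp κ U H) ∈ ug G U H) := by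
  have hgen := Ev.genT (P := PP P) (T := (RA (KT κ) P → Set P) × RA (KT κ) P) (T' := Unit) 0
    (fun z _ q _ => q.down ∈ z.1 z.2 ∨ q.down ∈ z.1 (raC z.2))
  refine (((((Ev.base (P := PP P)).and (Ev.wd (P := P) (KT κ))).and
    ((Ev.mem_nm (P := P) (KT κ)).and ((Ev.rg_spec (P := P) (KT κ)).and
    ((Ev.raC_val (P := P) (KT κ)).and (Ev.mem_fN (P := P) (KT κ)))))).and
    (Ev.fN_up (P := P) (KT κ))).and
    ((hgen.and ((Ev.pairT (P := PP P) (RA (KT κ) P → Set P) (RA (KT κ) P)).and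
    ((Ev.seed (P := PP P) (GG G)).and
    (Ev.opT (P := PP P) (N2a_seg (P := P) (κ := κ)))))))).mono ?_
  rintro U H ⟨⟨⟨⟨hB, hW⟩, hnm, hrg, hraC, hfN⟩, hup⟩, hgen, hpair, hG, hseg⟩
  have hnice := GG_nice hC
  obtain ⟨-, -, hfN3⟩ := hfN _ hG hnice
  obtain ⟨-, -, -, hu4⟩ := hup _ hG hnice
  refine ⟨?_, ?_, ?_⟩
  · intro h
    obtain ⟨q, -, h1⟩ := hu4.1 h
    have h2 : q.down ∈ G (fun _ => ∅) := h1
    rw [hC.norm.proper] at h2
    exact h2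
  · intro A hA hAl
    obtain ⟨τ, _, hτ, rfl⟩ := hA
    obtain ⟨h1, -, h2⟩ := hrg τ hτ
    have h2 := h2 hAl
    obtain ⟨h3, h4⟩ := hraC _ h1
    rcases hgen (GG G, rg (KT κ) τ) (hpair _ _ hG h1) Fin.elim0 (fun i => i.elim0) with
      ⟨q, hq, _, _, h5⟩ | ⟨p, hp, hn⟩
    · rcases h5 with h5 | h5
      · left
        rw [← h2]
        exact (hfN3 _ h1).2 ⟨q, hq, h5⟩
      · right
        rw [← h2, ← h4]
        exact (hfN3 _ h3).2 ⟨q, hq, h5⟩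
    · exfalso
      obtain ⟨q, hq, h7⟩ := hC.norm.ultra _ (rg (KT κ) τ).2 p.down
      exact hn ⟨q⟩ hq () h7
  · intro b hb
    obtain ⟨j, hj, rfl⟩ := (hW.mem b).1 hb
    have e : ZFSet.sep (fun y => Name.val U H (ordN _ (od j)) ∈ y) (kp κ U H) =
        Name.val U H (nm (N2a_seg (P := P) j).1) := by
      ext x
      rw [ZFSet.mem_sep, hnm]
      constructor
      · rintro ⟨hx, hjx⟩
        obtain ⟨a, ha, rfl⟩ := (hW.mem x).1 hx
        obtain ⟨q, hq⟩ := hB.filt.ne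
        exact ⟨a, ha, ⟨q, hq, (hW.lt j a hj ha).1 hjx⟩, rfl⟩
      · rintro ⟨a, ha, ⟨q, -, hq⟩, rfl⟩
        exact ⟨(hW.mem _).2 ⟨a, ha, rfl⟩, (hW.lt j a hj ha).2 hq⟩
    rw [e]
    obtain ⟨q, hq⟩ := hB.filt.ne
    exact (hfN3 _ (hseg j hj)).2 ⟨q, hq, hC.norm.unif j q.down⟩

/-- Row N2b: completeness (compare `Ev.ext` in `MP_cc7fb1_cn/NE3`). -/
theorem Ev.nu2 (hC : Core κ P G) : Ev (P := PP P) (fun U H =>
    ∀ a ∈ kp κ U H, ∀ C ∈ MM U H, FunOn C a → (∀ x ∈ a, ap C x ∈ ug G U H) →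
      ZFSet.sep (fun y => ∀ x ∈ a, y ∈ ap C x) (kp κ U H) ∈ ug G U H) := by
  refine (((((Ev.base (P := PP P)).and (Ev.wd (P := P) (KT κ))).and
    ((Ev.mem_nm (P := P) (KT κ)).and ((Ev.mem_fN (P := P) (KT κ)).and
      (Ev.rs_val (P := P) (KT κ))))).and
    ((Ev.rs_force (P := P) (KT κ)).and ((Ev.fN_up (P := P) (KT κ)).and
    (Ev.inter_nm (P := P) κ hC.dir (KT κ))))).and
    ((Ev.opG (P := PP P) (T := Unit) 1 (fun _ v => fun j : KT κ => rs (KT κ) (v 0) (od j))).and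
    ((Ev.seed (P := PP P) ()).and (Ev.seed (P := PP P) (GG G))))).mono ?_
  rintro U H ⟨⟨⟨⟨hB, hW⟩, hnm, hfN, hrs⟩, hforce, hup, hinter⟩, hopR, hunit, hG⟩
  have hnice := GG_nice hC
  obtain ⟨-, -, hfN2⟩ := hfN _ hG hnice
  obtain ⟨-, hu2, -, -⟩ := hup _ hG hnice
  intro a ha C hCM hfun hval
  obtain ⟨k, hk, rfl⟩ := (hW.mem a).1 ha
  obtain ⟨σ, _, hσ, rfl⟩ := hCM
  have hkU : ordN (PP P) (od k) ∈ U := (hW.iff k).2 hk
  have hkκ : od k < κ.ord := (od_lt_ty k).trans_eq (ty_KT κ)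
  obtain ⟨p, hp, hpF⟩ := hforce _ hG hnice σ hσ (od k) hkU hfun (fun x y hxy => by
    have hx := FunOn.dom hfun hxy
    rw [← (FunOn.ap_eq hfun hx).1 hxy]
    exact hval x hx)
  set A : KT κ → RA (KT κ) P := fun j => rs (KT κ) σ (od j) with hA
  have hAU : tN (P := PP P) A ∈ U := hopR () hunit (fun _ => σ) (fun _ => hσ)
  obtain ⟨hIU, hI⟩ := hinter A hAU (od k) hkU hkκ
  have hcard : #{j : KT κ | od j < od k} < κ := by
    have h1 : {j : KT κ | od j < od k} = Iio k := by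
      ext j
      rw [Set.mem_ofPred_eq, od_lt_iff]
      rfl
    rw [h1, ← card_od]
    exact lt_ord.1 hkκ
  have hcomp := hC.norm.complete {j : KT κ | od j < od k} (fun j => (A j.1).1) hcard
    (fun j => (A j.1).2) p.down (fun j => hpF (od j.1) j.2)
  have heq : (fun i => {q : P | ∀ j : {j : KT κ | od j < od k}, q ∈ (A j.1).1 i}) =
      (raI A {j | od j < od k}).1 := by
    funext b
    ext q
    constructor
    · intro h j hj
      exact h ⟨j, hj⟩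
    · intro h j
      exact h j.1 j.2
  rw [heq] at hcomp
  have hmem := (hfN2 _ hIU).2 ⟨p, hp, hcomp⟩
  have hsep : Name.val U H (nm (raI A {j | od j < od k}).1) =
      ZFSet.sep (fun y => ∀ x ∈ Name.val U H (ordN _ (od k)), y ∈ ap (Name.val U H σ) x)
        (kp κ U H) := by
    -- the values of the sequence
    have hap : ∀ j : KT κ, tN (P := PP P) j ∈ U → od j < od k →
        Name.val U H (nm (A j).1) = ap (Name.val U H σ) (Name.val U H (ordN _ (od j))) := by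
      intro j hj hjk
      have hjU := (hW.iff j).2 hj
      have hx : Name.val U H (ordN _ (od j)) ∈ Name.val U H (ordN _ (od k)) :=
        (val_ordN_mem_iff hB hjU hkU).2 hjk
      refine (hrs σ hσ (od j) hjU).2 _ (FunOn.ap_mem hfun hx) (fun y' hy' => ?_) ?_
      · exact ((FunOn.ap_eq hfun hx).1 hy').symm
      · exact hu2 _ (hval _ hx)
    ext y
    rw [hnm, ZFSet.mem_sep]
    constructor
    · rintro ⟨b, hb, hq, rfl⟩
      refine ⟨(hW.mem _).2 ⟨b, hb, rfl⟩, ?_⟩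
      intro x hx
      obtain ⟨β, hβ, hβU, rfl⟩ := (mem_val_ordN hB).1 hx
      obtain ⟨j, rfl⟩ := exists_od (W := KT κ) (hβ.trans (od_lt_ty k))
      have hj := (hW.iff j).1 hβU
      rw [← hap j hj hβ, hnm]
      exact ⟨b, hb, (hI b hb).1 hq j hj hβ, rfl⟩
    · rintro ⟨h4, h5⟩
      obtain ⟨b, hb, rfl⟩ := (hW.mem _).1 h4
      refine ⟨b, hb, (hI b hb).2 ?_, rfl⟩
      intro j hj hjk
      have hx : Name.val U H (ordN _ (od j)) ∈ Name.val U H (ordN _ (od k)) :=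
        (val_ordN_mem_iff hB ((hW.iff j).2 hj) hkU).2 hjk
      have h6 := h5 _ hx
      rw [← hap j hj hjk, hnm] at h6
      obtain ⟨b', hb', h7, h8⟩ := h6
      obtain rfl := hW.inj b b' hb hb' h8
      exact h7
  rw [← hsep]
  exact hmem

/-- Row N2c: normality (compare `Ev.FZ2` in `MP_cc7fb1_cn/ND2`). -/
theorem Ev.nu3 (hC : Core κ P G) : Ev (P := PP P) (fun U H =>
    ∀ C ∈ MM U H, FunOn C (kp κ U H) → (∀ x ∈ kp κ U H, ap C x ∈ ug G U H) →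
      ZFSet.sep (fun y => ∀ x ∈ y, y ∈ ap C x) (kp κ U H) ∈ ug G U H) := by
  have e1 := ((Ev.zf (P := PP P)).and (Ev.choice (P := PP P))).and (Ev.base (P := PP P))
  have e2 := (Ev.wd (P := P) (KT κ)).and (Ev.mem_nm (P := P) (KT κ))
  have e3 := ((Ev.mem_fN (P := P) (KT κ)).and (Ev.fN_up (P := P) (KT κ))).and
    ((Ev.rs_val (P := P) (KT κ)).and (Ev.rs_force (P := P) (KT κ)))
  have e4 := (Ev.seed (P := PP P) (GG G)).and ((Ev.seed (P := PP P) ()).and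
    (Ev.opG (P := PP P) (T := Unit) 1 (fun _ v => N2c_dg (KT κ) (v 0))))
  refine ((e1.and e2).and (e3.and e4)).mono ?_
  rintro U H ⟨⟨⟨⟨hzf, hch⟩, hB⟩, hW, hnm⟩, ⟨⟨hfN, hup⟩, hrs, hfo⟩, hF, hunit, hdg⟩ C
    ⟨σ, _, hσ, rfl⟩ hCf hv
  have hN : Nice (GG G) := GG_nice hC
  obtain ⟨hup1, hup2, hup3, -⟩ := hup _ hF hN
  obtain ⟨-, -, hfN3⟩ := hfN _ hF hN
  obtain ⟨p, hp, hpE⟩ := hfo _ hF hN σ hσ (ty (KT κ)) hW.ty_mem hCf (by
    intro x y hxy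
    have hx := FunOn.dom hCf hxy
    rw [← (FunOn.ap_eq hCf hx).1 hxy]
    exact hv x hx)
  have hdgU : tN (P := PP P) (N2c_dg (P := P) (KT κ) σ) ∈ U :=
    hdg () hunit ![σ] (by intro i; fin_cases i; exact hσ)
  have hdF : p.down ∈ GG G (N2c_dg (KT κ) σ) :=
    hC.norm.diag (fun ν => (rs (KT κ) σ (od ν)).1) (fun ν ξ => (rs (KT κ) σ (od ν)).2 ξ) p.down
      (fun ν => hpE (od ν) (od_lt_ty ν))
  have hmem : Name.val U H (nm (N2c_dg (P := P) (KT κ) σ).1) ∈ ug G U H :=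
    (hfN3 _ hdgU).2 ⟨p, hp, hdF⟩
  haveI : TC (MM U H) :=
    { trans := fun x hx y hy => MM_trans hx hy
      zf := hzf
      choice := hch }
  haveI : InE (MM U H) (Name.val U H σ) := ⟨mem_MM hσ⟩
  haveI : InE (MM U H) (kp κ U H) := ⟨mem_MM hW.ty_mem⟩
  have hsE : ZFSet.sep (fun y => ∀ x ∈ y, y ∈ ap (Name.val U H σ) x) (kp κ U H) ∈ MM U H :=
    mem_of (E := MM U H)
      (ZFSet.sep (fun y => ∀ x ∈ y, y ∈ ap (Name.val U H σ) x) (kp κ U H))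
  refine hup3 _ hmem _ hsE (fun z hz => (ZFSet.mem_sep.1 hz).1) ?_
  intro x hx
  rw [hnm] at hx
  obtain ⟨a, ha, ⟨q, hq, hqa⟩, rfl⟩ := hx
  have hxl : Name.val U H (ordN (PP P) (od a)) ∈ kp κ U H := (hW.mem _).2 ⟨a, ha, rfl⟩
  refine ZFSet.mem_sep.2 ⟨hxl, ?_⟩
  intro z hz
  obtain ⟨β, hβ, hβU, rfl⟩ := (mem_val_ordN hB).1 hz
  obtain ⟨ν, rfl⟩ := exists_od (W := KT κ) (hβ.trans (od_lt_ty a))
  have hν : tN (P := PP P) ν ∈ U := (hW.iff ν).1 hβU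
  have hzl : Name.val U H (ordN (PP P) (od ν)) ∈ kp κ U H := (hW.mem _).2 ⟨ν, hν, rfl⟩
  obtain ⟨h1, h2⟩ := hrs σ hσ (od ν) hβU
  have h3 := h2 _ (FunOn.ap_mem hCf hzl) (fun y' hy' => ((FunOn.ap_eq hCf hzl).1 hy').symm)
    (hup2 _ (hv _ hzl))
  rw [← h3, hnm]
  exact ⟨a, ha, ⟨q, hq, hqa ν (od_lt_iff.1 hβ)⟩, rfl⟩

theorem Ev.nu (hC : Core κ P G) : Ev (P := PP P) (fun U H =>
    NU (MM U H) (kp κ U H) (ug G U H)) := by
  refine (((Ev.nu1 hC).and ((Ev.nu2 hC).and (Ev.nu3 hC))).and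
    ((Ev.fN_up (P := P) (KT κ)).and (Ev.seed (P := PP P) (GG G)))).mono ?_
  rintro U H ⟨⟨⟨h1, h2, h3⟩, h4, h5⟩, h6, h7⟩
  obtain ⟨h8, h9, h10, -⟩ := h6 _ h7 (GG_nice hC)
  exact ⟨h8, h9, fun A hA B hB hBl hAB => h10 A hA B hB hBl hAB, h1, h2, h4, h3, h5⟩

end Pool.PU
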