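import Pool.Agent.Lib.MP_54c436_pu.ND
import Pool.Agent.Lib.MP_cc7fb1_cn.NA4

/-!
# PU, N-side, row N3: the splitting family of the model
-/

set_option autoImplicit false
set_option linter.unusedSectionVars false

open Cardinal Set

namespace Pool.PU

open Pool.MP_3ade05_lc Pool.PC Pool.CF Pool.UL Pool.UT Pool.GE Pool.CN

variable {P : Type} [PartialOrder P] {κ : Cardinal.{0}} {S : Type} [LinearOrder S]
  [WellFoundedLT S] {c : S → KT κ → Set P}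

/-- Row N3a (compare `Ev.DZ1` in `MP_cc7fb1_cn/ND3`). -/
theorem Ev.cN_spec (_hc : ∀ α k, RegOpen (c α k)) : Ev (P := PP P) (fun U H =>
    Name.val U H (cN c) ∈ MM U H ∧ FunOn (Name.val U H (cN c)) (sp S U H) ∧
    ∀ α : S, tN (P := PP P) α ∈ U → nm (c α) ∈ U ∧
      ap (Name.val U H (cN c)) (Name.val U H (ordN _ (od α))) = Name.val U H (nm (c α))) := by
  have h1 := Ev.seedN (P := PP P) (cN c)
  have h2 := Ev.opN (P := PP P) (fun a : S => nm (c a))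
  refine (((Ev.base (P := PP P)).and (Ev.wd (P := P) S)).and
    ((Ev.parts (P := PP P)).and (h1.and h2))).mono ?_
  rintro U H ⟨⟨hB, hΛ⟩, hparts, hD, hop⟩
  have key : ∀ k : (cN c).ι, ∃ a : S, (cN c).A k =
      oN (ordN (PP P) (od a)) (nm (c a)) := fun k => ⟨k, rfl⟩
  have hpair : ∀ x y : ZFSet.{0}, ZFSet.pair x y ∈ Name.val U H (cN c) ↔ ∃ a : S,
      tN (P := PP P) a ∈ U ∧ x = Name.val U H (ordN _ (od a)) ∧
        y = Name.val U H (nm (c a)) := by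
    intro x y
    obtain ⟨q, hq⟩ := hB.filt.ne
    rw [Name.mem_val]
    constructor
    · rintro ⟨k, hkU, -, e⟩
      obtain ⟨a, ha⟩ := key k
      rw [ha] at hkU e
      obtain ⟨h3, h4⟩ := hparts _ _ hkU
      rw [val_oN hB h3 h4] at e
      obtain ⟨e1, e2⟩ := ZFSet.pair_injective e
      exact ⟨a, (hΛ.iff a).1 h3, e1, e2⟩
    · rintro ⟨a, ha, rfl, rfl⟩
      have h3 := (hΛ.iff a).2 ha
      have h4 : nm (c a) ∈ U := hop a ha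
      refine ⟨a, oN_mem hB h3 h4, ⟨q, hq, trivial⟩, ?_⟩
      exact (val_oN hB h3 h4).symm
  have hF : FunOn (Name.val U H (cN c)) (sp S U H) := by
    refine ⟨fun z hz => ?_, fun x hx => ?_⟩
    · obtain ⟨k, hkU, -, rfl⟩ := Name.mem_val.1 hz
      obtain ⟨a, ha⟩ := key k
      rw [ha] at hkU ⊢
      obtain ⟨h3, h4⟩ := hparts _ _ hkU
      exact ⟨_, (hΛ.mem _).2 ⟨a, (hΛ.iff a).1 h3, rfl⟩, _, val_oN hB h3 h4⟩
    · obtain ⟨a, ha, rfl⟩ := (hΛ.mem x).1 hx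
      refine ⟨_, (hpair _ _).2 ⟨a, ha, rfl, rfl⟩, fun y hy => ?_⟩
      obtain ⟨a', ha', e1, e2⟩ := (hpair _ _).1 hy
      rw [e2, hΛ.inj a a' ha ha' e1]
  refine ⟨mem_MM hD, hF, fun a ha => ⟨hop a ha, ?_⟩⟩
  exact (FunOn.ap_eq hF ((hΛ.mem _).2 ⟨a, ha, rfl⟩)).1 ((hpair _ _).2 ⟨a, ha, rfl, rfl⟩)

lemma exists_gt_KT (hκ : κ.IsRegular) (a : KT κ) : ∃ b, a < b := by
  have h1 : od a < κ.ord := lt_of_lt_of_eq (od_lt_ty a) (ty_KT κ)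
  have h2 : od a + 1 < κ.ord :=
    (Cardinal.isSuccLimit_ord hκ.aleph0_le).add_one_lt h1
  obtain ⟨b, hb⟩ := exists_od (lt_of_lt_of_eq h2 (ty_KT κ).symm)
  refine ⟨b, ?_⟩
  rw [← od_lt_iff, hb]
  exact Order.lt_succ _

/-- Row N3b. -/
theorem Ev.spl (hκ : κ.IsRegular) (hS : StrV κ P S c) : Ev (P := PP P) (fun U H =>
    Spl (MM U H) (kp κ U H) (sp S U H) (Name.val U H (cN c))) := by
  classical
  choose sc hsc using exists_gt_KT hκ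
  have hg1 := Ev.genT (P := PP P) (T := RA (KT κ) P) (T' := KT κ) 0
    (fun A _ q γ => ∀ r ≤ q.down, ∀ k, γ < k → r ∉ A.1 k)
  have hg2 := Ev.genT (P := PP P) (T := RA (KT κ) P) (T' := S) 0
    (fun A _ q α => ∀ q' ≤ q.down, ∀ γ, (∃ r ≤ q', ∃ k, γ < k ∧ r ∈ A.1 k ∧ r ∈ c α k) ∧
      ∃ r ≤ q', ∃ k, γ < k ∧ r ∈ A.1 k ∧ r ∈ perp (c α k))
  have hg3 := Ev.genT (P := PP P) (T := (RA (KT κ) P × S) × KT κ) (T' := KT κ) 0
    (fun z _ q k => z.2 < k ∧ q.down ∈ z.1.1.1 k ∧ q.down ∈ c z.1.2 k)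
  have hg4 := Ev.genT (P := PP P) (T := (RA (KT κ) P × S) × KT κ) (T' := KT κ) 0
    (fun z _ q k => z.2 < k ∧ q.down ∈ z.1.1.1 k ∧ q.down ∈ perp (c z.1.2 k))
  refine (((Ev.base (P := PP P)).and (((Ev.wd (P := P) (KT κ)).and (Ev.wd (P := P) S)).and
    ((Ev.mem_nm (P := P) (KT κ)).and (Ev.rg_spec (P := P) (KT κ))))).and
    (((hg1.and hg2).and (hg3.and hg4)).and ((Ev.cN_spec hS.reg).and
      ((Ev.opT (P := PP P) sc).and ((Ev.pairT (P := PP P) (RA (KT κ) P) S).and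
        (Ev.pairT (P := PP P) (RA (KT κ) P × S) (KT κ))))))).mono ?_
  rintro U H ⟨⟨hB, ⟨hK, hS'⟩, hnm, hrg⟩, ⟨⟨h1, h2⟩, h3, h4⟩, ⟨c1, c2, c3⟩, hsU, hp1, hp2⟩
  have he : ∀ i : Fin 0, (Fin.elim0 i : Name (PP P)) ∈ U := fun i => i.elim0
  refine ⟨c1, c2, ?_, ?_⟩
  · intro x hx
    obtain ⟨α, hα, rfl⟩ := (hS'.mem x).1 hx
    rw [(c3 α hα).2]
    intro z hz
    rw [hnm] at hz
    obtain ⟨a, ha, -, rfl⟩ := hz
    exact (hK.mem _).2 ⟨a, ha, rfl⟩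
  · rintro A ⟨τ, _, hτ, rfl⟩ hAk hbd
    obtain ⟨hA, -, hAe⟩ := hrg τ hτ
    have hAe := hAe hAk
    set A := rg (KT κ) τ with hAdef
    have hmem : ∀ a : KT κ, tN (P := PP P) a ∈ U →
        (Name.val U H (ordN _ (od a)) ∈ Name.val U H τ ↔ ∃ q ∈ H, q.down ∈ A.1 a) := by
      intro a ha
      rw [← hAe]
      exact NA4_mem hK hnm A.1 ha
    -- the hypothesis of `spl` holds below some element of `H`
    obtain ⟨p, hp, hpA⟩ : ∃ p ∈ H, ∀ q ≤ p.down, ∀ γ, ∃ r ≤ q, ∃ k, γ < k ∧ r ∈ A.1 k := by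
      rcases h1 A hA Fin.elim0 he with ⟨q, hq, γ, hγ, hR⟩ | ⟨p, hp, hn⟩
      · exfalso
        refine hbd ⟨Name.val U H (ordN _ (od (sc γ))), (hK.mem _).2 ⟨_, hsU _ hγ, rfl⟩, ?_⟩
        intro y hy
        obtain ⟨a, ha, rfl⟩ := (hK.mem y).1 (hAk hy)
        obtain ⟨s, hs, hsA⟩ := (hmem a ha).1 hy
        obtain ⟨r, hr, hrs, hrq⟩ := hB.filt.dir s hs q hq
        have h5 := hR r.down hrq a
        refine (hK.lt _ _ ha (hsU _ hγ)).2 (lt_of_le_of_lt ?_ (hsc γ))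
        by_contra hlt
        exact h5 (not_le.1 hlt) ((A.2 a).1 _ hsA _ hrs)
      · refine ⟨p, hp, fun q hq γ => ?_⟩
        have h5 := hn ⟨q⟩ hq γ
        push Not at h5
        obtain ⟨r, hr, k, hk, hrk⟩ := h5
        exact ⟨r, hr, k, hk, hrk⟩
    -- the splitting set
    obtain ⟨q₀, hq₀, α, hα, hRα⟩ : ∃ q ∈ H, ∃ α : S, tN (P := PP P) α ∈ U ∧
        ∀ q' ≤ q.down, ∀ γ, (∃ r ≤ q', ∃ k, γ < k ∧ r ∈ A.1 k ∧ r ∈ c α k) ∧
          ∃ r ≤ q', ∃ k, γ < k ∧ r ∈ A.1 k ∧ r ∈ perp (c α k) := by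
      rcases h2 A hA Fin.elim0 he with ⟨q, hq, α, hα, hR⟩ | ⟨p', hp', hn⟩
      · exact ⟨q, hq, α, hα, hR⟩
      · exfalso
        obtain ⟨r, hr, hrp, hrp'⟩ := hB.filt.dir p hp p' hp'
        obtain ⟨α, hα⟩ := hS.spl A.1 A.2 r.down (fun q hq γ => hpA q (hq.trans hrp) γ)
        exact hn r hrp' α hα
    have hAα := hp1 A α hA hα
    refine ⟨Name.val U H (ordN _ (od α)), (hS'.mem _).2 ⟨α, hα, rfl⟩, ?_, ?_⟩
    · rintro ⟨b, hb, hbd⟩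
      obtain ⟨γ, hγ, rfl⟩ := (hK.mem b).1 hb
      rcases h3 ((A, α), γ) (hp2 _ _ hAα hγ) Fin.elim0 he with
        ⟨q, hq, k, hk, h6, h7, h8⟩ | ⟨p', hp', hn⟩
      · have h9 := hbd (Name.val U H (ordN _ (od k))) (by
          rw [ZFSet.mem_inter]
          refine ⟨(hmem k hk).2 ⟨q, hq, h7⟩, ?_⟩
          rw [(c3 α hα).2]
          exact (NA4_mem hK hnm _ hk).2 ⟨q, hq, h8⟩)
        exact absurd ((hK.lt _ _ hk hγ).1 h9) (not_lt.2 h6.le)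
      · obtain ⟨r, hr, hrp, hrq⟩ := hB.filt.dir p' hp' q₀ hq₀
        obtain ⟨s, hs, k, h6, h7, h8⟩ := (hRα r.down hrq γ).1
        exact hn ⟨s⟩ (le_trans (show (⟨s⟩ : PP P) ≤ r from hs) hrp) k ⟨h6, h7, h8⟩
    · rintro ⟨b, hb, hbd⟩
      obtain ⟨γ, hγ, rfl⟩ := (hK.mem b).1 hb
      rcases h4 ((A, α), γ) (hp2 _ _ hAα hγ) Fin.elim0 he with
        ⟨q, hq, k, hk, h6, h7, h8⟩ | ⟨p', hp', hn⟩
      · have h9 := hbd (Name.val U H (ordN _ (od k))) (by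
          rw [ZFSet.mem_sdiff]
          refine ⟨(hmem k hk).2 ⟨q, hq, h7⟩, ?_⟩
          rw [(c3 α hα).2]
          intro hcon
          obtain ⟨s, hs, hsc⟩ := (NA4_mem hK hnm _ hk).1 hcon
          obtain ⟨r, hr, hrq, hrs⟩ := hB.filt.dir q hq s hs
          exact h8 r.down hrq ((hS.reg α k).1 _ hsc _ hrs))
        exact absurd ((hK.lt _ _ hk hγ).1 h9) (not_lt.2 h6.le)
      · obtain ⟨r, hr, hrp, hrq⟩ := hB.filt.dir p' hp' q₀ hq₀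
        obtain ⟨s, hs, k, h6, h7, h8⟩ := (hRα r.down hrq γ).2
        exact hn ⟨s⟩ (le_trans (show (⟨s⟩ : PP P) ≤ r from hs) hrp) k ⟨h6, h7, h8⟩

end Pool.PU
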