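import Pool.Agent.Lib.MP_54c436_pu.ND
/-!
# PU, N-side, row N4: pseudo-intersections of families of clubs in the model
-/


set_option autoImplicit false
set_option linter.unusedSectionVars false
open Cardinal Set
namespace Pool.PU
open Pool.MP_3ade05_lc Pool.PC Pool.CF Pool.UL Pool.UT Pool.GE Pool.CN
variable {P : Type} [PartialOrder P] {κ : Cardinal.{0}} {S : Type} [LinearOrder S]
  [WellFoundedLT S] {c : S → KT κ → Set P}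
private lemma N4_mem {W : Type} [LinearOrder W] [WellFoundedLT W] {U : Set (Name (PP P))}
    {H : Set (PP P)} (hW : Wd W U H)
    (hm : ∀ (A : W → Set P) (x : ZFSet.{0}),
      x ∈ Name.val U H (nm A) ↔ ∃ a : W, tN (P := PP P) a ∈ U ∧ (∃ q ∈ H, q.down ∈ A a) ∧
        x = Name.val U H (ordN _ (od a))) (A : W → Set P) {a : W} (ha : tN (P := PP P) a ∈ U) :
    Name.val U H (ordN _ (od a)) ∈ Name.val U H (nm A) ↔ ∃ q ∈ H, q.down ∈ A a := by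
  rw [hm]
  constructor
  · rintro ⟨b, hb, h1, h2⟩
    rw [hW.inj a b ha hb h2]
    exact h1
  · intro h1
    exact ⟨a, ha, h1, rfl⟩

/-- Row N4.  For a function `f = val σ` on `S` whose values are clubs use the nice names
`C ξ = rs (KT κ) σ (od ξ)` (`Ev.rs_val`).  By genericity some `p ∈ H` satisfies the hypothesis of
`StrV.pint` for `C` (otherwise some `q ∈ H`, `ξ`, `γ` satisfy: no `r ≤ q` belongs to `C ξ k` for
any `k > γ`).  The operation `(σ, p) ↦ E ∈ RA (KT κ) P` given by `StrV.pint` (`Classical.choice`)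
gives an element of `U` (`Ev.opG`/`Ev.genT` with the answer `E`); `A = val (nm E)`.  `A` is
unbounded by genericity; for `ξ` take `r ∈ H` and `i₀` by genericity: if `δ ∈ A`, `i₀ < δ` then
`ap f ξ` is unbounded in `δ`, hence `δ ∈ ap f ξ` (`ClubV.closed`). -/
theorem Ev.pint (hκ : κ.IsRegular) (hS : StrV κ P S c) : Ev (P := PP P) (fun U H =>
    PInt (MM U H) (kp κ U H) (sp S U H)) := by
  classical
  have hsucc : ∀ i : KT κ, ∃ j : KT κ, i < j := by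
    intro i
    have h1 : Order.succ (od i) < ty (KT κ) := by
      rw [ty_KT]
      refine (Cardinal.isSuccLimit_ord hκ.aleph0_le).succ_lt ?_
      have h2 := od_lt_ty i
      rwa [ty_KT] at h2
    obtain ⟨j, hj⟩ := exists_od h1
    refine ⟨j, od_lt_iff.1 ?_⟩
    rw [hj]
    exact Order.lt_succ _
  choose nx hnx using hsucc
  have g1 := Ev.genT (P := PP P) (T := Unit) (T' := S × KT κ) 1
    (fun _ v q z => ∀ r ≤ q.down, ∀ k, z.2 < k → r ∉ (rs (KT κ) (v 0) (od z.1)).1 k)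
  have g2 := Ev.genT (P := PP P) (T := Unit) (T' := RA (KT κ) P) 1
    (fun _ v q A => (∀ q' ≤ q.down, ∀ γ, ∃ r ≤ q', ∃ k, γ < k ∧ r ∈ A.1 k) ∧
      ∀ ξ : S, ∀ q' ≤ q.down, ∃ r ≤ q', ∃ i₀, ∀ k, i₀ < k → ∀ r' ≤ r, r' ∈ A.1 k →
        ∀ i < k, ∀ s ≤ r', ∃ s' ≤ s, ∃ j, i < j ∧ j < k ∧
          s' ∈ (rs (KT κ) (v 0) (od ξ)).1 j)
  have g3 := Ev.genT (P := PP P) (T := RA (KT κ) P × KT κ) (T' := KT κ) 0
    (fun z _ q k => z.2 < k ∧ q.down ∈ z.1.1 k)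
  have g4 := Ev.genT (P := PP P) (T := S × RA (KT κ) P) (T' := KT κ) 1
    (fun z v q i₀ => ∀ k, i₀ < k → ∀ r' ≤ q.down, r' ∈ z.2.1 k → ∀ i < k, ∀ s ≤ r',
      ∃ s' ≤ s, ∃ j, i < j ∧ j < k ∧ s' ∈ (rs (KT κ) (v 0) (od z.1)).1 j)
  have g5 := Ev.genT (P := PP P) (T := (S × KT κ) × KT κ) (T' := KT κ) 1
    (fun z v q j => z.1.2 < j ∧ j < z.2 ∧ q.down ∈ (rs (KT κ) (v 0) (od z.1.1)).1 j)
  refine ((((Ev.base (P := PP P)).and (Ev.seed (P := PP P) (T := Unit) ())).and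
    ((Ev.wd (P := P) (KT κ)).and (Ev.wd (P := P) S))).and
    ((((Ev.mem_nm (P := P) (KT κ)).and (Ev.nm_iff (P := P) (KT κ))).and
      ((Ev.rs_val (P := P) (KT κ)).and (Ev.opT (P := PP P) (T := S × KT κ) (T' := S)
        Prod.fst))).and
    ((((Ev.opT (P := PP P) (T := S × KT κ) (T' := KT κ) Prod.snd).and
      (Ev.opT (P := PP P) (T := KT κ) (T' := KT κ) nx)).and
      ((Ev.pairT (P := PP P) (RA (KT κ) P) (KT κ)).and
        (Ev.pairT (P := PP P) S (RA (KT κ) P)))).and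
    (((Ev.pairT (P := PP P) S (KT κ)).and (Ev.pairT (P := PP P) (S × KT κ) (KT κ))).and
      ((g1.and g2).and (g3.and (g4.and g5))))))).mono ?_
  rintro U H ⟨⟨⟨hB, hunit⟩, hK, hSS⟩, ⟨⟨hm, hnm⟩, hrs, hfst⟩, ⟨⟨hsnd, hnxU⟩, hpr1, hpr2⟩,
    ⟨hpr3, hpr4⟩, ⟨h1, h2⟩, h3, h4, h5⟩
  intro f hf hfun hclub
  obtain ⟨σ, -, hσ, rfl⟩ := hf
  have hσv : ∀ i, (![σ] : Fin 1 → Name (PP P)) i ∈ U := by
    intro i
    fin_cases i
    exact hσ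
  -- the values of the function
  have hv : ∀ ξ : S, tN (P := PP P) ξ ∈ U →
      Name.val U H (nm (rs (KT κ) σ (od ξ)).1) =
        ap (Name.val U H σ) (Name.val U H (ordN _ (od ξ))) := by
    intro ξ hξ
    have hξo : ordN (PP P) (od ξ) ∈ U := (hSS.iff ξ).2 hξ
    have hx : Name.val U H (ordN _ (od ξ)) ∈ sp S U H := (hSS.mem _).2 ⟨ξ, hξ, rfl⟩
    refine (hrs σ hσ (od ξ) hξo).2 _ (FunOn.ap_mem hfun hx) (fun y' hy' => ?_) ?_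
    · exact ((FunOn.ap_eq hfun hx).1 hy').symm
    · exact (hclub _ hx).sub
  -- the hypothesis of `pint`
  obtain ⟨p, hp, hpn⟩ : ∃ p ∈ H, ∀ ξ : S, ∀ q ≤ p, ∀ γ : KT κ, ∃ r ≤ q.down, ∃ k, γ < k ∧
      r ∈ (rs (KT κ) σ (od ξ)).1 k := by
    rcases h1 () hunit ![σ] hσv with ⟨q, hq, z, hz, hR⟩ | ⟨p, hp, hn⟩
    · exfalso
      have hξ : tN (P := PP P) z.1 ∈ U := hfst z hz
      have hγ : tN (P := PP P) z.2 ∈ U := hsnd z hz
      have hx : Name.val U H (ordN _ (od z.1)) ∈ sp S U H := (hSS.mem _).2 ⟨z.1, hξ, rfl⟩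
      have hγk : Name.val U H (ordN _ (od z.2)) ∈ kp κ U H := (hK.mem _).2 ⟨z.2, hγ, rfl⟩
      obtain ⟨b, hb, hγb⟩ := (hclub _ hx).unb _ hγk
      obtain ⟨k, hk, rfl⟩ := (hK.mem b).1 ((hclub _ hx).sub hb)
      rw [← hv z.1 hξ, N4_mem hK hm _ hk] at hb
      obtain ⟨q', hq', hqk⟩ := hb
      obtain ⟨r, hr, hrq, hrq'⟩ := hB.filt.dir q hq q' hq'
      exact hR r.down hrq k ((hK.lt z.2 k hγ hk).1 hγb)
        (((rs (KT κ) σ (od z.1)).2 k).1 _ hqk _ hrq')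
    · refine ⟨p, hp, fun ξ q hq γ => ?_⟩
      by_contra hcon
      push Not at hcon
      exact hn q hq (ξ, γ) (fun r hr k hk => hcon r hr k hk)
  -- the pseudo-intersection
  obtain ⟨q, hq, A, hA, hAu, hAs⟩ : ∃ q ∈ H, ∃ A : RA (KT κ) P, tN (P := PP P) A ∈ U ∧
      (∀ q' ≤ q.down, ∀ γ, ∃ r ≤ q', ∃ k, γ < k ∧ r ∈ A.1 k) ∧
      ∀ ξ : S, ∀ q' ≤ q.down, ∃ r ≤ q', ∃ i₀, ∀ k, i₀ < k → ∀ r' ≤ r, r' ∈ A.1 k →
        ∀ i < k, ∀ s ≤ r', ∃ s' ≤ s, ∃ j, i < j ∧ j < k ∧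
          s' ∈ (rs (KT κ) σ (od ξ)).1 j := by
    rcases h2 () hunit ![σ] hσv with ⟨q, hq, A, hA, hR1, hR2⟩ | ⟨p', hp', hn⟩
    · exact ⟨q, hq, A, hA, hR1, hR2⟩
    · exfalso
      obtain ⟨p₀, _, hp1, hp2⟩ := hB.filt.dir p hp p' hp'
      obtain ⟨E, hE, hE1, hE2⟩ := hS.pint (fun ξ => (rs (KT κ) σ (od ξ)).1)
        (fun ξ k => (rs (KT κ) σ (od ξ)).2 k) p₀.down
        (fun ξ q hq γ => hpn ξ ⟨q⟩ (le_trans (show (⟨q⟩ : PP P) ≤ p₀ from hq) hp1) γ)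
      exact hn p₀ hp2 ⟨E, hE⟩ ⟨hE1, hE2⟩
  have hAU : nm A.1 ∈ U := (hnm A).2 hA
  have hAsub : Name.val U H (nm A.1) ⊆ kp κ U H := by
    intro x hx
    obtain ⟨a, ha, -, rfl⟩ := (hm _ _).1 hx
    exact (hK.mem _).2 ⟨a, ha, rfl⟩
  refine ⟨Name.val U H (nm A.1), mem_MM hAU, hAsub, ?_, ?_⟩
  · -- unbounded
    rintro ⟨b, hb, hb'⟩
    obtain ⟨γ, hγ, rfl⟩ := (hK.mem b).1 hb
    rcases h3 (A, γ) (hpr1 A γ hA hγ) Fin.elim0 (fun i => i.elim0) with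
      ⟨q', hq', k, hk, hk1, hk2⟩ | ⟨p', hp', hn⟩
    · have h6 := hb' _ ((N4_mem hK hm A.1 hk).2 ⟨q', hq', hk2⟩)
      exact absurd ((hK.lt k γ hk hγ).1 h6) (not_lt.2 hk1.le)
    · obtain ⟨r, hr, hrq, hrp⟩ := hB.filt.dir q hq p' hp'
      obtain ⟨r', hr', k, hk1, hk2⟩ := hAu r.down hrq γ
      exact hn ⟨r'⟩ (le_trans (show (⟨r'⟩ : PP P) ≤ r from hr') hrp) k ⟨hk1, hk2⟩
  · -- almost contained
    intro x hx
    obtain ⟨ξ, hξ, rfl⟩ := (hSS.mem x).1 hx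
    obtain ⟨r, hr, i₀, hi₀, hi⟩ : ∃ r ∈ H, ∃ i₀ : KT κ, tN (P := PP P) i₀ ∈ U ∧
        ∀ k, i₀ < k → ∀ r' ≤ r.down, r' ∈ A.1 k → ∀ i < k, ∀ s ≤ r',
          ∃ s' ≤ s, ∃ j, i < j ∧ j < k ∧ s' ∈ (rs (KT κ) σ (od ξ)).1 j := by
      rcases h4 (ξ, A) (hpr2 ξ A hξ hA) ![σ] hσv with ⟨r, hr, i₀, hi₀, hi⟩ | ⟨p', hp', hn⟩
      · exact ⟨r, hr, i₀, hi₀, hi⟩
      · exfalso
        obtain ⟨r, hr, hrq, hrp⟩ := hB.filt.dir q hq p' hp'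
        obtain ⟨r', hr', i₀, hi⟩ := hAs ξ r.down hrq
        exact hn ⟨r'⟩ (le_trans (show (⟨r'⟩ : PP P) ≤ r from hr') hrp) i₀ hi
    have hi₁ : tN (P := PP P) (nx i₀) ∈ U := hnxU i₀ hi₀
    refine ⟨Name.val U H (ordN _ (od (nx i₀))), (hK.mem _).2 ⟨_, hi₁, rfl⟩, fun y hy => ?_⟩
    obtain ⟨hyA, hyf⟩ := ZFSet.mem_sdiff.1 hy
    obtain ⟨k, hk, ⟨q', hq', hqk⟩, rfl⟩ := (hm _ _).1 hyA
    rw [hK.lt k _ hk hi₁]
    by_contra hlt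
    have hik : i₀ < k := (hnx i₀).trans_le (not_lt.1 hlt)
    refine hyf ((hclub _ hx).closed _ ((hK.mem _).2 ⟨k, hk, rfl⟩) ?_ ?_)
    · intro he
      have h6 := (hK.lt i₀ k hi₀ hk).2 hik
      rw [he] at h6
      exact ZFSet.notMem_empty _ h6
    · intro a ha
      have hak : a ∈ kp κ U H := by
        have h6 : Name.val U H (ordN (PP P) (od k)) ∈ kp κ U H := (hK.mem _).2 ⟨k, hk, rfl⟩
        exact (isOrdinal_val_ordN hB _).subset_of_mem h6 ha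
      obtain ⟨i, hiU, rfl⟩ := (hK.mem a).1 hak
      have hilt : i < k := (hK.lt i k hiU hk).1 ha
      rcases h5 ((ξ, i), k) (hpr4 (ξ, i) k (hpr3 ξ i hξ hiU) hk) ![σ] hσv with
        ⟨q₃, hq₃, j, hj, hij, hjk, hqj⟩ | ⟨p', hp', hn⟩
      · refine ⟨Name.val U H (ordN _ (od j)), ?_, (hK.lt j k hj hk).2 hjk,
          (hK.lt i j hiU hj).2 hij⟩
        rw [← hv ξ hξ]
        exact (N4_mem hK hm _ hj).2 ⟨q₃, hq₃, hqj⟩
      · exfalso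
        obtain ⟨r₁, hr₁, h6, h7⟩ := hB.filt.dir r hr q' hq'
        obtain ⟨r₂, hr₂, h8, h9⟩ := hB.filt.dir r₁ hr₁ p' hp'
        obtain ⟨s', hs', j, hij, hjk, hsj⟩ := hi k hik r₂.down (le_trans h8 h6)
          ((A.2 k).1 _ hqk _ (le_trans h8 h7)) i hilt r₂.down le_rfl
        exact hn ⟨s'⟩ (le_trans (show (⟨s'⟩ : PP P) ≤ r₂ from hs') h9) j ⟨hij, hjk, hsj⟩

end Pool.PU
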