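import Pool.Agent.Lib.MP_54c436_pu.ND
/-!
# PU, N-side, row N5: the model of the equality
-/


set_option autoImplicit false
set_option linter.unusedSectionVars false
open Cardinal Set
namespace Pool.PU
open Pool.MP_3ade05_lc Pool.PC Pool.CF Pool.UL Pool.UT Pool.GE Pool.CN
variable {P : Type} [PartialOrder P] {κ : Cardinal.{0}} {S : Type} [LinearOrder S]
  [WellFoundedLT S] {e : S → KT κ → Set P}
/-- Row N5a: the elements of `s` are covered by `k` (functions of the ground model,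
`Ev.gen_surj` with a relation which does not depend on the condition; compare
`Ev.del_cov` in `MP_cc7fb1_cn/NC5`). -/
theorem Ev.cov_s (hκ : ℵ₀ < κ) (hE : EqV κ P S e) : Ev (P := PP P) (fun U H =>
    ∀ b ∈ sp S U H, Cov (MM U H) (kp κ U H) b) := by
  refine (((Ev.base (P := PP P)).and ((Ev.wd (P := P) (KT κ)).and (Ev.wd (P := P) S))).and
    (Ev.ground_surj (P := PP P))).mono ?_
  rintro U H ⟨⟨hB, hK, hS⟩, hg⟩ b hb
  obtain ⟨a, ha, rfl⟩ := (hS.mem b).1 hb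
  have hcard : (ty (KT κ)).card = κ := by
    rw [ty_KT, card_ord]
  have hne : ty (KT κ) ≠ 0 := by
    intro h
    rw [h, Ordinal.card_zero] at hcard
    rw [← hcard] at hκ
    exact absurd hκ (not_lt.2 aleph0_pos.le)
  by_cases h0 : od a = 0
  · obtain ⟨f, hf, hfun, -⟩ := hg _ _ hK.ty_mem hK.ty_mem hne le_rfl
    refine ⟨f, hf, hfun, fun y hy => ?_⟩
    obtain ⟨β, hβ, -⟩ := (mem_val_ordN hB).1 hy
    rw [h0] at hβ
    exact absurd hβ not_lt_zero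
  · refine hg _ _ hK.ty_mem ((hS.iff a).2 ha) h0 ?_
    rw [hcard, card_od]
    exact hE.init a

/-- Row N5b (compare `Ev.PK` in `MP_cc7fb1_cn/NC9`). -/
theorem Ev.powLe (hE : EqV κ P S e) : Ev (P := PP P) (fun U H =>
    PowLe (MM U H) (kp κ U H) (sp S U H)) := by
  let φ : Name (PP P) := Name.mk S (fun a => oN (ordN _ (od a)) (nm (P := P)
    (W := KT κ) (e a))) (fun _ => ⊤)
  refine (((Ev.base (P := PP P)).and (Ev.parts (P := PP P))).and ((Ev.wd (P := P) S).and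
    ((Ev.mem_nm (P := P) (KT κ)).and ((Ev.rg_spec (P := P) (KT κ)).and
    ((Ev.opN (P := PP P) (fun a : S => nm (P := P) (W := KT κ) (e a))).and
    ((Ev.seedN (P := PP P) φ).and
    (Ev.genT (P := PP P) (T := RA (KT κ) P) (T' := S) 0
      (fun A _ q ζ => ∀ ξ, ∀ r ≤ q.down, (r ∈ A.1 ξ ↔ r ∈ e ζ ξ))))))))).mono ?_
  rintro U H ⟨⟨hBs, hparts⟩, hwd, hmem, hrg, hopB, hφ, hg1⟩
  obtain ⟨q₀, hq₀⟩ := hBs.filt.ne
  have hφmem : ∀ z, z ∈ Name.val U H φ ↔ ∃ a : S, tN (P := PP P) a ∈ U ∧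
      z = ZFSet.pair (Name.val U H (ordN _ (od a))) (Name.val U H (nm (P := P)
        (W := KT κ) (e a))) := by
    intro z
    rw [Name.mem_val]
    constructor
    · rintro ⟨(a : S), ha, _, e9⟩
      have ha' : oN (ordN _ (od a)) (nm (P := P) (W := KT κ) (e a)) ∈ U := ha
      obtain ⟨h1, h2⟩ := hparts _ _ ha'
      refine ⟨a, (hwd.iff a).1 h1, ?_⟩
      rw [← val_oN hBs h1 h2]
      exact e9
    · rintro ⟨a, ha, rfl⟩
      have h1 := (hwd.iff a).2 ha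
      have h2 := hopB a ha
      exact ⟨a, oN_mem hBs h1 h2, ⟨q₀, hq₀, trivial⟩, (val_oN hBs h1 h2).symm⟩
  refine ⟨Name.val U H φ, mem_MM hφ, ⟨?_, ?_⟩, ?_⟩
  · intro z hz
    obtain ⟨a, ha, rfl⟩ := (hφmem z).1 hz
    exact ⟨_, (hwd.mem _).2 ⟨a, ha, rfl⟩, _, rfl⟩
  · intro x hx
    obtain ⟨a, ha, rfl⟩ := (hwd.mem _).1 hx
    refine ⟨_, (hφmem _).2 ⟨a, ha, rfl⟩, ?_⟩
    intro y hy
    obtain ⟨b, hb, e9⟩ := (hφmem _).1 hy
    obtain ⟨e1, e2⟩ := ZFSet.pair_injective e9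
    have hab := hwd.inj a b ha hb e1
    subst hab
    exact e2
  · intro y hy hyk
    obtain ⟨τ, -, hτ, rfl⟩ := hy
    obtain ⟨hA, -, hval⟩ := hrg τ hτ
    have hval' := hval hyk
    rcases hg1 (rg (KT κ) τ) hA Fin.elim0 (fun i => i.elim0) with
      ⟨q, hq, ζ, hζ, hR⟩ | ⟨p, hp, hno⟩
    · refine ⟨Name.val U H (ordN _ (od ζ)), (hwd.mem _).2 ⟨ζ, hζ, rfl⟩,
        (hφmem _).2 ⟨ζ, hζ, ?_⟩⟩
      congr 1
      rw [← hval']
      ext x
      rw [hmem, hmem]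
      constructor
      · rintro ⟨a, ha, ⟨q', hq', hqA⟩, rfl⟩
        refine ⟨a, ha, ?_, rfl⟩
        obtain ⟨s, hs, hs1, hs2⟩ := hBs.filt.dir q hq q' hq'
        have hsA : s.down ∈ (rg (KT κ) τ).1 a :=
          ((rg (KT κ) τ).2 a).1 _ hqA _ (show s.down ≤ q'.down from hs2)
        exact ⟨s, hs, (hR a s.down (show s.down ≤ q.down from hs1)).1 hsA⟩
      · rintro ⟨a, ha, ⟨q', hq', hqB⟩, rfl⟩
        refine ⟨a, ha, ?_, rfl⟩
        obtain ⟨s, hs, hs1, hs2⟩ := hBs.filt.dir q hq q' hq'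
        exact ⟨s, hs, (hR a s.down (show s.down ≤ q.down from hs1)).2
          ((hE.reg ζ a).1 _ hqB _ (show s.down ≤ q'.down from hs2))⟩
    · exfalso
      obtain ⟨q, hq, ζ, hh⟩ := hE.sur (rg (KT κ) τ).1 (rg (KT κ) τ).2 p.down
      exact hno ⟨q⟩ (show (⟨q⟩ : PP P) ≤ p from hq) ζ hh

end Pool.PU
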