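import Pool.Agent.Lib.MP_54c436_pu.PDef
import Pool.Agent.Lib.MP_cc7fb1_ge.GDef

/-!
# PU, the T-part: inside a transitive model `E` of ZFC

`ap f x` is the value of the function `f` at `x`, `mkF F a` the function `x ↦ F x` on `a`;
definability is found by `inferInstance` (see `MP_9fc97b_ut/Dfn`, `Ops`, `Fun`, `Cho`, `Rec`).
-/

set_option autoImplicit false
set_option linter.unusedVariables false

open Set

namespace Pool.PU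

open Pool.MP_3ade05_lc Pool.PC Pool.UL Pool.UT Pool.GE

/-- `k` is a regular uncountable cardinal of `E`, closure points of functions are unbounded. -/
structure MC (E : Set ZFSet.{0}) (k : ZFSet.{0}) : Prop where
  trans : ∀ x ∈ E, ∀ y ∈ x, y ∈ E
  zfc : ZFCModel E
  card : InfCard E k
  om : ZFSet.omega ∈ k
  reg : ∀ a ∈ k, ∀ f ∈ E, FunOn f a → (∀ x ∈ a, ap f x ∈ k) → ∃ b ∈ k, ∀ x ∈ a, ap f x ∈ b
  clo : ∀ f ∈ E, FunOn f k → (∀ x ∈ k, ap f x ∈ k) → ∀ a ∈ k, ∃ d ∈ k, a ∈ d ∧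
    ∀ x ∈ d, ap f x ∈ d

/-- `u` is a normal ultrafilter on `k` in `E`, with `ap`. -/
structure NU (E : Set ZFSet.{0}) (k u : ZFSet.{0}) : Prop where
  mem : u ∈ E
  sub : ∀ A ∈ u, A ⊆ k
  up : ∀ A ∈ u, ∀ B ∈ E, B ⊆ k → A ⊆ B → B ∈ u
  empty : (∅ : ZFSet.{0}) ∉ u
  ultra : ∀ A ∈ E, A ⊆ k → A ∈ u ∨ k \ A ∈ u
  comp : ∀ a ∈ k, ∀ C ∈ E, FunOn C a → (∀ x ∈ a, ap C x ∈ u) →
    ZFSet.sep (fun y => ∀ x ∈ a, y ∈ ap C x) k ∈ u
  final : ∀ b ∈ k, ZFSet.sep (fun y => b ∈ y) k ∈ u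
  diag : ∀ C ∈ E, FunOn C k → (∀ x ∈ k, ap C x ∈ u) →
    ZFSet.sep (fun y => ∀ x ∈ y, y ∈ ap C x) k ∈ u

/-- `A` is bounded in `k`. -/
def Bd (k A : ZFSet.{0}) : Prop := ∃ b ∈ k, ∀ y ∈ A, y ∈ b

/-- `c` is a splitting family indexed by `s`. -/
structure Spl (E : Set ZFSet.{0}) (k s c : ZFSet.{0}) : Prop where
  mem : c ∈ E
  fn : FunOn c s
  sub : ∀ x ∈ s, ap c x ⊆ k
  spl : ∀ A ∈ E, A ⊆ k → ¬ Bd k A → ∃ x ∈ s, ¬ Bd k (A ∩ ap c x) ∧ ¬ Bd k (A \ ap c x)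

/-- Families of clubs indexed by `s` have pseudo-intersections. -/
def PInt (E : Set ZFSet.{0}) (k s : ZFSet.{0}) : Prop :=
  ∀ f ∈ E, FunOn f s → (∀ x ∈ s, ClubV E k (ap f x)) →
    ∃ A ∈ E, A ⊆ k ∧ ¬ Bd k A ∧ ∀ x ∈ s, Bd k (A \ ap f x)

/-! ### Definability instances -/

section

variable {E : Set ZFSet.{0}} {n : ℕ} [hT : TZ E]

instance Df.instBd {k a : (Fin n → ZFSet.{0}) → ZFSet.{0}} [hk : DfT E k] [ha : DfT E a] :
    Df E (fun v => Bd (k v) (a v)) := by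
  have ha1 := ha.up
  have h : Df E (fun v => ∃ b ∈ k v, ∀ y ∈ a v, y ∈ b) := inferInstance
  exact h

instance Df.instSmallV {k c : (Fin n → ZFSet.{0}) → ZFSet.{0}} [hk : DfT E k] [hc : DfT E c] :
    Df E (fun v => SmallV E (k v) (c v)) := by
  have hc1 := hc.up
  have h : Df E (fun v => ∃ a ∈ k v, Cov E a (c v)) := inferInstance
  exact h

instance Df.instClubV {k c : (Fin n → ZFSet.{0}) → ZFSet.{0}} [hk : DfT E k] [hc : DfT E c]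
    [hem : InE E (∅ : ZFSet.{0})] :
    Df E (fun v => ClubV E (k v) (c v)) := by
  have hk1 := hk.up
  have hc1 := hc.up
  have hc2 := hc1.up
  have h : Df E (fun v => c v ⊆ k v ∧ (∀ a ∈ k v, ∃ b ∈ c v, a ∈ b) ∧
    ∀ d ∈ k v, d ≠ ∅ → (∀ a ∈ d, ∃ b ∈ c v, b ∈ d ∧ a ∈ b) → d ∈ c v) := inferInstance
  exact h.congr fun v hv => ⟨fun h => ⟨hc.mem v hv, h.1, h.2.1, h.2.2⟩,
    fun h => ⟨h.sub, h.unb, h.closed⟩⟩

end

end Pool.PU
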