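import Pool.Agent.Lib.MP_54c436_pu.VI
import Pool.Agent.Lib.MP_54c436_pu.TDef
import Pool.Agent.Lib.MP_cc7fb1_cn.NA3
import Pool.Agent.Lib.MP_cc7fb1_cn.NA7
import Pool.Agent.Lib.MP_cc7fb1_cn.NA8
import Pool.Agent.Lib.MP_cc7fb1_cn.NB2
import Pool.Agent.Lib.MP_cc7fb1_cn.NB3

/-!
# PU, N-side: definitions of the names

The tools are those of `MP_cc7fb1_cn`: `Tl` (`Ev.genT`, `Ev.opG`, ...), `Df` (`od`, `ty`, `RA`,
`nm`, `rg`, `rs`, `fN`, `Wd`), `NA1`-`NA8` (`Ev.wd`, `Ev.mem_nm`, `Ev.nm_iff`, `Ev.rg_spec`,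
`Ev.incl`, `Ev.raC_val`, `Ev.raM_val`, `Ev.mem_fN`, `Ev.rs_val`, `Ev.rs_force`, `Ev.fN_up`),
`NB1` (`DirClosed.inter`), `NB2` (`Ev.short`), `NB3` (`Ev.inter_nm`).
-/

set_option autoImplicit false
set_option linter.unusedSectionVars false

open Cardinal Set

namespace Pool.PU

open Pool.MP_3ade05_lc Pool.PC Pool.CF Pool.UL Pool.UT Pool.GE Pool.CN

/-- The type of the ordinals below `κ`. -/
abbrev KT (κ : Cardinal.{0}) : Type := κ.ord.ToType

lemma ty_KT (κ : Cardinal.{0}) : ty (KT κ) = κ.ord := by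
  unfold ty
  exact Ordinal.type_toType _

variable {P : Type} [PartialOrder P]

/-- The cardinal `κ` of the model. -/
noncomputable abbrev kp (κ : Cardinal.{0}) (U : Set (Name (PP P))) (H : Set (PP P)) : ZFSet.{0} :=
  Name.val U H (ordN _ (ty (KT κ)))

/-- The index set `S` of the model. -/
noncomputable abbrev sp (S : Type) [LinearOrder S] [WellFoundedLT S] (U : Set (Name (PP P)))
    (H : Set (PP P)) : ZFSet.{0} :=
  Name.val U H (ordN _ (ty S))

/-- The ultrafilter as a function on nice names. -/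
def GG {κ : Cardinal.{0}} (G : (KT κ → Set P) → Set P) : RA (KT κ) P → Set P := fun A => G A.1

/-- The ultrafilter of the model. -/
noncomputable abbrev ug {κ : Cardinal.{0}} (G : (KT κ → Set P) → Set P) (U : Set (Name (PP P)))
    (H : Set (PP P)) : ZFSet.{0} :=
  Name.val U H (fN (GG G))

/-- The name of the function `α ↦ c α` on `S`. -/
noncomputable def cN {κ : Cardinal.{0}} {S : Type} [LinearOrder S] [WellFoundedLT S]
    (c : S → KT κ → Set P) : Name (PP P) :=
  Name.mk S (fun α => oN (ordN _ (od α)) (nm (c α))) (fun _ => ⊤)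

variable {κ : Cardinal.{0}} {G : (KT κ → Set P) → Set P}

lemma GG_nice (hC : Core κ P G) : Nice (GG G) :=
  ⟨fun A => hC.norm.reg A.1 A.2, fun A A' p hp h => hC.norm.up A.1 A'.1 A.2 A'.2 p hp h⟩

end Pool.PU
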