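import Pool.Agent.Lib.MP_54c436_pu.T1
import Pool.Agent.Lib.MP_cc7fb1_ge.GBas
import Pool.Agent.Lib.MP_9fc97b_ut.TB1
/-!
# PU, T-part, row T2: the strict inequality
-/


set_option autoImplicit false
set_option linter.unusedVariables false
set_option linter.unusedSectionVars false
open Set
namespace Pool.PU
open Pool.MP_3ade05_lc Pool.PC Pool.UL Pool.UT Pool.GE
variable {E : Set ZFSet.{0}} {k u s c : ZFSet.{0}}
/-- The elements of `k` are not maximal. -/
private lemma T2_lim (hM : MC E k) {a : ZFSet.{0}} (ha : a ∈ k) : ∃ b ∈ k, a ∈ b := by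
  have : TC E :=
    { trans := hM.trans
      zf := hM.zfc.toZFModel
      choice := hM.zfc.choice }
  have hkE : k ∈ E := hM.card.mem
  have hemk : (∅ : ZFSet.{0}) ∈ k := hM.card.inf ZFSet.omega_zero
  have h1k : (insert ∅ ∅ : ZFSet.{0}) ∈ k := hM.card.inf (ZFSet.omega_succ ZFSet.omega_zero)
  have : InE E a := ⟨hM.trans _ hkE _ ha⟩
  have : InE E (insert ∅ ∅ : ZFSet.{0}) := ⟨hM.trans _ hkE _ h1k⟩
  obtain ⟨b, hb, hb'⟩ := hM.reg _ h1k (mkF (fun _ => a) (insert ∅ ∅ : ZFSet.{0}))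
    (mem_of (E := E) (mkF (fun _ => a) (insert ∅ ∅ : ZFSet.{0}))) (FunOn_mkF _ _)
    (fun x hx => by rw [ap_mkF hx]; exact ha)
  have h0 : (∅ : ZFSet.{0}) ∈ (insert ∅ ∅ : ZFSet.{0}) := ZFSet.mem_insert_iff.2 (Or.inl rfl)
  have h2 := hb' _ h0
  rw [ap_mkF h0] at h2
  exact ⟨b, hb, h2⟩

/-- `k` is a club. -/
private lemma T2_club (hM : MC E k) : ClubV E k k where
  mem := hM.card.mem
  sub := fun x hx => hx
  unb := fun a ha => T2_lim hM ha
  closed := fun d hd _ _ => hd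

/-- Row T2.  `F` = the set of the `X ∈ u` such that `X = ap c α` or `X = k \ ap c α` for some
`α ∈ s`.  A pseudo-intersection `A` of `F` is unbounded, is split by some `ap c α`; as `ap c α` or
its complement is in `F` this is a contradiction.  If `G` is a family of clubs with `Cov E F G`
then `Cov E s G` (compose with `α ↦ ap c α` if this is in `u`, else `k \ ap c α`); let `h` be the
covering function, corrected by `ξ ↦ ap h ξ` if this is in `G`, else `k` (`k` is a club), and use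
`PInt`. -/
theorem plessV_of (hM : MC E k) (hs : s ∈ E) (hc : Spl E k s c) (hp : PInt E k s)
    (hu : NU E k u) : PLessV E k u := by
  have : TC E :=
    { trans := hM.trans
      zf := hM.zfc.toZFModel
      choice := hM.zfc.choice }
  have hkE : k ∈ E := hM.card.mem
  have : InE E k := ⟨hkE⟩
  have : InE E s := ⟨hs⟩
  have : InE E c := ⟨hc.mem⟩
  have : InE E u := ⟨hu.mem⟩
  have hFE : ZFSet.sep (fun X => ∃ α ∈ s, X = ap c α ∨ X = k \ ap c α) u ∈ E :=
    mem_of (E := E) (ZFSet.sep (fun X => ∃ α ∈ s, X = ap c α ∨ X = k \ ap c α) u)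
  obtain ⟨F, hF, hFm⟩ : ∃ F ∈ E, ∀ X, X ∈ F ↔ X ∈ u ∧ ∃ α ∈ s, X = ap c α ∨ X = k \ ap c α :=
    ⟨_, hFE, fun X => ZFSet.mem_sep⟩
  have : InE E F := ⟨hF⟩
  have hcE : ∀ α ∈ s, ap c α ∈ E := fun α hα => ap_memE hc.mem (hM.trans _ hs _ hα)
  refine ⟨F, hF, fun X hX => ((hFm X).1 hX).1, fun A hA => ?_, fun G hG hGc hcov => ?_⟩
  · have : InE E A := ⟨hA.mem⟩
    have h1 : ¬ Bd k A := fun h => hA.size ((smallV_iff hM hA.mem hA.sub).2 h)
    obtain ⟨α, hα, h2, h3⟩ := hc.spl A hA.mem hA.sub h1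
    have : InE E (ap c α) := ⟨hcE α hα⟩
    rcases hu.ultra _ (hcE α hα) (hc.sub α hα) with h4 | h4
    · have h5 := hA.almost _ ((hFm _).2 ⟨h4, α, hα, Or.inl rfl⟩)
      exact h3 ((smallV_iff hM (mem_of (E := E) (A \ ap c α))
        (fun x hx => hA.sub (ZFSet.mem_sdiff.1 hx).1)).1 h5)
    · have h5 := hA.almost _ ((hFm _).2 ⟨h4, α, hα, Or.inr rfl⟩)
      have h6 := (smallV_iff hM (mem_of (E := E) (A \ (k \ ap c α)))
        (fun x hx => hA.sub (ZFSet.mem_sdiff.1 hx).1)).1 h5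
      refine h2 (bd_mono h6 (fun y hy => ?_))
      obtain ⟨h7, h8⟩ := ZFSet.mem_inter.1 hy
      exact ZFSet.mem_sdiff.2 ⟨h7, fun h9 => (ZFSet.mem_sdiff.1 h9).2 h8⟩
  · obtain ⟨f, hf, hfF, hfG⟩ := hcov
    have : InE E f := ⟨hf⟩
    have : InE E G := ⟨hG⟩
    -- uniqueness of `X`
    have huq : ∀ α ∈ s, ∀ X ∈ F, ∀ Y ∈ F, (X = ap c α ∨ X = k \ ap c α) →
        (Y = ap c α ∨ Y = k \ ap c α) → X = Y := by
      intro α hα X hX Y hY h1 h2
      have h3 : ¬ (ap c α ∈ u ∧ k \ ap c α ∈ u) := by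
        rintro ⟨h4, h5⟩
        have h6 := NU.inter hM hu h4 h5
        have h7 : ap c α ∩ (k \ ap c α) = ∅ := by
          rw [ZFSet.eq_empty]
          intro y hy
          obtain ⟨h8, h9⟩ := ZFSet.mem_inter.1 hy
          exact (ZFSet.mem_sdiff.1 h9).2 h8
        rw [h7] at h6
        exact hu.empty h6
      have hXu := ((hFm X).1 hX).1
      have hYu := ((hFm Y).1 hY).1
      rcases h1 with rfl | rfl <;> rcases h2 with rfl | rfl
      · rfl
      · exact absurd ⟨hXu, hYu⟩ h3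
      · exact absurd ⟨hYu, hXu⟩ h3
      · rfl
    obtain ⟨h, hh, hhs, hhv⟩ := choose_fun (E := E)
      (fun ξ C => ∀ X ∈ F, (X = ap c ξ ∨ X = k \ ap c ξ) → ap f X ∈ G → C = ap f X) hs
      (mem_of (E := E) (insert k G)) (fun ξ hξ => by
        by_cases hX : ∃ X ∈ F, (X = ap c ξ ∨ X = k \ ap c ξ) ∧ ap f X ∈ G
        · obtain ⟨X, hX, h1, h2⟩ := hX
          refine ⟨ap f X, ZFSet.mem_insert_iff.2 (Or.inr h2), fun Y hY h3 _ => ?_⟩
          rw [huq ξ hξ X hX Y hY h1 h3]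
        · exact ⟨k, ZFSet.mem_insert_iff.2 (Or.inl rfl), fun Y hY h3 h4 =>
            absurd ⟨Y, hY, h3, h4⟩ hX⟩)
    have hcl : ∀ ξ ∈ s, ClubV E k (ap h ξ) := by
      intro ξ hξ
      rcases ZFSet.mem_insert_iff.1 (hhv ξ hξ).1 with h1 | h1
      · rw [h1]
        exact T2_club hM
      · exact hGc _ h1
    obtain ⟨A, hA, hAk, hAb, hAs⟩ := hp h hh hhs hcl
    have : InE E A := ⟨hA⟩
    refine ⟨A, hA, hAk, fun h1 => hAb ((smallV_iff hM hA hAk).1 h1), fun C hC => ?_⟩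
    have : InE E C := ⟨hM.trans _ hG _ hC⟩
    obtain ⟨X, hX, hXC⟩ := hfG C hC
    rw [FunOn.ap_eq hfF hX] at hXC
    obtain ⟨α, hα, h1⟩ := ((hFm X).1 hX).2
    have h2 : ap h α = ap f X := (hhv α hα).2 X hX h1 (by rw [hXC]; exact hC)
    refine (smallV_iff hM (mem_of (E := E) (A \ C)) (fun x hx =>
      hAk (ZFSet.mem_sdiff.1 hx).1)).2 ?_
    rw [← hXC, ← h2]
    exact hAs α hα

end Pool.PU
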