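import Pool.Agent.Lib.MP_54c436_pu.T1
/-!
# PU, T-part, row T4: small subfamilies of a normal ultrafilter
-/


set_option autoImplicit false
set_option linter.unusedVariables false
set_option linter.unusedSectionVars false
open Set
namespace Pool.PU
open Pool.MP_3ade05_lc Pool.PC Pool.UL Pool.UT Pool.GE
variable {E : Set ZFSet.{0}} {k u F : ZFSet.{0}}
private lemma T4_tc (hM : MC E k) : TC E where
  trans := hM.trans
  zf := hM.zfc.toZFModel
  choice := hM.zfc.choice

private lemma T4_nxt (hM : MC E k) {x : ZFSet.{0}} (hx : x ∈ k) : ∃ d ∈ k, x ∈ d := by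
  have := T4_tc hM
  have : InE E k := ⟨hM.card.mem⟩
  have hid : mkF (fun x => x) k ∈ E := mem_of (E := E) (mkF (fun x => x) k)
  obtain ⟨d, hd, hxd, _⟩ := hM.clo _ hid (FunOn_mkF _ _) (fun y hy => by
    rw [ap_mkF hy]; exact hy) x hx
  exact ⟨d, hd, hxd⟩

private lemma T4_kmem (hM : MC E k) (hu : NU E k u) : k ∈ u := by
  rcases hu.ultra k hM.card.mem (fun x hx => hx) with h | h
  · exact h
  · exfalso
    have e : k \ k = ∅ := by
      ext z
      rw [ZFSet.mem_sdiff]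
      exact ⟨fun h1 => absurd h1.1 h1.2, fun h1 => absurd h1 (ZFSet.notMem_empty z)⟩
    rw [e] at h
    exact hu.empty h

/-- Row T4.  `h` = covering function, corrected to `h' x = ap h x` if this is in `u`, else `k`;
the diagonal intersection of the `h' x` is in `u` (`NU.diag`), and it is a pseudo-intersection. -/
theorem exists_psInt (hM : MC E k) (hu : NU E k u) (hF : F ∈ E) (hFu : F ⊆ u) (hc : Cov E k F) :
    ∃ A, PsIntV E k F A := by
  have := T4_tc hM
  have hkE : k ∈ E := hM.card.mem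
  have : InE E k := ⟨hkE⟩
  have : InE E u := ⟨hu.mem⟩
  obtain ⟨f, hfE, hf, hcov⟩ := hc
  have : InE E f := ⟨hfE⟩
  obtain ⟨C, hC⟩ : ∃ C, C = mkF (fun x => ZFSet.sep (fun y => ap f x ∈ u → y ∈ ap f x) k) k :=
    ⟨_, rfl⟩
  have hCE : C ∈ E := by
    rw [hC]
    exact mem_of (E := E) (mkF (fun x => ZFSet.sep (fun y => ap f x ∈ u → y ∈ ap f x) k) k)
  have hCf : FunOn C k := by rw [hC]; exact FunOn_mkF _ _
  have hap : ∀ x ∈ k, ap C x = ZFSet.sep (fun y => ap f x ∈ u → y ∈ ap f x) k := by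
    intro x hx
    rw [hC, ap_mkF hx]
  have hCu : ∀ x ∈ k, ap C x ∈ u := by
    intro x hx
    rw [hap x hx]
    by_cases h : ap f x ∈ u
    · have e : ZFSet.sep (fun y => ap f x ∈ u → y ∈ ap f x) k = ap f x := by
        ext z
        rw [ZFSet.mem_sep]
        exact ⟨fun h1 => h1.2 h, fun h1 => ⟨hu.sub _ h h1, fun _ => h1⟩⟩
      rw [e]
      exact h
    · have e : ZFSet.sep (fun y => ap f x ∈ u → y ∈ ap f x) k = k := by
        ext z
        rw [ZFSet.mem_sep]
        exact ⟨fun h1 => h1.1, fun h1 => ⟨h1, fun h2 => absurd h2 h⟩⟩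
      rw [e]
      exact T4_kmem hM hu
  have hA := hu.diag C hCE hCf hCu
  obtain ⟨A, hAe⟩ : ∃ A, A = ZFSet.sep (fun y => ∀ x ∈ y, y ∈ ap C x) k := ⟨_, rfl⟩
  rw [← hAe] at hA
  have hAE : A ∈ E := hM.trans u hu.mem A hA
  have hAk : A ⊆ k := hu.sub A hA
  refine ⟨A, hAE, hAk, ?_, ?_⟩
  · rw [smallV_iff hM hAE hAk]
    exact NU.not_bd hM hu hA
  · intro X hX
    have hXE : X ∈ E := hM.trans F hF X hX
    have : InE E A := ⟨hAE⟩
    have : InE E X := ⟨hXE⟩
    have hd : A \ X ∈ E := mem_of (E := E) (A \ X)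
    have hs : A \ X ⊆ k := fun z hz => hAk (ZFSet.mem_sdiff.1 hz).1
    rw [smallV_iff hM hd hs]
    obtain ⟨x, hx, hxX⟩ := hcov X hX
    have hapx : ap f x = X := (FunOn.ap_eq hf hx).1 hxX
    obtain ⟨d, hdk, hxd⟩ := T4_nxt hM hx
    refine ⟨d, hdk, fun y hy => ?_⟩
    obtain ⟨hyA, hyX⟩ := ZFSet.mem_sdiff.1 hy
    have hyk : y ∈ k := hAk hyA
    have hxo := hM.card.ord.mem hx
    have hyo := hM.card.ord.mem hyk
    have hdo := hM.card.ord.mem hdk
    rcases hxo.mem_trichotomous hyo with h | h | h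
    · exfalso
      rw [hAe, ZFSet.mem_sep] at hyA
      have h1 := hyA.2 x h
      rw [hap x hx, ZFSet.mem_sep, hapx] at h1
      exact hyX (h1.2 (hFu hX))
    · exact h ▸ hxd
    · exact hdo.subset_of_mem hxd h

end Pool.PU
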