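import Pool.Agent.Lib.MP_54c436_pu.T1
/-!
# PU, T-part, row T5: the family of all clubs has no pseudo-intersection
-/


set_option autoImplicit false
set_option linter.unusedVariables false
set_option linter.unusedSectionVars false
open Set
namespace Pool.PU
open Pool.MP_3ade05_lc Pool.PC Pool.UL Pool.UT Pool.GE
variable {E : Set ZFSet.{0}} {k s : ZFSet.{0}}
/-- Row T5.  `G` = the set of all clubs in `E`.  Let `A` be a pseudo-intersection, so `A` is
unbounded; `g i` = the least element of `A` greater than `i`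
(`⋃₀ {y ∈ A | i ∈ y ∧ ∀ z ∈ y, z ∈ A → i ∉ z}`), `D` = the set of the nonempty `d ∈ k` closed under
`g`; `D` is a club (`MC.clo`).  Then `A \ D` is bounded by some `b`; `g b ∈ A` and `b ∈ g b`, hence
`g b ∈ D` and `g b ∈ g b`. -/
theorem all_clubs (hM : MC E k) (hs : s ∈ E) (hP : PowLe E k s) :
    ∃ G ∈ E, (∀ C ∈ G, ClubV E k C) ∧ Cov E s G ∧ ∀ A, ¬ PsIntV E k G A := by
  have : TC E := { trans := hM.trans, zf := hM.zfc.toZFModel, choice := hM.zfc.choice }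
  have hkE : k ∈ E := hM.card.mem
  have hko : k.IsOrdinal := hM.card.ord
  have : InE E k := ⟨hkE⟩
  have : InE E s := ⟨hs⟩
  have : InE E ZFSet.omega := ⟨hM.trans k hkE _ hM.om⟩
  have : InE E (∅ : ZFSet.{0}) := InE.of_mem (hM.trans k hkE _ hM.om) ZFSet.omega_zero
  refine ⟨ZFSet.sep (fun C => ClubV E k C) (pw E k), ?_, ?_, ?_, ?_⟩
  · exact sep (E := E) (fun C => ClubV E k C) (pw_mem hkE)
  · intro C hC
    exact (ZFSet.mem_sep.1 hC).2
  · obtain ⟨f, hf, hfs, h⟩ := hP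
    refine ⟨f, hf, hfs, fun y hy => ?_⟩
    obtain ⟨h1, h2⟩ := mem_pw.1 (ZFSet.mem_sep.1 hy).1
    exact h y h1 h2
  · intro A hA
    have : InE E A := ⟨hA.mem⟩
    have hub : ¬ Bd k A := fun hb => hA.size ((smallV_iff hM hA.mem hA.sub).2 hb)
    have hg : ∀ x ∈ k, ∃ y ∈ A, x ∈ y := by
      intro x hx
      obtain ⟨d, hd, hxd, -⟩ := hM.clo (mkF (fun y => y) k)
        (mkF_mem (E := E) (fun y => y) hkE fun y hy => hM.trans k hkE y hy) (FunOn_mkF _ k)
        (fun y hy => by rw [ap_mkF hy]; exact hy) x hx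
      by_contra hne
      push Not at hne
      refine hub ⟨d, hd, fun y hy => ?_⟩
      have hyk : y ∈ k := hA.sub hy
      rcases ZFSet.IsOrdinal.mem_trichotomous (hko.mem hyk) (hko.mem hd) with h3 | h3 | h3
      · exact h3
      · rw [h3] at hy
        exact absurd hxd (hne d hy)
      · exact absurd ((hko.mem hyk).mem_trans hxd h3) (hne y hy)
    obtain ⟨f, hf, hfk, hfA⟩ := choose_fun (E := E) (fun x y => x ∈ y) hkE hA.mem hg
    have : InE E f := ⟨hf⟩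
    have hfk' : ∀ x ∈ k, ap f x ∈ k := fun x hx => hA.sub (hfA x hx).1
    set D := ZFSet.sep (fun d => d ≠ ∅ ∧ ∀ x ∈ d, ap f x ∈ d) k with hD
    have hDE : D ∈ E := sep (E := E) (fun d => d ≠ ∅ ∧ ∀ x ∈ d, ap f x ∈ d) hkE
    have hDk : D ⊆ k := fun x hx => (ZFSet.mem_sep.1 hx).1
    have hDc : ClubV E k D := by
      refine ⟨hDE, hDk, fun a ha => ?_, fun d hd hd0 h => ?_⟩
      · obtain ⟨d, hd, had, h⟩ := hM.clo f hf hfk hfk' a ha
        refine ⟨d, ZFSet.mem_sep.2 ⟨hd, ?_, h⟩, had⟩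
        rintro rfl
        exact ZFSet.notMem_empty _ had
      · refine ZFSet.mem_sep.2 ⟨hd, hd0, fun x hx => ?_⟩
        obtain ⟨b, hb, hbd, hxb⟩ := h x hx
        exact (hko.mem hd).mem_trans ((ZFSet.mem_sep.1 hb).2.2 x hxb) hbd
    have hDG : D ∈ ZFSet.sep (fun C => ClubV E k C) (pw E k) :=
      ZFSet.mem_sep.2 ⟨mem_pw.2 ⟨hDE, hDk⟩, hDc⟩
    obtain ⟨b, hb, hbA⟩ := (smallV_iff hM (diff_mem hA.mem hDE)
      (fun x hx => hA.sub (ZFSet.mem_sdiff.1 hx).1)).1 (hA.almost D hDG)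
    obtain ⟨h1, h2⟩ := hfA b hb
    by_cases hgD : ap f b ∈ D
    · exact ZFSet.mem_irrefl _ ((ZFSet.mem_sep.1 hgD).2.2 b h2)
    · exact ZFSet.mem_asymm h2 (hbA _ (ZFSet.mem_sdiff.2 ⟨h1, hgD⟩))

end Pool.PU
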