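import Pool.Agent.Lib.MP_54c436_pu.T3
import Pool.Agent.Lib.MP_54c436_pu.T4
import Pool.Agent.Lib.MP_54c436_pu.T5

/-!
# PU, T-part: the equality
-/

set_option autoImplicit false
set_option linter.unusedVariables false
set_option linter.unusedSectionVars false

open Set

namespace Pool.PU

open Pool.MP_3ade05_lc Pool.PC Pool.UL Pool.UT Pool.GE

variable {E : Set ZFSet.{0}} {k u s : ZFSet.{0}}

theorem not_plessV_of (hM : MC E k) (hs : s ∈ E) (ho : s.IsOrdinal) (hb : ∀ b ∈ s, Cov E k b)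
    (hP : PowLe E k s) (hu : NU E k u) : ¬ PLessV E k u := by
  haveI : TZ E := ⟨hM.trans, hM.zfc.toZFModel⟩
  rintro ⟨F, hF, hFu, h1, h2⟩
  by_cases hc : Cov E k F
  · obtain ⟨A, hA⟩ := exists_psInt hM hu hF hFu hc
    exact h1 A hA
  · obtain ⟨G, hG, hcl, hsG, hn⟩ := all_clubs hM hs hP
    obtain ⟨A, hA⟩ := h2 G hG hcl (cov_trans hF hsG (cov_of_not_cov hM hs ho hb hF hc))
    exact hn A hA

end Pool.PU
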