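import Pool.Agent.Lib.MP_54c436_pu.N1
import Pool.Agent.Lib.MP_54c436_pu.N2
import Pool.Agent.Lib.MP_54c436_pu.N3
import Pool.Agent.Lib.MP_54c436_pu.N4
import Pool.Agent.Lib.MP_54c436_pu.N5
import Pool.Agent.Lib.MP_54c436_pu.T2
import Pool.Agent.Lib.MP_54c436_pu.T6

/-!
# PU: the models
-/

set_option autoImplicit false
set_option linter.unusedSectionVars false

open Cardinal Set

namespace Pool.PU

open Pool.MP_3ade05_lc Pool.PC Pool.CF Pool.UL Pool.UT Pool.GE Pool.CN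

/-- The model of the strict inequality. -/
theorem exists_strict {P : Type} [PartialOrder P] {κ : Cardinal.{0}}
    {G : (KT κ → Set P) → Set P} {S : Type} [LinearOrder S] [WellFoundedLT S]
    {c : S → KT κ → Set P} (hC : Core κ P G) (hS : StrV κ P S c) :
    ∃ V : Set ZFSet.{0}, V.Countable ∧ (∀ x ∈ V, ∀ y ∈ x, y ∈ V) ∧ ZFCModel V ∧
      ∃ k : ZFSet.{0}, InfCard V k ∧ ZFSet.omega ∈ k ∧ (∃ u, NormalUFV V k u) ∧
        ∀ u, NormalUFV V k u → PLessV V k u := by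
  obtain ⟨p₀⟩ := hC.ne
  obtain ⟨U, H, hU, hH, -, ⟨⟨h1, h2⟩, h3, h4⟩, h5⟩ :=
    ((((Ev.mc hC).and (Ev.nu hC)).and ((Ev.spl hC.reg hS).and (Ev.pint hC.reg hS))).and
      (Ev.wd (P := P) S)).exists_hull (⟨p₀⟩ : PP P)
  exact ⟨MM U H, MM_countable hU, h1.trans, h1.zfc, kp κ U H, h1.card, h1.om,
    ⟨_, (normalUFV_iff h1).2 h2⟩, fun u hu =>
      plessV_of h1 (mem_MM h5.ty_mem) h3 h4 ((normalUFV_iff h1).1 hu)⟩

/-- The model of the equality. -/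
theorem exists_equal {P : Type} [PartialOrder P] {κ : Cardinal.{0}}
    {G : (KT κ → Set P) → Set P} {S : Type} [LinearOrder S] [WellFoundedLT S]
    {e : S → KT κ → Set P} (hC : Core κ P G) (hE : EqV κ P S e) :
    ∃ V : Set ZFSet.{0}, V.Countable ∧ (∀ x ∈ V, ∀ y ∈ x, y ∈ V) ∧ ZFCModel V ∧
      ∃ k : ZFSet.{0}, InfCard V k ∧ ZFSet.omega ∈ k ∧ (∃ u, NormalUFV V k u) ∧
        ∀ u, NormalUFV V k u → ¬ PLessV V k u := by
  obtain ⟨p₀⟩ := hC.ne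
  obtain ⟨U, H, hU, hH, -, ⟨⟨h1, h2⟩, h3, h4⟩, h5, h6⟩ :=
    ((((Ev.mc hC).and (Ev.nu hC)).and ((Ev.cov_s hC.unc hE).and (Ev.powLe hE))).and
      ((Ev.wd (P := P) S).and (Ev.base (P := PP P)))).exists_hull (⟨p₀⟩ : PP P)
  exact ⟨MM U H, MM_countable hU, h1.trans, h1.zfc, kp κ U H, h1.card, h1.om,
    ⟨_, (normalUFV_iff h1).2 h2⟩, fun u hu =>
      not_plessV_of h1 (mem_MM h5.ty_mem) (isOrdinal_val_ordN h6 _) h3 h4
        ((normalUFV_iff h1).1 hu)⟩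

end Pool.PU
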