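import Pool.Agent.Lib.MP_9fc97b_ut.Setting

/-!
# MP_54c436: definitions used in the final statement

Everything is about a transitive model `V` of `ZFC`; `FunOn`, `InfCard` are those of
`Pool/Agent/Lib/MP_ad72f3_pc/Pat.lean`; `Cov V a C` says that in `V` there is a function with
domain `a` whose range contains `C`.
-/

set_option autoImplicit false

open Set

namespace Pool.PU

open Pool.MP_3ade05_lc Pool.PC Pool.UL

/-- In `V`, the set `A` has size `< k`. -/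
def SmallV (V : Set ZFSet.{0}) (k A : ZFSet.{0}) : Prop := ∃ a ∈ k, Cov V a A

/-- `C` is a club subset of `k` in `V`. -/
structure ClubV (V : Set ZFSet.{0}) (k C : ZFSet.{0}) : Prop where
  mem : C ∈ V
  sub : C ⊆ k
  unb : ∀ a ∈ k, ∃ b ∈ C, a ∈ b
  closed : ∀ d ∈ k, d ≠ ∅ → (∀ a ∈ d, ∃ b ∈ C, b ∈ d ∧ a ∈ b) → d ∈ C

/-- In `V`, the set `A` is a pseudo-intersection of size `k` of the family `F`. -/
structure PsIntV (V : Set ZFSet.{0}) (k F A : ZFSet.{0}) : Prop where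
  mem : A ∈ V
  sub : A ⊆ k
  size : ¬ SmallV V k A
  almost : ∀ X ∈ F, SmallV V k (A \ X)

/-- `V` satisfies: `u` is a normal ultrafilter on `k`. -/
structure NormalUFV (V : Set ZFSet.{0}) (k u : ZFSet.{0}) : Prop where
  mem : u ∈ V
  sub : ∀ A ∈ u, A ⊆ k
  up : ∀ A ∈ u, ∀ B ∈ V, B ⊆ k → A ⊆ B → B ∈ u
  ultra : ∀ A ∈ V, A ⊆ k → (A ∈ u ↔ k \ A ∉ u)
  nonprincipal : ∀ a ∈ k, ({a} : ZFSet.{0}) ∉ u
  complete : ∀ a ∈ k, ∀ C ∈ V, FunOn C a → (∀ x B, ZFSet.pair x B ∈ C → B ∈ u) →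
    ZFSet.sep (fun z => ∀ x B, ZFSet.pair x B ∈ C → z ∈ B) k ∈ u
  normal : ∀ C ∈ V, FunOn C k → (∀ x B, ZFSet.pair x B ∈ C → B ∈ u) →
    ZFSet.sep (fun z => ∀ x ∈ z, ∀ B, ZFSet.pair x B ∈ C → z ∈ B) k ∈ u

/-- `V` satisfies `𝔭_u < 𝔭_cl(k)`: there is a family `F` of members of `u` without
pseudo-intersection of size `k`, such that every family of club subsets of `k` which is not larger
than `F` has a pseudo-intersection of size `k`. -/
def PLessV (V : Set ZFSet.{0}) (k u : ZFSet.{0}) : Prop :=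
  ∃ F ∈ V, F ⊆ u ∧ (∀ A, ¬ PsIntV V k F A) ∧
    ∀ G ∈ V, (∀ C ∈ G, ClubV V k C) → Cov V F G → ∃ A, PsIntV V k G A

end Pool.PU
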