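import Pool.Agent.Lib.MP_54c436_pu.VD
import Pool.Agent.Lib.MP_54c436_pu.VG
/-!
# PU, V-side, row VA4: predense sets of size `κ`
-/


set_option autoImplicit false
set_option linter.unusedSectionVars false
open Cardinal Set
namespace Pool.PU
variable {K S T : Type} [LinearOrder K] [WellFoundedLT K] [LinearOrder T] [WellFoundedLT T]
/-- The support of a condition. -/
def Cnd.supp (p : Cnd K S T) : Set T := {t | (∃ k, p.st t k ≠ none) ∨ ∃ n, (t, n) ∈ p.pr}

/-- The union of two conditions. -/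
def VA4un (p q : Cnd K S T) : Cnd K S T :=
  ⟨fun α k => (p.c α k).or (q.c α k), fun t k => (p.st t k).or (q.st t k), p.pr ∪ q.pr⟩

private lemma VA4_le {p q : Cnd K S T}
    (hst : ∀ t ∈ p.supp, t ∈ q.supp → ∀ k, p.st t k = q.st t k) : Cle (VA4un p q) p := by
  refine ⟨fun α k b h => ?_, fun t k b h => ?_, subset_union_left, fun x hx k b h1 h2 => ?_⟩
  · show (p.c α k).or (q.c α k) = some b
    rw [h]
    rfl
  · show (p.st t k).or (q.st t k) = some b
    rw [h]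
    rfl
  · have h3 : (p.st x.1 k).or (q.st x.1 k) = some b := h2
    rw [h1] at h3
    have h4 : q.st x.1 k = some b := h3
    have h5 := hst x.1 (Or.inr ⟨x.2, hx⟩) (Or.inl ⟨k, by rw [h4]; simp⟩) k
    rw [h1, h4] at h5
    exact absurd h5 (by simp)

/-- Row VA4a: compatibility.  The union `(p.c ∪ q.c, p.st ∪ q.st, p.pr ∪ q.pr)`; there are no new
entries in the stems of the promises. -/
theorem compat (hK : ℵ₀ ≤ #K) (p q : Fo K S T)
    (hc : ∀ α k b b', p.1.c α k = some b → q.1.c α k = some b' → b = b')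
    (hst : ∀ t ∈ p.1.supp, t ∈ q.1.supp → ∀ k, p.1.st t k = q.1.st t k) :
    ∃ r : Fo K S T, r ≤ p ∧ r ≤ q := by
  have hor : ∀ {β : Type} {a b : Option β}, a.or b ≠ none → a ≠ none ∨ b ≠ none := by
    intro β a b h
    cases a with
    | none => exact Or.inr h
    | some a => exact Or.inl (by simp)
  have hsw : VA4un p.1 q.1 = VA4un q.1 p.1 := by
    refine Cnd.ext ?_ ?_ (union_comm _ _)
    · funext α k
      show (p.1.c α k).or (q.1.c α k) = (q.1.c α k).or (p.1.c α k)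
      cases h1 : p.1.c α k with
      | none => cases h2 : q.1.c α k <;> rfl
      | some b =>
        cases h2 : q.1.c α k with
        | none => rfl
        | some b' =>
          rw [hc α k b b' h1 h2]
    · funext t k
      show (p.1.st t k).or (q.1.st t k) = (q.1.st t k).or (p.1.st t k)
      cases h1 : p.1.st t k with
      | none => cases h2 : q.1.st t k <;> rfl
      | some b =>
        cases h2 : q.1.st t k with
        | none => rfl
        | some b' =>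
          have h3 := hst t (Or.inl ⟨k, by rw [h1]; simp⟩) (Or.inl ⟨k, by rw [h2]; simp⟩) k
          rw [h1, h2] at h3
          rw [h3]
  have hleg : Leg (VA4un p.1 q.1) := by
    refine ⟨⟨?_, ?_, ?_⟩, ?_⟩
    · refine lt_of_le_of_lt (mk_le_mk_of_subset
        (t := {x : S × K | p.1.c x.1 x.2 ≠ none} ∪ {x : S × K | q.1.c x.1 x.2 ≠ none})
        fun x hx => hor hx) ?_
      exact (mk_union_le _ _).trans_lt (add_lt_of_lt hK p.2.small.c q.2.small.c)
    · refine lt_of_le_of_lt (mk_le_mk_of_subset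
        (t := {x : T × K | p.1.st x.1 x.2 ≠ none} ∪ {x : T × K | q.1.st x.1 x.2 ≠ none})
        fun x hx => hor hx) ?_
      exact (mk_union_le _ _).trans_lt (add_lt_of_lt hK p.2.small.st q.2.small.st)
    · exact (mk_union_le _ _).trans_lt (add_lt_of_lt hK p.2.small.pr q.2.small.pr)
    · rintro x (hx | hx)
      · exact p.2.pr x hx
      · exact q.2.pr x hx
  refine ⟨⟨VA4un p.1 q.1, hleg⟩, VA4_le hst, ?_⟩
  show Cle (VA4un p.1 q.1) q.1
  rw [hsw]
  exact VA4_le fun t h1 h2 k => (hst t h2 h1 k).symm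

/-- Entries. -/
abbrev VA4E (K S T : Type) : Type := (S × K × Bool) ⊕ ((T × K × K) ⊕ T)

/-- The entries of a condition. -/
def VA4ent (p : Cnd K S T) : Set (VA4E K S T) :=
  {e | (∃ α k b, e = Sum.inl (α, k, b) ∧ p.c α k = some b) ∨
    (∃ t k w, e = Sum.inr (Sum.inl (t, k, w)) ∧ p.st t k = some w) ∨
    ∃ t, e = Sum.inr (Sum.inr t) ∧ t ∈ p.supp}

private lemma VA4_c {p : Cnd K S T} {α : S} {k : K} {b : Bool} :
    (Sum.inl (α, k, b) : VA4E K S T) ∈ VA4ent p ↔ p.c α k = some b := by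
  constructor
  · rintro (⟨α', k', b', h1, h2⟩ | ⟨t, k', w, h1, _⟩ | ⟨t, h1, _⟩)
    · obtain ⟨rfl, rfl, rfl⟩ : α = α' ∧ k = k' ∧ b = b' := by
        have h3 := Sum.inl.inj h1
        exact ⟨congrArg Prod.fst h3, congrArg (fun z => z.2.1) h3, congrArg (fun z => z.2.2) h3⟩
      exact h2
    · exact absurd h1 (by simp)
    · exact absurd h1 (by simp)
  · intro h
    exact Or.inl ⟨α, k, b, rfl, h⟩

private lemma VA4_st {p : Cnd K S T} {t : T} {k w : K} :
    (Sum.inr (Sum.inl (t, k, w)) : VA4E K S T) ∈ VA4ent p ↔ p.st t k = some w := by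
  constructor
  · rintro (⟨α', k', b', h1, _⟩ | ⟨t', k', w', h1, h2⟩ | ⟨t', h1, _⟩)
    · exact absurd h1 (by simp)
    · obtain ⟨rfl, rfl, rfl⟩ : t = t' ∧ k = k' ∧ w = w' := by
        have h3 := Sum.inl.inj (Sum.inr.inj h1)
        exact ⟨congrArg Prod.fst h3, congrArg (fun z => z.2.1) h3, congrArg (fun z => z.2.2) h3⟩
      exact h2
    · exact absurd h1 (by simp)
  · intro h
    exact Or.inr (Or.inl ⟨t, k, w, rfl, h⟩)

private lemma VA4_t {p : Cnd K S T} {t : T} :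
    (Sum.inr (Sum.inr t) : VA4E K S T) ∈ VA4ent p ↔ t ∈ p.supp := by
  constructor
  · rintro (⟨α', k', b', h1, _⟩ | ⟨t', k', w', h1, h2⟩ | ⟨t', h1, h2⟩)
    · exact absurd h1 (by simp)
    · exact absurd h1 (by simp)
    · obtain rfl := Sum.inr.inj (Sum.inr.inj h1)
      exact h2
  · intro h
    exact Or.inr (Or.inr ⟨t, rfl, h⟩)

/-- The support of a condition is small. -/
theorem VA4_supp (hK : ℵ₀ ≤ #K) {p : Cnd K S T} (h : p.Small) : #p.supp < #K := by
  refine lt_of_le_of_lt (mk_le_mk_of_subset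
    (t := Prod.fst '' {x : T × K | p.st x.1 x.2 ≠ none} ∪ Prod.fst '' p.pr) ?_) ?_
  · rintro t (⟨k, hk⟩ | ⟨n, hn⟩)
    · exact Or.inl ⟨(t, k), hk, rfl⟩
    · exact Or.inr ⟨(t, n), hn, rfl⟩
  · exact (mk_union_le _ _).trans_lt (add_lt_of_lt hK (mk_image_le.trans_lt h.st)
      (mk_image_le.trans_lt h.pr))

/-- The Cohen coordinates. -/
def VA4cs (p : Cnd K S T) : Set S := {α | ∃ k, p.c α k ≠ none}

private lemma VA4_cs {p : Cnd K S T} (h : p.Small) : #(VA4cs p) < #K := by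
  refine lt_of_le_of_lt (mk_le_mk_of_subset
    (t := Prod.fst '' {x : S × K | p.c x.1 x.2 ≠ none}) ?_) (mk_image_le.trans_lt h.c)
  rintro α ⟨k, hk⟩
  exact ⟨(α, k), hk, rfl⟩

private lemma VA4_ent (hK : ℵ₀ ≤ #K) {p : Cnd K S T} (h : p.Small) : #(VA4ent p) < #K := by
  refine lt_of_le_of_lt (mk_le_mk_of_subset
    (t := (fun x : S × K => (Sum.inl (x.1, x.2, (p.c x.1 x.2).getD true) : VA4E K S T)) ''
        {x : S × K | p.c x.1 x.2 ≠ none} ∪
      ((fun x : T × K => (Sum.inr (Sum.inl (x.1, x.2, (p.st x.1 x.2).getD x.2)) : VA4E K S T)) ''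
        {x : T × K | p.st x.1 x.2 ≠ none} ∪
      (fun t : T => (Sum.inr (Sum.inr t) : VA4E K S T)) '' p.supp)) ?_) ?_
  · rintro e (⟨α, k, b, rfl, h1⟩ | ⟨t, k, w, rfl, h1⟩ | ⟨t, rfl, h1⟩)
    · exact Or.inl ⟨(α, k), by simp [h1], by simp [h1]⟩
    · exact Or.inr (Or.inl ⟨(t, k), by simp [h1], by simp [h1]⟩)
    · exact Or.inr (Or.inr ⟨t, h1, rfl⟩)
  · refine (mk_union_le _ _).trans_lt (add_lt_of_lt hK (mk_image_le.trans_lt h.c) ?_)
    exact (mk_union_le _ _).trans_lt (add_lt_of_lt hK (mk_image_le.trans_lt h.st)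
      (mk_image_le.trans_lt (VA4_supp hK h)))

/-- All entries with given coordinates. -/
def VA4full (A : Set S) (B : Set T) : Set (VA4E K S T) :=
  {e | (∃ α k b, e = Sum.inl (α, k, b) ∧ α ∈ A) ∨
    (∃ t k w, e = Sum.inr (Sum.inl (t, k, w)) ∧ t ∈ B) ∨ ∃ t, e = Sum.inr (Sum.inr t) ∧ t ∈ B}

private lemma VA4_full (hK : ℵ₀ ≤ #K) {A : Set S} {B : Set T} (hA : #A < #K) (hB : #B < #K) :
    #(VA4full A B : Set (VA4E K S T)) ≤ #K := by
  refine (mk_le_mk_of_subset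
    (t := range (fun x : A × K × Bool => (Sum.inl (x.1.1, x.2.1, x.2.2) : VA4E K S T)) ∪
      (range (fun x : B × K × K => (Sum.inr (Sum.inl (x.1.1, x.2.1, x.2.2)) : VA4E K S T)) ∪
      range (fun t : B => (Sum.inr (Sum.inr t.1) : VA4E K S T)))) ?_).trans ?_
  · rintro e (⟨α, k, b, rfl, h1⟩ | ⟨t, k, w, rfl, h1⟩ | ⟨t, rfl, h1⟩)
    · exact Or.inl ⟨(⟨α, h1⟩, k, b), rfl⟩
    · exact Or.inr (Or.inl ⟨(⟨t, h1⟩, k, w), rfl⟩)
    · exact Or.inr (Or.inr ⟨⟨t, h1⟩, rfl⟩)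
  · have h1 : #(A × K × Bool) ≤ #K := by
      simp only [mk_prod, lift_id]
      refine (mul_le_mul' hA.le (mul_le_mul' le_rfl
        ((mk_fintype Bool).le.trans ((Cardinal.natCast_lt_aleph0).le.trans hK)))).trans ?_
      rw [mul_eq_self hK, mul_eq_self hK]
    have h2 : #(B × K × K) ≤ #K := by
      simp only [mk_prod, lift_id]
      refine (mul_le_mul' hB.le le_rfl).trans ?_
      rw [mul_eq_self hK, mul_eq_self hK]
    refine (mk_union_le _ _).trans ?_
    rw [← add_eq_self hK]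
    refine add_le_add (mk_range_le.trans h1) ((mk_union_le _ _).trans ?_)
    rw [← add_eq_self hK]
    exact add_le_add (mk_range_le.trans h2) (mk_range_le.trans hB.le)

/-- The small set `τ` of entries fits `a`. -/
def VA4fit (τ : Set (VA4E K S T)) (a : Cnd K S T) : Prop :=
  (∀ α k b, Sum.inl (α, k, b) ∈ τ → a.c α k = some b) ∧
    ∀ t, Sum.inr (Sum.inr t) ∈ τ → ∀ k w, (a.st t k = some w ↔ Sum.inr (Sum.inl (t, k, w)) ∈ τ)

/-- The Cohen coordinates of a set of entries. -/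
def VA4cS (τ : Set (VA4E K S T)) : Set S := {α | ∃ k b, Sum.inl (α, k, b) ∈ τ}

/-- The stages of a set of entries. -/
def VA4cT (τ : Set (VA4E K S T)) : Set T :=
  {t | (∃ k w, Sum.inr (Sum.inl (t, k, w)) ∈ τ) ∨ Sum.inr (Sum.inr t) ∈ τ}

private lemma VA4_cS {τ : Set (VA4E K S T)} (h : #τ < #K) : #(VA4cS τ) < #K := by
  refine lt_of_le_of_lt ?_ h
  have h1 : ∀ α : VA4cS τ, ∃ e : τ, ∃ k b, e.1 = Sum.inl (α.1, k, b) := by
    rintro ⟨α, k, b, h2⟩
    exact ⟨⟨_, h2⟩, k, b, rfl⟩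
  choose f k b hf using h1
  refine mk_le_of_injective (f := f) fun α β e => ?_
  have h2 := (hf α).symm.trans ((congrArg Subtype.val e).trans (hf β))
  exact Subtype.ext (congrArg Prod.fst (Sum.inl.inj h2))

private lemma VA4_cT {τ : Set (VA4E K S T)} (h : #τ < #K) : #(VA4cT τ) < #K := by
  refine lt_of_le_of_lt ?_ h
  have h1 : ∀ t : VA4cT τ, ∃ e : τ, (∃ k w, e.1 = Sum.inr (Sum.inl (t.1, k, w))) ∨
      e.1 = Sum.inr (Sum.inr t.1) := by
    rintro ⟨t, ⟨k, w, h2⟩ | h2⟩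
    · exact ⟨⟨_, h2⟩, Or.inl ⟨k, w, rfl⟩⟩
    · exact ⟨⟨_, h2⟩, Or.inr rfl⟩
  choose f hf using h1
  refine mk_le_of_injective (f := f) fun s t e => Subtype.ext ?_
  have e' := congrArg Subtype.val e
  rcases hf s with ⟨k, w, h2⟩ | h2 <;> rcases hf t with ⟨k', w', h3⟩ | h3 <;>
    rw [h2, h3] at e'
  · exact congrArg Prod.fst (Sum.inl.inj (Sum.inr.inj e'))
  · exact absurd e' (by simp)
  · exact absurd e' (by simp)
  · exact Sum.inr.inj (Sum.inr.inj e')

/-- Row VA4b.  Entries: `E = (S × K × Bool) ⊕ (T × K × K) ⊕ T`; `ent p` = the set of the entries of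
`p` (`(α, k, b)` with `c α k = some b`, `(t, k, w)` with `st t k = some w`, `t ∈ supp p`).  A small
set `τ` of entries fits `a` if `a.c α k = some b` for all `(α, k, b) ∈ τ` and for all `t ∈ τ`
`a.st t k = some w ↔ (t, k, w) ∈ τ`.  For each small `τ` choose `a τ ∈ D` which fits, if possible.
`Y` = a set of at most `#K` entries closed under `τ ↦` all entries with coordinates in `a τ` or in
`τ` (`exists_closed`); `A = {a τ | τ ⊆ Y small}` (`mk_small_subsets`).  For `p` take `r ≤ p` in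
`D`, `τ = ent r ∩ Y`; then `r` and `a τ` are compatible (`compat`). -/
theorem predense (hreg : (#K).IsRegular) (hsl : ∀ c < #K, 2 ^ c < #K) (D : Set (Fo K S T))
    (hD : ∀ p, ∃ q ≤ p, q ∈ D) :
    ∃ A ⊆ D, #A ≤ #K ∧ ∀ p, ∃ a ∈ A, ∃ r ≤ p, r ≤ a := by
  classical
  have hK := hreg.aleph0_le
  let g : Set (VA4E K S T) → Set (VA4E K S T) := fun τ => VA4full (VA4cS τ) (VA4cT τ) ∪
    (if h : ∃ a ∈ D, VA4fit τ a.1 then VA4full (VA4cs h.choose.1) h.choose.1.supp else ∅)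
  obtain ⟨Y, hY, hcl⟩ := exists_closed hreg hsl g (by
    intro τ hτ
    refine (mk_union_le _ _).trans ?_
    rw [← add_eq_self hK]
    refine add_le_add (VA4_full hK (VA4_cS hτ) (VA4_cT hτ)) ?_
    split_ifs with h
    · exact VA4_full hK (VA4_cs h.choose.2.small) (VA4_supp hK h.choose.2.small)
    · rw [mk_eq_zero]
      exact zero_le)
  have hsat : ∀ t, Sum.inr (Sum.inr t) ∈ Y → ∀ k w, Sum.inr (Sum.inl (t, k, w)) ∈ Y := by
    intro t ht k w
    refine hcl {Sum.inr (Sum.inr t)} (singleton_subset_iff.2 ht) ?_ (Or.inl (Or.inr (Or.inl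
      ⟨t, k, w, rfl, Or.inr rfl⟩)))
    rw [mk_singleton]
    exact one_lt_aleph0.trans_le hK
  let A : Set (Fo K S T) := {a | ∃ τ : Set (VA4E K S T), (τ ⊆ Y ∧ #τ < #K) ∧
    ∃ h : ∃ a ∈ D, VA4fit τ a.1, a = h.choose}
  refine ⟨A, ?_, ?_, ?_⟩
  · rintro a ⟨τ, -, h, rfl⟩
    exact h.choose_spec.1
  · refine le_trans ?_ (mk_small_subsets hreg hsl Y hY)
    have h1 : ∀ a : A, ∃ τ : {τ : Set (VA4E K S T) // τ ⊆ Y ∧ #τ < #K},
        ∃ h : ∃ a ∈ D, VA4fit τ.1 a.1, a.1 = h.choose := by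
      rintro ⟨a, τ, h2, h3⟩
      exact ⟨⟨τ, h2⟩, h3⟩
    choose f hf e using h1
    refine mk_le_of_injective (f := f) fun a b hab => Subtype.ext ?_
    rw [e a, e b]
    congr 1
    funext x
    rw [hab]
  · intro p
    obtain ⟨r, hr, hrD⟩ := hD p
    set τ : Set (VA4E K S T) := VA4ent r.1 ∩ Y with hτ
    have hτc : #τ < #K := lt_of_le_of_lt (mk_le_mk_of_subset inter_subset_left)
      (VA4_ent hK r.2.small)
    have h : ∃ a ∈ D, VA4fit τ a.1 := by
      refine ⟨r, hrD, fun α k b h1 => VA4_c.1 h1.1, fun t ht k w => ?_⟩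
      exact ⟨fun h1 => ⟨VA4_st.2 h1, hsat t ht.2 k w⟩, fun h1 => VA4_st.1 h1.1⟩
    have hsub : VA4full (VA4cs h.choose.1) h.choose.1.supp ⊆ Y := by
      refine subset_trans ?_ (hcl τ inter_subset_right hτc)
      show _ ⊆ VA4full (VA4cS τ) (VA4cT τ) ∪ _
      rw [dif_pos h]
      exact subset_union_right
    obtain ⟨h1, h2, h3⟩ := h.choose_spec
    obtain ⟨s, hs1, hs2⟩ := compat hK h.choose r (by
      intro α k b b' hb hb'
      have h4 : (Sum.inl (α, k, b') : VA4E K S T) ∈ τ :=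
        ⟨VA4_c.2 hb', hsub (Or.inl ⟨α, k, b', rfl, k, by rw [hb]; simp⟩)⟩
      have h5 := h2 α k b' h4
      rw [hb] at h5
      exact Option.some_injective _ h5) (by
      intro t ht ht' k
      have h4 : (Sum.inr (Sum.inr t) : VA4E K S T) ∈ τ :=
        ⟨VA4_t.2 ht', hsub (Or.inr (Or.inr ⟨t, rfl, ht⟩))⟩
      refine Option.ext fun w => ?_
      have h5 := h3 t h4 k w
      refine h5.trans ⟨fun h6 => VA4_st.1 h6.1, fun h6 => ⟨VA4_st.2 h6, hsat t h4.2 k w⟩⟩)
    exact ⟨h.choose, ⟨τ, ⟨inter_subset_right, hτc⟩, h, rfl⟩, s, hs2.trans hr, hs1⟩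

end Pool.PU
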