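import Pool.Agent.Lib.MP_54c436_pu.VD
/-!
# PU, V-side, row VA7: the automorphisms
-/


set_option autoImplicit false
set_option linter.unusedSectionVars false
open Cardinal Set
namespace Pool.PU
variable {K S T : Type}
section
variable [LinearOrder K]
open Classical in
/-- The flip of a Cohen part at the coordinate `α`, above `γ`. -/
noncomputable def flc (α : S) (γ : K) (c : S → K → Option Bool) : S → K → Option Bool :=
  fun β k => if β = α ∧ γ ≤ k then (c β k).map (fun b => !b) else c β k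

/-- The flip of a name. -/
noncomputable def fln (α : S) (γ : K) : Nm K S T → Nm K S T
  | .idn => .idn
  | .mk raw v tg ch => .mk (fun i j => ⟨flc α γ (raw i j).c, (raw i j).st⟩) v tg
    (fun i j l => match tg i j l with
      | none => ch i j l
      | some _ => fln α γ (ch i j l))

/-- The flip of a condition. -/
noncomputable def flp (α : S) (γ : K) (p : Cnd K S T) : Cnd K S T :=
  ⟨flc α γ p.c, p.st, {x | (x.1, fln α γ x.2) ∈ p.pr}⟩

/-- The Cohen coordinates used in a name. -/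
def Nm.hs : Nm K S T → Set S
  | .idn => ∅
  | .mk raw _ tg ch => {α | (∃ i j k, (raw i j).c α k ≠ none) ∨
    ∃ i j l, tg i j l ≠ none ∧ α ∈ (ch i j l).hs}

/-- The Cohen coordinates used in a condition. -/
def Cnd.hs (p : Cnd K S T) : Set S :=
  {α | (∃ k, p.c α k ≠ none) ∨ ∃ x ∈ p.pr, α ∈ x.2.hs}

end
section
variable [LinearOrder K] (α : S) (γ : K)
private lemma VA7_flc_pos (c : S → K → Option Bool) {β : S} {k : K} (h : β = α ∧ γ ≤ k) :
    flc α γ c β k = (c β k).map (fun b => !b) := if_pos h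

private lemma VA7_flc_neg (c : S → K → Option Bool) {β : S} {k : K} (h : ¬ (β = α ∧ γ ≤ k)) :
    flc α γ c β k = c β k := if_neg h

/-- Row VA7a. -/
theorem flc_flc (c : S → K → Option Bool) : flc α γ (flc α γ c) = c := by
  funext β k
  by_cases h : β = α ∧ γ ≤ k
  · rw [VA7_flc_pos α γ _ h, VA7_flc_pos α γ _ h]
    cases c β k with
    | none => rfl
    | some b => simp
  · rw [VA7_flc_neg α γ _ h, VA7_flc_neg α γ _ h]

private lemma VA7_fln_mk (raw : K → K → Raw K S T) (v : K → K → K) (tg : K → K → K → Option T)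
    (ch : K → K → K → Nm K S T) : fln α γ (.mk raw v tg ch) =
    .mk (fun i j => ⟨flc α γ (raw i j).c, (raw i j).st⟩) v tg
      (fun i j l => match tg i j l with
        | none => ch i j l
        | some _ => fln α γ (ch i j l)) := rfl

theorem fln_fln (n : Nm K S T) : fln α γ (fln α γ n) = n := by
  induction n with
  | idn => rfl
  | mk raw v tg ch ih =>
    rw [VA7_fln_mk, VA7_fln_mk]
    congr 1
    · funext i j
      rw [flc_flc]
    · funext i j l
      cases tg i j l with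
      | none => rfl
      | some t => exact ih i j l

theorem flp_flp (p : Cnd K S T) : flp α γ (flp α γ p) = p := by
  refine Cnd.ext (flc_flc α γ p.c) rfl ?_
  ext x
  show (x.1, fln α γ (fln α γ x.2)) ∈ p.pr ↔ x ∈ p.pr
  rw [fln_fln]

private lemma VA7_flc_eq (c : S → K → Option Bool) (h : ∀ k, c α k = none) : flc α γ c = c := by
  funext β k
  by_cases h1 : β = α ∧ γ ≤ k
  · rw [VA7_flc_pos α γ _ h1, h1.1, h k]
    rfl
  · rw [VA7_flc_neg α γ _ h1]

theorem fln_cnd (n : Nm K S T) (i j : K) : (fln α γ n).cnd i j = flp α γ (n.cnd i j) := by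
  cases n with
  | idn =>
    refine Cnd.ext (VA7_flc_eq α γ _ fun k => rfl).symm rfl ?_
    ext x
    exact Iff.rfl
  | mk raw v tg ch =>
    refine Cnd.ext rfl rfl ?_
    ext x
    show (∃ l, tg i j l = some x.1 ∧ x.2 = (match tg i j l with
        | none => ch i j l
        | some _ => fln α γ (ch i j l))) ↔
      ∃ l, tg i j l = some x.1 ∧ fln α γ x.2 = ch i j l
    refine exists_congr fun l => and_congr_right fun h => ?_
    rw [h]
    show x.2 = fln α γ (ch i j l) ↔ _
    constructor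
    · intro h1
      rw [h1, fln_fln]
    · intro h1
      rw [← h1, fln_fln]

theorem fln_val (n : Nm K S T) (i j : K) : (fln α γ n).val i j = n.val i j := by
  cases n with
  | idn => rfl
  | mk raw v tg ch => rfl

theorem fln_eq (n : Nm K S T) (h : α ∉ n.hs) : fln α γ n = n := by
  induction n with
  | idn => rfl
  | mk raw v tg ch ih =>
    have h' : ¬ ((∃ i j k, (raw i j).c α k ≠ none) ∨
      ∃ i j l, tg i j l ≠ none ∧ α ∈ (ch i j l).hs) := h
    rw [VA7_fln_mk]
    congr 1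
    · funext i j
      have h1 : flc α γ (raw i j).c = (raw i j).c := by
        refine VA7_flc_eq α γ _ fun k => ?_
        by_contra hk
        exact h' (Or.inl ⟨i, j, k, hk⟩)
      rw [h1]
    · funext i j l
      cases htg : tg i j l with
      | none => rfl
      | some t =>
        refine ih i j l fun h1 => ?_
        exact h' (Or.inr ⟨i, j, l, by rw [htg]; simp, h1⟩)

theorem flp_eq (p : Cnd K S T) (h : α ∉ p.hs) : flp α γ p = p := by
  have h' : ¬ ((∃ k, p.c α k ≠ none) ∨ ∃ x ∈ p.pr, α ∈ x.2.hs) := h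
  refine Cnd.ext (VA7_flc_eq α γ _ fun k => ?_) rfl ?_
  · by_contra hk
    exact h' (Or.inl ⟨k, hk⟩)
  · ext x
    show (x.1, fln α γ x.2) ∈ p.pr ↔ x ∈ p.pr
    constructor
    · intro h1
      have h2 := fln_eq α γ (fln α γ x.2) fun h2 => h' (Or.inr ⟨_, h1, h2⟩)
      rw [fln_fln] at h2
      rw [← h2] at h1
      exact h1
    · intro h1
      rw [fln_eq α γ x.2 fun h2 => h' (Or.inr ⟨_, h1, h2⟩)]
      exact h1

variable [LinearOrder T]
theorem flp_res (p : Cnd K S T) (t : T) : flp α γ (p.res t) = (flp α γ p).res t := rfl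

private lemma VA7_flc_mono {c c' : S → K → Option Bool}
    (h : ∀ β k b, c' β k = some b → c β k = some b) (β : S) (k : K) (b : Bool)
    (h1 : flc α γ c' β k = some b) : flc α γ c β k = some b := by
  by_cases h2 : β = α ∧ γ ≤ k
  · rw [VA7_flc_pos α γ _ h2, Option.map_eq_some_iff] at h1
    obtain ⟨b', h3, h4⟩ := h1
    rw [VA7_flc_pos α γ _ h2, h β k b' h3, ← h4]
    rfl
  · rw [VA7_flc_neg α γ _ h2] at h1
    rw [VA7_flc_neg α γ _ h2]
    exact h β k b h1

private lemma VA7_cle_of {q p : Cnd K S T}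
    (hp : ∀ x ∈ p.pr, ∀ (q : Cnd K S T) (i w : K), Frc x.2 q i w →
      Frc (fln α γ x.2) (flp α γ q) i w) (h : Cle q p) : Cle (flp α γ q) (flp α γ p) := by
  refine ⟨VA7_flc_mono α γ h.c, h.st, fun x hx => h.pr hx, fun x hx k b h1 h2 => ?_⟩
  have h3 := hp _ hx _ _ _ (h.new _ hx k b h1 h2)
  rw [fln_fln, flp_res] at h3
  exact h3

/-- Row VA7b. By induction (`Nm.ind`). -/
theorem frc_flp (n : Nm K S T) (q : Cnd K S T) (i w : K) (h : Frc n q i w) :
    Frc (fln α γ n) (flp α γ q) i w := by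
  induction n using Nm.ind generalizing q i w with
  | h n ih =>
    obtain ⟨j, h1, h2⟩ := (frc_iff n q i w).1 h
    refine (frc_iff _ _ _ _).2 ⟨j, ?_, ?_⟩
    · rw [fln_val]
      exact h1
    · rw [fln_cnd]
      exact VA7_cle_of α γ (fun x hx q' i' w' => ih i j x hx q' i' w') h2

theorem cle_flp {q p : Cnd K S T} (h : Cle q p) : Cle (flp α γ q) (flp α γ p) :=
  VA7_cle_of α γ (fun x _ => frc_flp α γ x.2) h

variable [WellFoundedLT T]
private lemma VA7_small {p : Cnd K S T} (h : p.Small) : (flp α γ p).Small := by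
  refine ⟨?_, h.st, ?_⟩
  · refine lt_of_le_of_lt (mk_le_mk_of_subset ?_) h.c
    intro x hx hn
    apply hx
    show flc α γ p.c x.1 x.2 = none
    by_cases h2 : x.1 = α ∧ γ ≤ x.2
    · rw [VA7_flc_pos α γ _ h2, hn]
      rfl
    · rw [VA7_flc_neg α γ _ h2, hn]
  · refine lt_of_le_of_lt ?_ h.pr
    refine mk_le_of_injective (f := fun x : (flp α γ p).pr =>
      (⟨(x.1.1, fln α γ x.1.2), x.2⟩ : p.pr)) ?_
    intro x y hxy
    have h1 : (x.1.1, fln α γ x.1.2) = (y.1.1, fln α γ y.1.2) := congrArg Subtype.val hxy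
    obtain ⟨h2, h3⟩ := Prod.ext_iff.1 h1
    refine Subtype.ext (Prod.ext h2 ?_)
    have h4 : fln α γ x.1.2 = fln α γ y.1.2 := h3
    rw [← fln_fln α γ x.1.2, h4, fln_fln]

/-- By well-founded induction on `t`. -/
theorem legN_flp (t : T) (n : Nm K S T) (h : LegN t n) : LegN t (fln α γ n) := by
  induction t using (wellFounded_lt (α := T)).induction generalizing n with
  | _ t ih =>
    have key : ∀ p : Cnd K S T, Stg LegN t p → Stg LegN t (flp α γ p) := by
      intro p hp
      refine ⟨VA7_small α γ hp.small, hp.st, fun x hx => ?_⟩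
      obtain ⟨h1, h2⟩ := hp.pr _ hx
      refine ⟨h1, ?_⟩
      have h3 := ih x.1 h1 _ h2
      rw [fln_fln] at h3
      exact h3
    rw [legN_iff] at h ⊢
    refine ⟨fun i j => ?_, fun i q hq => ?_⟩
    · rw [fln_cnd]
      exact key _ (h.mem i j)
    · obtain ⟨j, r, hr, h1, h2⟩ := h.dense i _ (key q hq)
      refine ⟨j, flp α γ r, key r hr, ?_, ?_⟩
      · have h3 := cle_flp α γ h1
        rw [flp_flp] at h3
        exact h3
      · rw [fln_cnd]
        exact cle_flp α γ h2

theorem leg_flp {p : Cnd K S T} (h : Leg p) : Leg (flp α γ p) := by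
  refine ⟨VA7_small α γ h.small, fun x hx => ?_⟩
  have h1 := legN_flp α γ _ _ (h.pr _ hx)
  rw [fln_fln] at h1
  exact h1

omit [LinearOrder K] [LinearOrder T] [WellFoundedLT T] in
private lemma VA7_mem_hs (α : S) (n : Nm K S T) : α ∈ n.hs ↔ ∃ i j, α ∈ (n.cnd i j).hs := by
  cases n with
  | idn =>
    constructor
    · intro h
      exact absurd h (notMem_empty α)
    · rintro ⟨i, j, ⟨k, h⟩ | ⟨x, hx, h⟩⟩
      · exact absurd rfl h
      · exact absurd hx (notMem_empty x)
  | mk raw v tg ch =>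
    show ((∃ i j k, (raw i j).c α k ≠ none) ∨
      ∃ i j l, tg i j l ≠ none ∧ α ∈ (ch i j l).hs) ↔ ∃ i j, ((∃ k, (raw i j).c α k ≠ none) ∨
        ∃ x : T × Nm K S T, (∃ l, tg i j l = some x.1 ∧ x.2 = ch i j l) ∧ α ∈ x.2.hs)
    constructor
    · rintro (⟨i, j, k, h⟩ | ⟨i, j, l, h, h1⟩)
      · exact ⟨i, j, Or.inl ⟨k, h⟩⟩
      · obtain ⟨t, ht⟩ := Option.ne_none_iff_exists'.1 h
        exact ⟨i, j, Or.inr ⟨(t, ch i j l), ⟨l, ht, rfl⟩, h1⟩⟩
    · rintro ⟨i, j, ⟨k, h⟩ | ⟨x, ⟨l, h, h1⟩, h2⟩⟩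
      · exact Or.inl ⟨i, j, k, h⟩
      · refine Or.inr ⟨i, j, l, by rw [h]; simp, ?_⟩
        rw [← h1]
        exact h2

private lemma VA7_mk_hs (hK : ℵ₀ ≤ #K) {p : Cnd K S T} (h : p.Small)
    (h1 : ∀ x ∈ p.pr, #x.2.hs ≤ #K) : #p.hs ≤ #K := by
  have h2 : p.hs ⊆ (Prod.fst '' {x : S × K | p.c x.1 x.2 ≠ none}) ∪ ⋃ x : p.pr, x.1.2.hs := by
    rintro α (⟨k, hk⟩ | ⟨x, hx, hα⟩)
    · exact Or.inl ⟨(α, k), hk, rfl⟩
    · exact Or.inr (mem_iUnion.2 ⟨⟨x, hx⟩, hα⟩)
  refine (mk_le_mk_of_subset h2).trans ((mk_union_le _ _).trans ?_)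
  refine add_le_of_le hK (mk_image_le.trans h.c.le) ?_
  refine (mk_iUnion_le_sum_mk).trans ((sum_le_sum (fun x : p.pr => #x.1.2.hs) (fun _ => #K)
    fun x => h1 x.1 x.2).trans ?_)
  rw [sum_const']
  exact mul_le_of_le hK h.pr.le le_rfl

/-- Row VA7c: by well-founded induction on `t` the name `n` of stage `t` uses at most `#K`
coordinates. -/
theorem mk_hs_nm (hK : ℵ₀ ≤ #K) (t : T) (n : Nm K S T) (h : LegN t n) : #n.hs ≤ #K := by
  induction t using (wellFounded_lt (α := T)).induction generalizing n with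
  | _ t ih =>
    rw [legN_iff] at h
    have h1 : n.hs = ⋃ x : K × K, (n.cnd x.1 x.2).hs := by
      ext α
      rw [VA7_mem_hs, mem_iUnion]
      constructor
      · rintro ⟨i, j, h⟩
        exact ⟨(i, j), h⟩
      · rintro ⟨x, h⟩
        exact ⟨x.1, x.2, h⟩
    rw [h1]
    have h2 : ∀ x : K × K, #(n.cnd x.1 x.2).hs ≤ #K := fun x =>
      VA7_mk_hs hK (h.mem x.1 x.2).small fun y hy =>
        ih y.1 ((h.mem x.1 x.2).pr y hy).1 _ ((h.mem x.1 x.2).pr y hy).2
    refine (mk_iUnion_le_sum_mk).trans ((sum_le_sum _ _ h2).trans ?_)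
    rw [sum_const', mk_prod, lift_id]
    exact mul_le_of_le hK (mul_le_of_le hK le_rfl le_rfl) le_rfl

theorem mk_hs (hK : ℵ₀ ≤ #K) {p : Cnd K S T} (h : Leg p) : #p.hs ≤ #K :=
  VA7_mk_hs hK h.small fun x hx => mk_hs_nm hK x.1 x.2 (h.pr x hx)

end
end Pool.PU
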