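import Pool.Agent.Lib.MP_54c436_pu.VA3
import Pool.Agent.Lib.MP_54c436_pu.VA4
import Pool.Agent.Lib.MP_54c436_pu.VA7
/-!
# PU, V-side, row VA8: the Cohen sets are a splitting family
-/


set_option autoImplicit false
set_option linter.unusedSectionVars false
open Cardinal Set
namespace Pool.PU
open Pool.CF
variable {K S T : Type} [LinearOrder K] [WellFoundedLT K] [LinearOrder T] [WellFoundedLT T]
private theorem VA8_flc_eq (c : S → K → Option Bool) (α : S) (γ : K)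
    (h : ∀ k, γ ≤ k → c α k = none) : flc α γ c = c := by
  classical
  funext β k
  have e : flc α γ c β k = if β = α ∧ γ ≤ k then (c β k).map (fun b => !b) else c β k := rfl
  rw [e]
  split_ifs with h1
  · obtain ⟨rfl, h2⟩ := h1
    rw [h k h2]
    rfl
  · rfl

private theorem VA8_mk_flip (q : Cnd K S T) (α : S) (γ : K) :
    #{x : T × Nm K S T | (x.1, fln α γ x.2) ∈ q.pr} ≤ #q.pr := by
  refine Cardinal.mk_le_of_injective (f := fun x => ⟨(x.1.1, fln α γ x.1.2), x.2⟩) ?_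
  rintro ⟨⟨t, n⟩, hx⟩ ⟨⟨t', n'⟩, hy⟩ hxy
  have h1 : (t, fln α γ n) = (t', fln α γ n') := congrArg Subtype.val hxy
  rw [Prod.mk.injEq] at h1
  obtain ⟨rfl, h2⟩ := h1
  have h3 := congrArg (fln α γ) h2
  rw [fln_fln, fln_fln] at h3
  subst h3
  rfl

/-- Row VA8a: the union of `q` and its flip, if the flip does not change the Cohen part. -/
theorem exists_sym (hK : ℵ₀ ≤ #K) (q : Fo K S T) (α : S) (γ : K)
    (h : ∀ k, γ ≤ k → q.1.c α k = none) :
    ∃ r : Fo K S T, r ≤ q ∧ Cle r.1 (flp α γ q.1) ∧ r.1.c = q.1.c ∧ r.1.st = q.1.st := by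
  have hc : (flp α γ q.1).c = q.1.c := VA8_flc_eq _ α γ h
  have hst : (flp α γ q.1).st = q.1.st := rfl
  refine ⟨⟨⟨q.1.c, q.1.st, q.1.pr ∪ {x | (x.1, fln α γ x.2) ∈ q.1.pr}⟩,
    ⟨q.2.small.c, q.2.small.st, ?_⟩, ?_⟩, ?_, ?_, rfl, rfl⟩
  · exact (mk_union_le _ _).trans_lt (add_lt_of_lt hK q.2.small.pr
      ((VA8_mk_flip q.1 α γ).trans_lt q.2.small.pr))
  · rintro x (hx | hx)
    · exact q.2.pr x hx
    · have h1 := legN_flp α γ _ _ (q.2.pr _ hx)
      rw [fln_fln] at h1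
      exact h1
  · refine ⟨fun _ _ _ h1 => h1, fun _ _ _ h1 => h1, fun x hx => Or.inl hx, ?_⟩
    intro x _ k b h1 h2
    change q.1.st x.1 k = some b at h2
    rw [h1] at h2
    exact absurd h2 (by simp)
  · refine ⟨fun β k b h1 => ?_, fun _ _ _ h1 => h1, fun x hx => Or.inr hx, ?_⟩
    · rw [hc] at h1
      exact h1
    · intro x _ k b h1 h2
      change q.1.st x.1 k = some b at h2
      change q.1.st x.1 k = none at h1
      rw [h1] at h2
      exact absurd h2 (by simp)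

private theorem VA8_dom (q : Fo K S T) (α : S) : #{k | q.1.c α k ≠ none} < #K := by
  refine lt_of_le_of_lt ?_ q.2.small.c
  refine Cardinal.mk_le_of_injective (f := fun k => ⟨(α, k.1), k.2⟩) ?_
  rintro ⟨k, hk⟩ ⟨l, hl⟩ hkl
  have h1 : (α, k) = (α, l) := congrArg Subtype.val hkl
  rw [Prod.mk.injEq] at h1
  exact Subtype.ext h1.2

/-- Row VA8b.  For each `k` take a predense set `B k` (`predense`) of conditions which are in `A k`
or in `perp (A k)`; `α` = a coordinate not used in the conditions in the `B k` (`mk_hs`,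
`#K < #S`).  Given `q ≤ p`, `γ`, `b`: `γ'` above `γ` and the domain of `q.c α`
(`bdd_of_small`); `q' = exists_sym q α γ'`; `r₀ ≤ q'` and `k > γ'` with `r₀ ∈ A k`; `r₁ ≤ r₀`,
`r₁ ≤ a ∈ B k`, so `a ∈ A k`; `r ≤ r₁` with `r.c α k` defined (`addC_le`).  If the value is not
`b` take the flip of `r` (`cle_flp`, `flp_eq a`, `flp_flp`). -/
theorem splitting [Hyp K S T] (A : K → Set (Fo K S T)) (hA : ∀ k, RegOpen (A k)) (p : Fo K S T)
    (h : ∀ q ≤ p, ∀ γ, ∃ r ≤ q, ∃ k, γ < k ∧ r ∈ A k) :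
    ∃ α : S, ∀ q ≤ p, ∀ γ, ∀ b : Bool, ∃ r ≤ q, ∃ k, γ < k ∧ r ∈ A k ∧ r.1.c α k = some b := by
  have hreg : (#K).IsRegular := Hyp.reg S T
  have hK : ℵ₀ ≤ #K := hreg.aleph0_le
  have hpd : ∀ k : K, ∃ B ⊆ {a : Fo K S T | a ∈ A k ∨ a ∈ perp (A k)}, #B ≤ #K ∧
      ∀ p, ∃ a ∈ B, ∃ r ≤ p, r ≤ a := by
    intro k
    refine predense hreg (Hyp.sl S T) _ fun p => ?_
    by_cases h1 : ∃ r ≤ p, r ∈ A k
    · obtain ⟨r, hr, hrA⟩ := h1
      exact ⟨r, hr, Or.inl hrA⟩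
    · refine ⟨p, le_rfl, Or.inr fun r hr hrA => h1 ⟨r, hr, hrA⟩⟩
  choose B hB1 hB2 hB3 using hpd
  obtain ⟨α, hα⟩ : ∃ α : S, ∀ k, ∀ a ∈ B k, α ∉ a.1.hs := by
    by_contra hcon
    push Not at hcon
    have h1 : (univ : Set S) ⊆ ⋃ k : K, ⋃ a : B k, a.1.1.hs := by
      intro α _
      obtain ⟨k, a, ha, hαa⟩ := hcon α
      exact mem_iUnion.2 ⟨k, mem_iUnion.2 ⟨⟨a, ha⟩, hαa⟩⟩
    have h2 : #S ≤ #K := by
      rw [← mk_univ]
      refine (mk_le_mk_of_subset h1).trans ?_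
      refine (mk_iUnion_le _).trans ?_
      refine mul_le_of_le hK le_rfl ?_
      refine ciSup_le' fun k => ?_
      refine (mk_iUnion_le _).trans ?_
      refine mul_le_of_le hK (hB2 k) ?_
      exact ciSup_le' fun a => mk_hs hK a.1.2
    exact absurd h2 (not_le.2 (Hyp.S_gt (T := T)))
  refine ⟨α, fun q hq γ b => ?_⟩
  obtain ⟨γ₁, hγ₁⟩ := bdd_of_small hreg (Hyp.init S T) {k | q.1.c α k ≠ none} (VA8_dom q α)
  have hnone : ∀ k, max γ γ₁ ≤ k → q.1.c α k = none := by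
    intro k hk
    by_contra h1
    exact absurd (hγ₁ k h1) (not_lt.2 ((le_max_right γ γ₁).trans hk))
  obtain ⟨q', hq'1, hq'2, -, -⟩ := exists_sym hK q α (max γ γ₁) hnone
  obtain ⟨r₀, hr₀, k, hk, hr₀A⟩ := h q' (hq'1.trans hq) (max γ γ₁)
  have hγk : γ < k := (le_max_left γ γ₁).trans_lt hk
  obtain ⟨a, ha, r₁, hr₁, hr₁a⟩ := hB3 k r₀
  have hr₁A : r₁ ∈ A k := (hA k).1 r₀ hr₀A r₁ hr₁
  have haA : a ∈ A k := by
    rcases hB1 k ha with h1 | h1
    · exact h1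
    · exact absurd hr₁A (h1 r₁ hr₁a)
  cases hv : r₁.1.c α k with
  | none =>
    obtain ⟨r, hr, hre⟩ := addC_le hK r₁ α k b hv
    refine ⟨r, hr.trans (hr₁.trans (hr₀.trans hq'1)), k, hγk, (hA k).1 r₁ hr₁A r hr, ?_⟩
    rw [hre]
    classical
    exact if_pos ⟨rfl, rfl⟩
  | some b' =>
    by_cases hb : b' = b
    · subst hb
      exact ⟨r₁, hr₁.trans (hr₀.trans hq'1), k, hγk, hr₁A, hv⟩
    · have e1 : flp α (max γ γ₁) a.1 = a.1 := flp_eq α (max γ γ₁) a.1 (hα k a ha)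
      have h1 : Cle (flp α (max γ γ₁) r₁.1) a.1 := by
        rw [← e1]
        exact cle_flp α (max γ γ₁) hr₁a
      have h2 : Cle (flp α (max γ γ₁) r₁.1) q.1 := by
        have h3 : Cle r₁.1 (flp α (max γ γ₁) q.1) :=
          Cle.trans (Fo.le_def.1 (hr₁.trans hr₀)) hq'2
        have h4 := cle_flp α (max γ γ₁) h3
        rwa [flp_flp] at h4
      refine ⟨⟨flp α (max γ γ₁) r₁.1, leg_flp α (max γ γ₁) r₁.2⟩, h2, k, hγk,
        (hA k).1 a haA _ h1, ?_⟩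
      show flc α (max γ γ₁) r₁.1.c α k = some b
      classical
      have e2 : flc α (max γ γ₁) r₁.1.c α k = (r₁.1.c α k).map (fun b => !b) :=
        if_pos ⟨rfl, hk.le⟩
      rw [e2, hv]
      cases b <;> cases b' <;> simp_all

end Pool.PU
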