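import Pool.Agent.Lib.MP_54c436_pu.VA6
import Pool.Agent.Lib.MP_54c436_pu.VA8
/-!
# PU, V-side, row VA9: the forcing for the strict inequality
-/


set_option autoImplicit false
set_option linter.unusedSectionVars false
open Cardinal Set
namespace Pool.PU
open Pool.CF
/-- Row VA9a. -/
theorem hyp_inst {κ : Cardinal.{0}} (hκ : IndMeas κ) :
    Hyp κ.ord.ToType (Order.succ κ).ord.ToType (Order.succ (Order.succ κ)).ord.ToType := by
  have hs : ℵ₀ ≤ Order.succ κ := hκ.unc.le.trans (Order.le_succ κ)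
  refine ⟨?_, ?_, ?_, ?_, ?_, ?_, ?_, ?_⟩
  · rw [mk_ord_toType]
    exact hκ.reg
  · rw [mk_ord_toType]
    exact hκ.unc
  · rw [mk_ord_toType]
    exact hκ.sl
  · intro a
    rw [mk_ord_toType]
    exact mk_Iio_toType_ord_lt a
  · rw [mk_ord_toType, mk_ord_toType]
    exact Order.lt_succ κ
  · rw [mk_ord_toType, mk_ord_toType]
    exact Order.lt_succ _
  · rw [mk_ord_toType]
    exact isRegular_succ hs
  · intro t
    rw [mk_ord_toType]
    exact mk_Iio_toType_ord_lt t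

/-- The Cohen sets. -/
def coh (K S T : Type) [LinearOrder K] [LinearOrder T] [WellFoundedLT T] :
    S → K → Set (Fo K S T) :=
  fun α k => {p | ∀ q ≤ p, ∃ r ≤ q, r.1.c α k = some true}

private lemma VA9_coh_reg {K S T : Type} [LinearOrder K] [LinearOrder T] [WellFoundedLT T]
    (α : S) (k : K) : RegOpen (coh K S T α k) := by
  refine ⟨fun p hp q hq r hr => hp r (hr.trans hq), fun p hp q hq => ?_⟩
  obtain ⟨r, hr, h⟩ := hp q hq
  obtain ⟨s, hs, h1⟩ := h r le_rfl
  exact ⟨s, hs.trans hr, h1⟩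

/-- Row VA9b. -/
theorem exists_strV {κ : Cardinal.{0}} (hκ : IndMeas κ) :
    ∃ (P : Type) (_ : PartialOrder P) (G : (κ.ord.ToType → Set P) → Set P)
      (c : (Order.succ κ).ord.ToType → κ.ord.ToType → Set P), Core κ P G ∧
        StrV κ P (Order.succ κ).ord.ToType c := by
  haveI := hyp_inst hκ
  have hH : Hyp κ.ord.ToType (Order.succ κ).ord.ToType
    (Order.succ (Order.succ κ)).ord.ToType := inferInstance
  have hcard : #κ.ord.ToType = κ := by
    rw [mk_toType, card_ord]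
  have hdir : DirClosed κ (Fo κ.ord.ToType (Order.succ κ).ord.ToType
      (Order.succ (Order.succ κ)).ord.ToType) := by
    have h := dirClosed (S := (Order.succ κ).ord.ToType)
      (T := (Order.succ (Order.succ κ)).ord.ToType) hH.reg
    rwa [hcard] at h
  haveI : Nonempty κ.ord.ToType := mk_ne_zero_iff.1 (by
    rw [hcard]
    exact hκ.reg.pos.ne')
  obtain ⟨G, hG⟩ := hκ.ext _ hdir
  refine ⟨_, _, G, coh _ _ _, ⟨hκ.reg, hκ.unc, ⟨VA5emp _ _ _⟩, hdir, hG⟩,
    ⟨VA9_coh_reg, fun A hA p h => ?_, fun C hC p h => pint C hC p h⟩⟩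
  obtain ⟨α, hα⟩ := splitting A hA p h
  refine ⟨α, fun q hq γ => ⟨?_, ?_⟩⟩
  · obtain ⟨r, hr, k, hk, hrk, hc⟩ := hα q hq γ true
    exact ⟨r, hr, k, hk, hrk, fun s hs => ⟨s, le_rfl, Cle.c (show Cle s.1 r.1 from hs) _ _ _ hc⟩⟩
  · obtain ⟨r, hr, k, hk, hrk, hc⟩ := hα q hq γ false
    refine ⟨r, hr, k, hk, hrk, fun s hs hsc => ?_⟩
    obtain ⟨s', hs', h1⟩ := hsc s le_rfl
    have h2 := Cle.c (show Cle s'.1 r.1 from hs'.trans hs) _ _ _ hc
    rw [h2] at h1
    exact absurd h1 (by simp)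

end Pool.PU
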