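import Pool.Agent.Lib.MP_54c436_pu.VG
/-!
# PU, V-side, rows VB: the forcing for the equality
-/


set_option autoImplicit false
set_option linter.unusedSectionVars false
open Cardinal Set
namespace Pool.PU
open Pool.CF
/-- Partial functions of size at most `κ` from `S` to the power set of `K`, ordered by reverse
extension. -/
structure Lv (K S : Type) where
  f : S → Option (Set K)
  small : #{α | f α ≠ none} ≤ #K

instance (K S : Type) : PartialOrder (Lv K S) where
  le q p := ∀ α X, p.f α = some X → q.f α = some X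
  le_refl _ _ _ h := h
  le_trans _ _ _ h1 h2 α X h := h1 α X (h2 α X h)
  le_antisymm a b h1 h2 := by
    have h : a.f = b.f := by
      funext α
      cases h3 : a.f α with
      | some X => exact (h2 α X h3).symm
      | none =>
        cases h4 : b.f α with
        | none => rfl
        | some X =>
          rw [h1 α X h4] at h3
          exact absurd h3 (by simp)
    cases a
    cases b
    simp only at h
    subst h
    rfl

/-- Row VB1: directed sets of size at most `κ` have lower bounds. -/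
theorem lv_closed (K S : Type) (hK : ℵ₀ ≤ #K) (D : Set (Lv K S)) (hne : D.Nonempty)
    (hc : #D ≤ #K) (hd : ∀ a ∈ D, ∀ b ∈ D, ∃ c ∈ D, c ≤ a ∧ c ≤ b) :
    ∃ p, ∀ a ∈ D, p ≤ a := by
  classical
  have huniq : ∀ a ∈ D, ∀ b ∈ D, ∀ α X Y, a.f α = some X → b.f α = some Y → X = Y := by
    intro a ha b hb α X Y h1 h2
    obtain ⟨c, -, hca, hcb⟩ := hd a ha b hb
    have h3 := hca α X h1
    rw [hcb α Y h2] at h3
    exact (Option.some.inj h3).symm
  let g : S → Option (Set K) := fun α =>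
    if h : ∃ X, ∃ a ∈ D, a.f α = some X then some h.choose else none
  have hg : ∀ a ∈ D, ∀ α X, a.f α = some X → g α = some X := by
    intro a ha α X h1
    have h2 : ∃ X, ∃ a ∈ D, a.f α = some X := ⟨X, a, ha, h1⟩
    show (if h : ∃ X, ∃ a ∈ D, a.f α = some X then some h.choose else none) = some X
    rw [dif_pos h2]
    obtain ⟨b, hb, h3⟩ := h2.choose_spec
    rw [huniq b hb a ha α _ X h3 h1]
  have hsub : {α | g α ≠ none} ⊆ ⋃ a : D, {α | (a : Lv K S).f α ≠ none} := by
    intro α hα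
    by_cases h2 : ∃ X, ∃ a ∈ D, a.f α = some X
    · obtain ⟨X, a, ha, h3⟩ := h2
      refine mem_iUnion.2 ⟨⟨a, ha⟩, ?_⟩
      show a.f α ≠ none
      rw [h3]
      exact Option.some_ne_none X
    · exact absurd (dif_neg h2) hα
  have hsmall : #{α | g α ≠ none} ≤ #K := by
    refine (mk_le_mk_of_subset hsub).trans ?_
    refine (mk_iUnion_le _).trans ?_
    have h3 : ∀ a : D, #{α | (a : Lv K S).f α ≠ none} ≤ #K := fun a => (a : Lv K S).small
    refine (mul_le_mul' hc (ciSup_le' h3)).trans ?_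
    exact (mul_eq_self hK).le
  exact ⟨⟨g, hsmall⟩, fun a ha α X h1 => hg a ha α X h1⟩

/-- Row VB2: every Boolean valued subset of `K` is decided. -/
theorem lv_decide (K S : Type) (hK : ℵ₀ ≤ #K) (A : K → Set (Lv K S)) (hA : ∀ k, RegOpen (A k))
    (p : Lv K S) : ∃ q ≤ p, ∀ k, q ∈ A k ∨ q ∈ perp (A k) := by
  have hcl : DirClosed (Order.succ #K) (Lv K S) := fun D hne hc hd =>
    lv_closed K S hK D hne (Order.lt_succ_iff.1 hc) hd
  refine dc_inter hcl (J := K) (Order.lt_succ #K) (fun k => A k ∪ perp (A k)) ?_ p ?_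
  · rintro k q (hq | hq) r hr
    · exact Or.inl ((hA k).1 q hq r hr)
    · exact Or.inr fun s hs => hq s (hs.trans hr)
  · intro k q _
    by_cases h : ∃ r ≤ q, r ∈ A k
    · obtain ⟨r, hr, h1⟩ := h
      exact ⟨r, hr, Or.inl h1⟩
    · push Not at h
      exact ⟨q, le_rfl, Or.inr h⟩

/-- The Boolean valued ultrafilter. -/
def lvG {K S : Type} (W : Set (Set K)) : (K → Set (Lv K S)) → Set (Lv K S) :=
  fun A => {p | ∀ q ≤ p, ∃ r ≤ q, {k | r ∈ A k} ∈ W}

private theorem VB3_dir (K S : Type) (hK : ℵ₀ ≤ #K) : DirClosed (Order.succ #K) (Lv K S) :=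
  fun D hne hc hd => lv_closed K S hK D hne (Order.lt_succ_iff.1 hc) hd

/-- Row VB3. -/
theorem lv_norm {κ : Cardinal.{0}} (hκ : κ.IsRegular) {W : Set (Set κ.ord.ToType)}
    (hW : NormW κ W) (S : Type) : NormN κ (Lv κ.ord.ToType S) (lvG W) := by
  have hmk : #κ.ord.ToType = κ := mk_ord_toType κ
  have hK : ℵ₀ ≤ #κ.ord.ToType := by rw [hmk]; exact hκ.aleph0_le
  have hempty : (∅ : Set κ.ord.ToType) ∉ W := by
    intro h
    have h1 := (hW.ultra ∅).1 h
    exact h1 (hW.up ∅ h _ (empty_subset _))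
  have hdc := VB3_dir κ.ord.ToType S hK
  have key : ∀ (J : Type) (A : J → κ.ord.ToType → Set (Lv κ.ord.ToType S)), #J ≤ κ →
      (∀ j i, RegOpen (A j i)) → ∀ p, (∀ j, p ∈ lvG W (A j)) → ∀ q ≤ p, ∃ r ≤ q,
        ∀ j, {k | r ∈ A j k} ∈ W := by
    intro J A hJ hA p hp q hq
    refine dc_inter hdc (J := J) ?_ (fun j => {r | {k | r ∈ A j k} ∈ W}) ?_ q ?_
    · rw [hmk]
      exact Order.lt_succ_iff.2 hJ
    · intro j r hr r' hr'
      exact hW.up _ hr _ fun k hk => (hA j k).1 r hk r' hr'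
    · intro j r hr
      exact hp j r (hr.trans hq)
  refine ⟨?_, ?_, ?_, ?_, ?_, ?_, ?_⟩
  · intro A _
    refine ⟨fun p hp q hq r hr => hp r (hr.trans hq), fun p hp q hq => ?_⟩
    obtain ⟨r, hr, h1⟩ := hp q hq
    obtain ⟨s, hs, h2⟩ := h1 r le_rfl
    exact ⟨s, hs.trans hr, h2⟩
  · intro A A' _ _ p hp h q hq
    obtain ⟨r, hr, h1⟩ := hp q hq
    exact ⟨r, hr, hW.up _ h1 _ fun k hk => h k r (hr.trans hq) hk⟩
  · rw [eq_empty_iff_forall_notMem]
    intro p hp
    obtain ⟨r, _, h1⟩ := hp p le_rfl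
    refine hempty ?_
    have e : {k : κ.ord.ToType | r ∈ (∅ : Set (Lv κ.ord.ToType S))} = ∅ := by
      ext k
      exact ⟨fun h => h.elim, fun h => h.elim⟩
    rw [← e]
    exact h1
  · intro A hA p
    obtain ⟨q, hq, hd⟩ := lv_decide κ.ord.ToType S hK A hA p
    refine ⟨q, hq, ?_⟩
    by_cases h : {k | q ∈ A k} ∈ W
    · exact Or.inl fun r hr => ⟨r, le_rfl, hW.up _ h _ fun k hk => (hA k).1 q hk r hr⟩
    · right
      have h1 : {k | q ∈ A k}ᶜ ∈ W := by
        by_contra hcon
        exact h ((hW.ultra _).2 hcon)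
      refine fun r hr => ⟨r, le_rfl, hW.up _ h1 _ fun k hk => ?_⟩
      rcases hd k with h2 | h2
      · exact absurd h2 hk
      · exact fun s hs => h2 s (hs.trans hr)
  · intro J A hJ hA p hp q hq
    obtain ⟨r, hr, h1⟩ := key J A hJ.le hA p hp q hq
    refine ⟨r, hr, ?_⟩
    refine hW.up _ (hW.complete J (fun j => {k | r ∈ A j k}) hJ h1) _ ?_
    intro k hk j
    exact mem_iInter.1 hk j
  · intro a p q _
    exact ⟨q, le_rfl, hW.unif a⟩
  · intro A hA p hp q hq
    obtain ⟨r, hr, h1⟩ := key _ A (le_of_eq hmk) hA p hp q hq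
    exact ⟨r, hr, hW.diag (fun j => {k | r ∈ A j k}) h1⟩

/-- The enumeration of the subsets of `K`. -/
def lvE (K S : Type) : S → K → Set (Lv K S) :=
  fun α k => {p | ∃ X, p.f α = some X ∧ k ∈ X}

private noncomputable def VB4_ext {K S : Type} (hK : ℵ₀ ≤ #K) (p : Lv K S) (α : S)
    (X : Set K) : Lv K S := by
  classical
  refine ⟨fun β => if β = α then some X else p.f β, ?_⟩
  refine (mk_le_mk_of_subset (t := {β | p.f β ≠ none} ∪ {α}) ?_).trans ?_
  · intro β hβ
    have hβ' : (if β = α then some X else p.f β) ≠ none := hβ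
    by_cases h : β = α
    · exact Or.inr h
    · rw [if_neg h] at hβ'
      exact Or.inl hβ'
  · refine (mk_union_le _ _).trans ?_
    rw [mk_singleton]
    exact add_le_of_le hK p.small (one_le_aleph0.trans hK)

private theorem VB4_ext_at {K S : Type} (hK : ℵ₀ ≤ #K) (p : Lv K S) (α : S) (X : Set K) :
    (VB4_ext hK p α X).f α = some X := by
  classical
  exact if_pos rfl

private theorem VB4_ext_le {K S : Type} (hK : ℵ₀ ≤ #K) (p : Lv K S) (α : S) (X : Set K)
    (h : p.f α = none) : VB4_ext hK p α X ≤ p := by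
  classical
  intro β Y hY
  have hne : β ≠ α := by
    rintro rfl
    rw [h] at hY
    exact absurd hY (by simp)
  have e : (VB4_ext hK p α X).f β = p.f β := if_neg hne
  rw [e]
  exact hY

private theorem VB4_reg {K S : Type} (hK : ℵ₀ ≤ #K) (α : S) (k : K) : RegOpen (lvE K S α k) := by
  refine ⟨?_, ?_⟩
  · rintro p ⟨X, hX, hk⟩ q hq
    exact ⟨X, hq α X hX, hk⟩
  · intro p hp
    cases h : p.f α with
    | some X =>
      obtain ⟨r, hr, Y, hY, hk⟩ := hp p le_rfl
      rw [hr α X h] at hY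
      have e : X = Y := Option.some_injective _ hY
      exact ⟨X, h, e ▸ hk⟩
    | none =>
      obtain ⟨r, hr, Y, hY, hk⟩ := hp _ (VB4_ext_le hK p α ∅ h)
      rw [hr α ∅ (VB4_ext_at hK p α ∅)] at hY
      have e : ∅ = Y := Option.some_injective _ hY
      rw [← e] at hk
      exact absurd hk (notMem_empty k)

/-- Row VB4.  (`lvE` has to be replaced by a regular open version if necessary.) -/
theorem exists_eqV {κ : Cardinal.{0}} (hκ : κ.IsRegular) (hunc : ℵ₀ < κ)
    {W : Set (Set κ.ord.ToType)} (hW : NormW κ W) :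
    ∃ (P : Type) (_ : PartialOrder P) (G : (κ.ord.ToType → Set P) → Set P)
      (e : (Order.succ κ).ord.ToType → κ.ord.ToType → Set P), Core κ P G ∧
        EqV κ P (Order.succ κ).ord.ToType e := by
  have hmk : #κ.ord.ToType = κ := by rw [mk_toType, card_ord]
  have hK : ℵ₀ ≤ #κ.ord.ToType := by rw [hmk]; exact hκ.aleph0_le
  refine ⟨Lv κ.ord.ToType (Order.succ κ).ord.ToType, inferInstance, lvG W,
    lvE κ.ord.ToType (Order.succ κ).ord.ToType, ⟨hκ, hunc, ?_, ?_, lv_norm hκ hW _⟩,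
    ⟨?_, fun α k => VB4_reg hK α k, ?_⟩⟩
  · exact ⟨⟨fun _ => none, by simp⟩⟩
  · intro D hne hc hd
    exact lv_closed _ _ hK D hne (hc.le.trans_eq hmk.symm) hd
  · intro a
    have h1 := Cardinal.mk_Iio_toType_ord_lt a
    exact Order.lt_succ_iff.1 h1
  · intro A hA p
    obtain ⟨q, hq, hdec⟩ := lv_decide _ _ hK A hA p
    obtain ⟨α, hα⟩ : ∃ α, q.f α = none := by
      by_contra hcon
      push Not at hcon
      have h1 : #(Order.succ κ).ord.ToType ≤ #{α | q.f α ≠ none} := by
        rw [← mk_univ]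
        exact mk_le_mk_of_subset fun α _ => hcon α
      have h2 := h1.trans q.small
      rw [hmk, mk_toType, card_ord] at h2
      exact absurd h2 (not_le.2 (Order.lt_succ κ))
    refine ⟨VB4_ext hK q α {k | q ∈ A k}, (VB4_ext_le hK q α _ hα).trans hq, α, ?_⟩
    intro k r hr
    have hrα : r.f α = some {k | q ∈ A k} := hr α _ (VB4_ext_at hK q α _)
    have hrq : r ≤ q := hr.trans (VB4_ext_le hK q α _ hα)
    constructor
    · intro h
      refine ⟨_, hrα, ?_⟩
      rcases hdec k with h1 | h1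
      · exact h1
      · exact absurd h (h1 r hrq)
    · rintro ⟨X, hX, hk⟩
      rw [hrα] at hX
      have e : {k | q ∈ A k} = X := Option.some_injective _ hX
      rw [← e] at hk
      exact (hA k).1 q hk r hrq

end Pool.PU
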