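import Pool.Agent.Lib.MP_54c436_pu.NF
import Pool.Agent.Lib.MP_54c436_pu.VA9
import Pool.Agent.Lib.MP_54c436_pu.VB

/-!
# PU: the theorem
-/

set_option autoImplicit false

open Cardinal Set

namespace Pool.PU

open Pool.MP_3ade05_lc Pool.PC Pool.CF

theorem independent :
    (∀ κ : Cardinal.{0}, κ.IsRegular → ℵ₀ < κ → (∃ W : Set (Set κ.ord.ToType), NormW κ W) →
      ∃ V : Set ZFSet.{0}, V.Countable ∧ (∀ x ∈ V, ∀ y ∈ x, y ∈ V) ∧ ZFCModel V ∧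
        ∃ k : ZFSet.{0}, InfCard V k ∧ ZFSet.omega ∈ k ∧ (∃ u, NormalUFV V k u) ∧
          ∀ u, NormalUFV V k u → ¬ PLessV V k u) ∧
    (∀ κ : Cardinal.{0}, IndMeas κ →
      ∃ V : Set ZFSet.{0}, V.Countable ∧ (∀ x ∈ V, ∀ y ∈ x, y ∈ V) ∧ ZFCModel V ∧
        ∃ k : ZFSet.{0}, InfCard V k ∧ ZFSet.omega ∈ k ∧ (∃ u, NormalUFV V k u) ∧
          ∀ u, NormalUFV V k u → PLessV V k u) := by
  refine ⟨fun κ h1 h2 ⟨W, hW⟩ => ?_, fun κ hκ => ?_⟩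
  · obtain ⟨P, _, G, e, hC, hE⟩ := exists_eqV h1 h2 hW
    exact exists_equal hC hE
  · obtain ⟨P, _, G, c, hC, hS⟩ := exists_strV hκ
    exact exists_strict hC hS

end Pool.PU
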