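import Pool.Agent.Lib.MP_54c436_pu.TDef
/-!
# PU, T-part, row T1: small = bounded, normal ultrafilters
-/


set_option autoImplicit false
set_option linter.unusedVariables false
set_option linter.unusedSectionVars false
open Set
namespace Pool.PU
open Pool.MP_3ade05_lc Pool.PC Pool.UL Pool.UT Pool.GE
variable {E : Set ZFSet.{0}} {k u : ZFSet.{0}}
private theorem T1_tz (hM : MC E k) : TZ E := ⟨hM.trans, hM.zfc.toZFModel⟩

private theorem T1_kE (hM : MC E k) : k ∈ E := hM.card.mem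

private theorem T1_memE (hM : MC E k) {a : ZFSet.{0}} (ha : a ∈ k) : a ∈ E :=
  hM.trans _ (T1_kE hM) _ ha

private theorem T1_ord (hM : MC E k) {a : ZFSet.{0}} (ha : a ∈ k) : a.IsOrdinal :=
  hM.card.ord.mem ha

private theorem T1_omk (hM : MC E k) {a : ZFSet.{0}} (ha : a ∈ ZFSet.omega) : a ∈ k :=
  hM.card.inf ha

private theorem T1_empty (hM : MC E k) : (∅ : ZFSet.{0}) ∈ k := T1_omk hM ZFSet.omega_zero

/-- There is no last element. -/
private theorem T1_gt (hM : MC E k) {a : ZFSet.{0}} (ha : a ∈ k) : ∃ d ∈ k, a ∈ d := by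
  have := T1_tz hM
  have : InE E k := ⟨T1_kE hM⟩
  obtain ⟨d, hd, had, -⟩ := hM.clo (mkF (fun x => x) k) (mem_of (E := E) (mkF (fun x => x) k))
    (FunOn_mkF _ _) (fun x hx => by rw [ap_mkF hx]; exact hx) a ha
  exact ⟨d, hd, had⟩

private theorem T1_max (hM : MC E k) {b c : ZFSet.{0}} (hb : b ∈ k) (hc : c ∈ k) :
    ∃ d ∈ k, b ⊆ d ∧ c ⊆ d := by
  rcases (T1_ord hM hb).mem_trichotomous (T1_ord hM hc) with h | h | h
  · exact ⟨c, hc, (T1_ord hM hc).subset_of_mem h, fun x hx => hx⟩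
  · exact ⟨c, hc, h ▸ fun x hx => hx, fun x hx => hx⟩
  · exact ⟨b, hb, fun x hx => hx, (T1_ord hM hb).subset_of_mem h⟩

/-- Row T1.  If `A` is covered by a function `f` with domain `a ∈ k`, apply regularity to
`x ↦ ap f x` if this is in `k`, else `∅` (for instance `mkF (fun x => ap f x ∩ k ...)`, or
`sep (fun y => y ∈ ap f x ∧ ap f x ∈ k) k`); if `A` is bounded by `b` then the identity of `b`
covers `A` (`cov_id`). -/
theorem smallV_iff (hM : MC E k) {A : ZFSet.{0}} (hA : A ∈ E) (hs : A ⊆ k) :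
    SmallV E k A ↔ Bd k A := by
  have := T1_tz hM
  have : InE E k := ⟨T1_kE hM⟩
  constructor
  · rintro ⟨a, ha, f, hf, hfa, hcov⟩
    have : InE E f := ⟨hf⟩
    have : InE E a := ⟨T1_memE hM ha⟩
    have hval : ∀ x ∈ a, ap (mkF (fun x => ZFSet.sep (fun y => y ∈ ap f x ∧ ap f x ∈ k) k) a) x =
        ZFSet.sep (fun y => y ∈ ap f x ∧ ap f x ∈ k) k := fun x hx => ap_mkF hx
    have hin : ∀ x ∈ a, ap f x ∈ k →
        ZFSet.sep (fun y => y ∈ ap f x ∧ ap f x ∈ k) k = ap f x := by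
      intro x _ hk
      ext y
      rw [ZFSet.mem_sep]
      exact ⟨fun h => h.2.1, fun h => ⟨hM.card.ord.subset_of_mem hk h, h, hk⟩⟩
    obtain ⟨b, hb, hb'⟩ := hM.reg a ha
      (mkF (fun x => ZFSet.sep (fun y => y ∈ ap f x ∧ ap f x ∈ k) k) a)
      (mem_of (E := E) (mkF (fun x => ZFSet.sep (fun y => y ∈ ap f x ∧ ap f x ∈ k) k) a))
      (FunOn_mkF _ _) (by
        intro x hx
        rw [hval x hx]
        by_cases hk : ap f x ∈ k
        · rw [hin x hx hk]
          exact hk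
        · have h0 : ZFSet.sep (fun y => y ∈ ap f x ∧ ap f x ∈ k) k = ∅ := by
            rw [ZFSet.eq_empty]
            intro y hy
            exact hk (ZFSet.mem_sep.1 hy).2.2
          rw [h0]
          exact T1_empty hM)
    refine ⟨b, hb, fun y hy => ?_⟩
    obtain ⟨x, hx, hxy⟩ := hcov y hy
    have h1 : ap f x = y := (FunOn.ap_eq hfa hx).1 hxy
    have h2 := hb' x hx
    rw [hval x hx, hin x hx (h1 ▸ hs hy), h1] at h2
    exact h2
  · rintro ⟨b, hb, hb'⟩
    exact ⟨b, hb, cov_id (T1_memE hM hb) hb'⟩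

theorem bd_union (hM : MC E k) {A B : ZFSet.{0}} (hA : Bd k A) (hB : Bd k B) : Bd k (A ∪ B) := by
  obtain ⟨b, hb, hb'⟩ := hA
  obtain ⟨c, hc, hc'⟩ := hB
  obtain ⟨d, hd, hbd, hcd⟩ := T1_max hM hb hc
  refine ⟨d, hd, fun y hy => ?_⟩
  rcases ZFSet.mem_union.1 hy with h | h
  · exact hbd (hb' y h)
  · exact hcd (hc' y h)

theorem bd_mono {A B : ZFSet.{0}} (h : Bd k B) (hs : A ⊆ B) : Bd k A := by
  obtain ⟨b, hb, hb'⟩ := h
  exact ⟨b, hb, fun y hy => hb' y (hs hy)⟩

theorem NU.inter (hM : MC E k) (hu : NU E k u) {A B : ZFSet.{0}} (hA : A ∈ u) (hB : B ∈ u) :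
    A ∩ B ∈ u := by
  have := T1_tz hM
  have : InE E k := ⟨T1_kE hM⟩
  have : InE E A := ⟨hM.trans _ hu.mem _ hA⟩
  have : InE E B := ⟨hM.trans _ hu.mem _ hB⟩
  have : InE E (∅ : ZFSet.{0}) := ⟨T1_memE hM (T1_empty hM)⟩
  have h1 : (insert (∅ : ZFSet.{0}) ∅ : ZFSet.{0}) ∈ ZFSet.omega :=
    ZFSet.omega_succ ZFSet.omega_zero
  have h2 := T1_omk hM (ZFSet.omega_succ h1)
  set o : ZFSet.{0} := insert (∅ : ZFSet.{0}) ∅ with ho
  have ho0 : o ≠ ∅ := by
    intro h
    have h3 : (∅ : ZFSet.{0}) ∈ o := by rw [ho, ZFSet.mem_insert_iff]; exact Or.inl rfl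
    rw [h] at h3
    exact ZFSet.notMem_empty _ h3
  have : InE E (insert o o : ZFSet.{0}) := ⟨T1_memE hM h2⟩
  have hval : ∀ x ∈ (insert o o : ZFSet.{0}),
      ap (mkF (fun x => ZFSet.sep (fun y => (x = ∅ → y ∈ A) ∧ (x ≠ ∅ → y ∈ B)) k)
        (insert o o)) x = ZFSet.sep (fun y => (x = ∅ → y ∈ A) ∧ (x ≠ ∅ → y ∈ B)) k :=
    fun x hx => ap_mkF hx
  have hx1 : ∀ x ∈ (insert o o : ZFSet.{0}), x = o ∨ x = ∅ := by
    intro x hx
    rcases ZFSet.mem_insert_iff.1 hx with h | h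
    · exact Or.inl h
    · rw [ho, ZFSet.mem_insert_iff] at h
      rcases h with h | h
      · exact Or.inr h
      · exact absurd h (ZFSet.notMem_empty _)
  have hA1 : ZFSet.sep (fun y => ((∅ : ZFSet.{0}) = ∅ → y ∈ A) ∧
      ((∅ : ZFSet.{0}) ≠ ∅ → y ∈ B)) k = A := by
    ext y
    rw [ZFSet.mem_sep]
    exact ⟨fun h => h.2.1 rfl, fun h => ⟨hu.sub A hA h, fun _ => h, fun h' => absurd rfl h'⟩⟩
  have hB1 : ZFSet.sep (fun y => (o = ∅ → y ∈ A) ∧ (o ≠ ∅ → y ∈ B)) k = B := by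
    ext y
    rw [ZFSet.mem_sep]
    exact ⟨fun h => h.2.2 ho0, fun h => ⟨hu.sub B hB h, fun h' => absurd h' ho0, fun _ => h⟩⟩
  have h3 := hu.comp (insert o o) h2
    (mkF (fun x => ZFSet.sep (fun y => (x = ∅ → y ∈ A) ∧ (x ≠ ∅ → y ∈ B)) k) (insert o o))
    (mem_of (E := E)
      (mkF (fun x => ZFSet.sep (fun y => (x = ∅ → y ∈ A) ∧ (x ≠ ∅ → y ∈ B)) k) (insert o o)))
    (FunOn_mkF _ _) (by
      intro x hx
      rw [hval x hx]
      rcases hx1 x hx with h | h
      · rw [h, hB1]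
        exact hB
      · rw [h, hA1]
        exact hA)
  have h4 : ∅ ∈ (insert o o : ZFSet.{0}) := by
    rw [ZFSet.mem_insert_iff]
    refine Or.inr ?_
    rw [ho, ZFSet.mem_insert_iff]
    exact Or.inl rfl
  have h5 : o ∈ (insert o o : ZFSet.{0}) := ZFSet.mem_insert_iff.2 (Or.inl rfl)
  refine hu.up _ h3 _ (inter_mem (E := E) (hM.trans _ hu.mem _ hA) (hM.trans _ hu.mem _ hB))
    (fun y hy => hu.sub A hA (ZFSet.mem_inter.1 hy).1) fun y hy => ?_
  obtain ⟨-, hy2⟩ := ZFSet.mem_sep.1 hy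
  have h6 := hy2 _ h4
  have h7 := hy2 _ h5
  rw [hval _ h4, hA1] at h6
  rw [hval _ h5, hB1] at h7
  exact ZFSet.mem_inter.2 ⟨h6, h7⟩

theorem NU.not_bd (hM : MC E k) (hu : NU E k u) {A : ZFSet.{0}} (hA : A ∈ u) : ¬ Bd k A := by
  rintro ⟨b, hb, hb'⟩
  have h1 := NU.inter hM hu hA (hu.final b hb)
  have h2 : A ∩ ZFSet.sep (fun y => b ∈ y) k = ∅ := by
    rw [ZFSet.eq_empty]
    intro y hy
    obtain ⟨h3, h4⟩ := ZFSet.mem_inter.1 hy
    exact ZFSet.mem_asymm (hb' y h3) (ZFSet.mem_sep.1 h4).2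
  rw [h2] at h1
  exact hu.empty h1

/-- The two definitions of normal ultrafilters agree. -/
theorem normalUFV_iff (hM : MC E k) : NormalUFV E k u ↔ NU E k u := by
  have := T1_tz hM
  have : InE E k := ⟨T1_kE hM⟩
  have hfn : ∀ {a C : ZFSet.{0}}, FunOn C a →
      ((∀ x ∈ a, ap C x ∈ u) ↔ ∀ x B, ZFSet.pair x B ∈ C → B ∈ u) := by
    intro a C hC
    constructor
    · intro h x B hB
      have hx := FunOn.dom hC hB
      rw [← (FunOn.ap_eq hC hx).1 hB]
      exact h x hx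
    · intro h x hx
      exact h x _ (FunOn.ap_mem hC hx)
  have hcomp : ∀ {a C : ZFSet.{0}}, FunOn C a →
      ZFSet.sep (fun z => ∀ x B, ZFSet.pair x B ∈ C → z ∈ B) k =
        ZFSet.sep (fun y => ∀ x ∈ a, y ∈ ap C x) k := by
    intro a C hC
    ext z
    rw [ZFSet.mem_sep, ZFSet.mem_sep]
    refine and_congr_right fun _ => ?_
    constructor
    · intro h x hx
      exact h x _ (FunOn.ap_mem hC hx)
    · intro h x B hB
      have hx := FunOn.dom hC hB
      rw [← (FunOn.ap_eq hC hx).1 hB]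
      exact h x hx
  have hdiag : ∀ {C : ZFSet.{0}}, FunOn C k →
      ZFSet.sep (fun z => ∀ x ∈ z, ∀ B, ZFSet.pair x B ∈ C → z ∈ B) k =
        ZFSet.sep (fun y => ∀ x ∈ y, y ∈ ap C x) k := by
    intro C hC
    ext z
    rw [ZFSet.mem_sep, ZFSet.mem_sep]
    refine and_congr_right fun hz => ?_
    constructor
    · intro h x hx
      exact h x hx _ (FunOn.ap_mem hC (hM.card.ord.subset_of_mem hz hx))
    · intro h x hx B hB
      rw [← (FunOn.ap_eq hC (hM.card.ord.subset_of_mem hz hx)).1 hB]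
      exact h x hx
  have hkk : k \ (∅ : ZFSet.{0}) = k := by
    ext z
    rw [ZFSet.mem_sdiff]
    exact ⟨fun h => h.1, fun h => ⟨h, ZFSet.notMem_empty z⟩⟩
  constructor
  · intro hu
    have hempty : (∅ : ZFSet.{0}) ∉ u := by
      intro h
      have h1 := hu.up ∅ h k (T1_kE hM) (fun x hx => hx) (fun x hx => absurd hx (ZFSet.notMem_empty x))
      have h2 := (hu.ultra ∅ (T1_memE hM (T1_empty hM)) (fun x hx => absurd hx
        (ZFSet.notMem_empty x))).1 h
      rw [hkk] at h2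
      exact h2 h1
    have hcomp' : ∀ a ∈ k, ∀ C ∈ E, FunOn C a → (∀ x ∈ a, ap C x ∈ u) →
        ZFSet.sep (fun y => ∀ x ∈ a, y ∈ ap C x) k ∈ u := by
      intro a ha C hC hCa h
      rw [← hcomp hCa]
      exact hu.complete a ha C hC hCa ((hfn hCa).1 h)
    refine ⟨hu.mem, hu.sub, hu.up, hempty, ?_, hcomp', ?_, ?_⟩
    · intro A hA hs
      by_cases h : k \ A ∈ u
      · exact Or.inr h
      · exact Or.inl ((hu.ultra A hA hs).2 h)
    · intro b hb
      have : InE E b := ⟨T1_memE hM hb⟩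
      obtain ⟨d, hd, hbd⟩ := T1_gt hM hb
      have : InE E d := ⟨T1_memE hM hd⟩
      have h1 := hcomp' d hd (mkF (fun x => k \ {x}) d)
        (mem_of (E := E) (mkF (fun x => k \ {x}) d)) (FunOn_mkF _ _) (by
          intro x hx
          rw [ap_mkF hx]
          have hxk : x ∈ k := hM.card.ord.subset_of_mem hd hx
          have hxs : ({x} : ZFSet.{0}) ⊆ k := fun y hy => by
            rw [ZFSet.mem_singleton.1 hy]
            exact hxk
          have h2 := hu.nonprincipal x hxk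
          rw [hu.ultra _ (sing_mem (T1_memE hM hxk)) hxs, not_not] at h2
          exact h2)
      refine hu.up _ h1 _ (sep (E := E) (fun y => b ∈ y) (T1_kE hM))
        (fun y hy => (ZFSet.mem_sep.1 hy).1) fun y hy => ?_
      obtain ⟨hyk, hy2⟩ := ZFSet.mem_sep.1 hy
      refine ZFSet.mem_sep.2 ⟨hyk, ?_⟩
      have hyd : y ∉ d := by
        intro hyd
        have h3 := hy2 y hyd
        rw [ap_mkF hyd, ZFSet.mem_sdiff] at h3
        exact h3.2 (ZFSet.mem_singleton.2 rfl)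
      rcases (T1_ord hM hyk).mem_trichotomous (T1_ord hM hd) with h | h | h
      · exact absurd h hyd
      · rw [h]
        exact hbd
      · exact (T1_ord hM hyk).subset_of_mem h hbd
    · intro C hC hCk h
      rw [← hdiag hCk]
      exact hu.normal C hC hCk ((hfn hCk).1 h)
  · intro hu
    refine ⟨hu.mem, hu.sub, hu.up, ?_, ?_, ?_, ?_⟩
    · intro A hA hs
      constructor
      · intro h h'
        have h1 := NU.inter hM hu h h'
        have h2 : A ∩ (k \ A) = ∅ := by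
          rw [ZFSet.eq_empty]
          intro y hy
          obtain ⟨h3, h4⟩ := ZFSet.mem_inter.1 hy
          exact (ZFSet.mem_sdiff.1 h4).2 h3
        rw [h2] at h1
        exact hu.empty h1
      · intro h
        exact (hu.ultra A hA hs).resolve_right h
    · intro a ha h
      obtain ⟨d, hd, had⟩ := T1_gt hM ha
      exact NU.not_bd hM hu h ⟨d, hd, fun y hy => by rw [ZFSet.mem_singleton.1 hy]; exact had⟩
    · intro a ha C hC hCa h
      rw [hcomp hCa]
      exact hu.comp a ha C hC hCa ((hfn hCa).2 h)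
    · intro C hC hCk h
      rw [hdiag hCk]
      exact hu.diag C hC hCk ((hfn hCk).2 h)

end Pool.PU
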