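import Pool.Agent.Lib.MP_54c436_pu.T1
import Pool.Agent.Lib.MP_cc7fb1_ge.GBas
import Pool.Agent.Lib.MP_9fc97b_ut.TB1
/-!
# PU, T-part, row T3: sets which are not covered by `k` cover `s`
-/


set_option autoImplicit false
set_option linter.unusedVariables false
set_option linter.unusedSectionVars false
open Set
namespace Pool.PU
open Pool.MP_3ade05_lc Pool.PC Pool.UL Pool.UT Pool.GE
variable {E : Set ZFSet.{0}} {k s F : ZFSet.{0}}
/-- Row T3.  `ch` = a choice function in `E` for the nonempty elements of `pw E F`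
(`choose_fun`).  By recursion (`recur_mem`) `j α = ap ch (F \ im j α)`; as `im j α` is covered by
`k` (`α ∈ s` is covered by `k`) the set `F \ im j α` is not empty.  So `j` is injective from `s`
to `F`; the function `y ↦ ⋃₀ {α ∈ s | ap j α = y}` on `F` covers `s`. -/
theorem cov_of_not_cov (hM : MC E k) (hs : s ∈ E) (ho : s.IsOrdinal) (hb : ∀ b ∈ s, Cov E k b)
    (hF : F ∈ E) (hn : ¬ Cov E k F) : Cov E F s := by
  have : TC E :=
    { trans := hM.trans
      zf := hM.zfc.toZFModel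
      choice := hM.zfc.choice }
  have hkE : k ∈ E := hM.card.mem
  have : InE E k := ⟨hkE⟩
  have : InE E s := ⟨hs⟩
  have : InE E F := ⟨hF⟩
  have hemk : (∅ : ZFSet.{0}) ∈ k := hM.card.inf ZFSet.omega_zero
  have hem : (∅ : ZFSet.{0}) ∈ E := hM.trans _ hkE _ hemk
  have : InE E (∅ : ZFSet.{0}) := ⟨hem⟩
  have hpE : ZFSet.sep (fun x => x ≠ ∅) (pw E F) ∈ E :=
    mem_of (E := E) (ZFSet.sep (fun x => x ≠ ∅) (pw E F))
  obtain ⟨ch, hch, hchf, hchv⟩ := choose_fun (E := E) (fun X y => y ∈ X) hpE hF (fun X hX => by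
    obtain ⟨h1, h2⟩ := ZFSet.mem_sep.1 hX
    have h3 : ∃ y, y ∈ X := by
      by_contra hne
      push Not at hne
      exact h2 (ZFSet.eq_empty _ |>.2 hne)
    obtain ⟨y, hy⟩ := h3
    exact ⟨y, (mem_pw.1 h1).2 hy, hy⟩)
  have : InE E ch := ⟨hch⟩
  obtain ⟨G, hG⟩ : ∃ G : ZFSet.{0} → ZFSet.{0}, G = fun f => ap ch (F \ rng f) := ⟨_, rfl⟩
  have hGd : DfT E (fun v : Fin 1 → ZFSet.{0} => G (v 0)) := by
    rw [hG]
    have h1 : DfT E (fun v : Fin 1 → ZFSet.{0} => ap ch (F \ rng (v 0))) := inferInstance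
    exact h1
  obtain ⟨hJ, hJE⟩ := recur_mem (E := E) G hs ho
  have hre : ∀ α, recur G α = ap ch (F \ rng (mkF (recur G) α)) := by
    intro α
    rw [recur_eq, hG]
  -- the values
  have hval : ∀ α ∈ s, recur G α ∈ F ∧ ∀ β ∈ α, recur G β ≠ recur G α := by
    intro α hα
    have hαE : α ∈ E := hM.trans _ hs _ hα
    have hm : mkF (recur G) α ∈ E := (recur_mem (E := E) G hαE (ho.mem hα)).1
    have : InE E (mkF (recur G) α) := ⟨hm⟩
    have h1 : F \ rng (mkF (recur G) α) ∈ E := mem_of (E := E) (F \ rng (mkF (recur G) α))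
    have h2 : F \ rng (mkF (recur G) α) ≠ ∅ := by
      intro he
      apply hn
      have h3 : F ⊆ rng (mkF (recur G) α) := by
        intro x hx
        by_contra hx'
        have h4 : x ∈ F \ rng (mkF (recur G) α) := ZFSet.mem_sdiff.2 ⟨hx, hx'⟩
        rw [he] at h4
        exact ZFSet.notMem_empty _ h4
      exact (Cov.comp hkE hαE (hb α hα) (cov_rng hm (FunOn_mkF _ _))).mono h3
    have h3 : F \ rng (mkF (recur G) α) ∈ ZFSet.sep (fun x => x ≠ ∅) (pw E F) :=
      ZFSet.mem_sep.2 ⟨mem_pw.2 ⟨h1, fun x hx => (ZFSet.mem_sdiff.1 hx).1⟩, h2⟩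
    have h4 := (hchv _ h3).2
    rw [← hre α] at h4
    obtain ⟨h5, h6⟩ := ZFSet.mem_sdiff.1 h4
    refine ⟨h5, fun β hβ he => h6 ?_⟩
    exact (mem_rng (FunOn_mkF _ _)).2 ⟨β, hβ, by rw [ap_mkF hβ]; exact he⟩
  have hinj : ∀ α ∈ s, ∀ β ∈ s, recur G α = recur G β → α = β := by
    intro α hα β hβ he
    rcases (ho.mem hα).mem_trichotomous (ho.mem hβ) with h | h | h
    · exact absurd he ((hval β hβ).2 α h)
    · exact h
    · exact absurd he.symm ((hval α hα).2 β h)
  have : InE E (mkF (recur G) s) := ⟨hJ⟩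
  refine ⟨mkF (fun y => ZFSet.sUnion (ZFSet.sep (fun α => ap (mkF (recur G) s) α = y) s)) F,
    mem_of (E := E) (mkF (fun y => ZFSet.sUnion
      (ZFSet.sep (fun α => ap (mkF (recur G) s) α = y) s)) F), FunOn_mkF _ _, fun α hα => ?_⟩
  refine ⟨recur G α, (hval α hα).1, pair_mem_mkF.2 ⟨(hval α hα).1, ?_⟩⟩
  have h1 : ZFSet.sep (fun β => ap (mkF (recur G) s) β = recur G α) s = {α} := by
    ext β
    rw [ZFSet.mem_sep, ZFSet.mem_singleton]
    constructor
    · rintro ⟨hβ, he⟩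
      rw [ap_mkF hβ] at he
      exact hinj β hβ α hα he
    · rintro rfl
      exact ⟨hα, ap_mkF hα⟩
  rw [h1, ZFSet.sUnion_singleton]

end Pool.PU
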