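import Pool.Agent.Lib.MP_54c436_pu.VD
import Pool.Agent.Lib.MP_54c436_pu.VG

/-!
# PU, V-side, row VA1: the forcing is directed closed
-/

set_option autoImplicit false
set_option linter.unusedSectionVars false

open Cardinal Set

namespace Pool.PU

open Pool.CF

variable {K S T : Type} [LinearOrder K] [LinearOrder T] [WellFoundedLT T]

open Classical in
/-- The union of a set of conditions. -/
noncomputable def un (D : Set (Fo K S T)) : Cnd K S T :=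
  ⟨fun α k => if h : ∃ p ∈ D, p.1.c α k ≠ none then h.choose.1.c α k else none,
    fun t k => if h : ∃ p ∈ D, p.1.st t k ≠ none then h.choose.1.st t k else none,
    {x | ∃ p ∈ D, x ∈ p.1.pr}⟩

variable {D : Set (Fo K S T)}

lemma un_c (hD : ∀ a ∈ D, ∀ b ∈ D, ∃ c ∈ D, c ≤ a ∧ c ≤ b) {α : S} {k : K} {b : Bool} :
    (un D).c α k = some b ↔ ∃ p ∈ D, p.1.c α k = some b := by
  classical
  have e : (un D).c α k = if h : ∃ p ∈ D, p.1.c α k ≠ none then h.choose.1.c α k else none := rfl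
  constructor
  · intro h
    rw [e] at h
    split_ifs at h with h1
    exact ⟨h1.choose, h1.choose_spec.1, h⟩
  · rintro ⟨p, hp, h⟩
    have h1 : ∃ p ∈ D, p.1.c α k ≠ none := ⟨p, hp, by rw [h]; simp⟩
    rw [e, dif_pos h1]
    obtain ⟨h2, h3⟩ := h1.choose_spec
    obtain ⟨r, -, hr1, hr2⟩ := hD p hp _ h2
    obtain ⟨b', hb'⟩ := Option.ne_none_iff_exists'.1 h3
    have h4 := hr1.c _ _ _ h
    have h5 := hr2.c _ _ _ hb'
    rw [hb', ← h5, h4]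

lemma un_st (hD : ∀ a ∈ D, ∀ b ∈ D, ∃ c ∈ D, c ≤ a ∧ c ≤ b) {t : T} {k b : K} :
    (un D).st t k = some b ↔ ∃ p ∈ D, p.1.st t k = some b := by
  classical
  have e : (un D).st t k = if h : ∃ p ∈ D, p.1.st t k ≠ none then h.choose.1.st t k else none := rfl
  constructor
  · intro h
    rw [e] at h
    split_ifs at h with h1
    exact ⟨h1.choose, h1.choose_spec.1, h⟩
  · rintro ⟨p, hp, h⟩
    have h1 : ∃ p ∈ D, p.1.st t k ≠ none := ⟨p, hp, by rw [h]; simp⟩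
    rw [e, dif_pos h1]
    obtain ⟨h2, h3⟩ := h1.choose_spec
    obtain ⟨r, -, hr1, hr2⟩ := hD p hp _ h2
    obtain ⟨b', hb'⟩ := Option.ne_none_iff_exists'.1 h3
    have h4 := hr1.st _ _ _ h
    have h5 := hr2.st _ _ _ hb'
    rw [hb', ← h5, h4]

lemma un_small (hreg : (#K).IsRegular) (hD : ∀ a ∈ D, ∀ b ∈ D, ∃ c ∈ D, c ≤ a ∧ c ≤ b)
    (hc : #D < #K) : (un D).Small := by
  refine ⟨?_, ?_, ?_⟩
  · refine lt_of_le_of_lt (mk_le_mk_of_subset
      (t := ⋃ p : D, {x : S × K | p.1.1.c x.1 x.2 ≠ none}) ?_) ?_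
    · intro x hx
      obtain ⟨b, hb⟩ := Option.ne_none_iff_exists'.1 hx
      obtain ⟨p, hp, h⟩ := (un_c hD).1 hb
      refine mem_iUnion.2 ⟨⟨p, hp⟩, ?_⟩
      show p.1.c x.1 x.2 ≠ none
      rw [h]
      simp
    · exact (mk_iUnion_le_sum_mk).trans_lt
        (Cardinal.sum_lt_of_isRegular hreg hc fun p => p.1.2.small.c)
  · refine lt_of_le_of_lt (mk_le_mk_of_subset
      (t := ⋃ p : D, {x : T × K | p.1.1.st x.1 x.2 ≠ none}) ?_) ?_
    · intro x hx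
      obtain ⟨b, hb⟩ := Option.ne_none_iff_exists'.1 hx
      obtain ⟨p, hp, h⟩ := (un_st hD).1 hb
      refine mem_iUnion.2 ⟨⟨p, hp⟩, ?_⟩
      show p.1.st x.1 x.2 ≠ none
      rw [h]
      simp
    · exact (mk_iUnion_le_sum_mk).trans_lt
        (Cardinal.sum_lt_of_isRegular hreg hc fun p => p.1.2.small.st)
  · refine lt_of_le_of_lt (mk_le_mk_of_subset (t := ⋃ p : D, p.1.1.pr) ?_) ?_
    · rintro x ⟨p, hp, hx⟩
      exact mem_iUnion.2 ⟨⟨p, hp⟩, hx⟩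
    · exact (mk_iUnion_le_sum_mk).trans_lt
        (Cardinal.sum_lt_of_isRegular hreg hc fun p => p.1.2.small.pr)

lemma un_le_of (hD : ∀ a ∈ D, ∀ b ∈ D, ∃ c ∈ D, c ≤ a ∧ c ≤ b) {p : Fo K S T} (hp : p ∈ D)
    (h : ∀ x ∈ p.1.pr, ∀ r ∈ D, Cle ((un D).res x.1) (r.1.res x.1)) : Cle (un D) p.1 := by
  refine ⟨fun α k b h1 => (un_c hD).2 ⟨p, hp, h1⟩, fun t k b h1 => (un_st hD).2 ⟨p, hp, h1⟩,
    fun x hx => ⟨p, hp, hx⟩, fun x hx k b h1 h2 => ?_⟩
  obtain ⟨q, hq, hqb⟩ := (un_st hD).1 h2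
  obtain ⟨r, hr, hrp, hrq⟩ := hD p hp q hq
  exact (hrp.new x hx k b h1 (hrq.st _ _ _ hqb)).mono (h x hx r hr)

lemma un_res_le (hD : ∀ a ∈ D, ∀ b ∈ D, ∃ c ∈ D, c ≤ a ∧ c ≤ b) (t : T) :
    ∀ r ∈ D, Cle ((un D).res t) (r.1.res t) := by
  induction t using (wellFounded_lt (α := T)).induction with
  | _ t ih =>
    intro p hp
    refine ⟨fun α k b h1 => (un_c hD).2 ⟨p, hp, h1⟩, fun s k b h1 => ?_,
      fun x hx => ⟨⟨p, hp, hx.1⟩, hx.2⟩, fun x hx k b h1 h2 => ?_⟩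
    · obtain ⟨h2, h3⟩ := res_st_some.1 h1
      exact res_st_some.2 ⟨h2, (un_st hD).2 ⟨p, hp, h3⟩⟩
    · rw [res_st_lt _ hx.2] at h1 h2
      obtain ⟨q, hq, hqb⟩ := (un_st hD).1 h2
      obtain ⟨r, hr, hrp, hrq⟩ := hD p hp q hq
      rw [res_res hx.2.le]
      exact (hrp.new x hx.1 k b h1 (hrq.st _ _ _ hqb)).mono (ih x.1 hx.2 r hr)

/-- The forcing is directed closed. -/
theorem dirClosed (hreg : (#K).IsRegular) : DirClosed #K (Fo K S T) := by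
  intro D _ hc hD
  refine ⟨⟨un D, un_small hreg hD hc, ?_⟩, fun p hp => un_le_of hD hp
    fun x _ => un_res_le hD x.1⟩
  rintro x ⟨p, _, hx⟩
  exact p.2.pr x hx

end Pool.PU
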