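import Pool.Agent.Lib.MP_54c436_pu.VD

/-!
# PU, V-side, row VA2: stages and amalgams
-/

set_option autoImplicit false
set_option linter.unusedSectionVars false

open Cardinal Set

namespace Pool.PU

variable {K S T : Type} [LinearOrder K] [LinearOrder T]

/-- The part of `q` below `t` together with the part of `p` from `t` on. -/
def amal (t : T) (q p : Cnd K S T) : Cnd K S T :=
  ⟨q.c, fun s k => if s < t then q.st s k else p.st s k, {x | x ∈ q.pr ∧ x.1 < t} ∪ p.pr⟩

lemma amal_st_lt {t s : T} (h : s < t) (q p : Cnd K S T) (k : K) :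
    (amal t q p).st s k = q.st s k := if_pos h

lemma amal_st_ge {t s : T} (h : t ≤ s) (q p : Cnd K S T) (k : K) :
    (amal t q p).st s k = p.st s k := if_neg (not_lt.2 h)

lemma amal_res {t : T} {q p : Cnd K S T} (h : Cle (q.res t) (p.res t)) :
    (amal t q p).res t = q.res t := by
  refine Cnd.ext rfl ?_ ?_
  · funext s k
    rw [res_st, res_st]
    split_ifs with h1
    · exact amal_st_lt h1 q p k
    · rfl
  · ext x
    rw [mem_res_pr, mem_res_pr]
    constructor
    · rintro ⟨h1 | h1, h2⟩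
      · exact h1
      · exact h.pr ⟨h1, h2⟩
    · rintro ⟨h1, h2⟩
      exact ⟨Or.inl ⟨h1, h2⟩, h2⟩

lemma amal_le_right {t : T} {q p : Cnd K S T} (h : Cle (q.res t) (p.res t)) :
    Cle (amal t q p) p := by
  refine ⟨h.c, fun s k b h1 => ?_, fun x hx => Or.inr hx, fun x hx k b h1 h2 => ?_⟩
  · rcases lt_or_ge s t with h2 | h2
    · rw [amal_st_lt h2]
      exact (res_st_some.1 (h.st s k b (res_st_some.2 ⟨h2, h1⟩))).2
    · rw [amal_st_ge h2]
      exact h1
  · rcases lt_or_ge x.1 t with h3 | h3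
    · rw [amal_st_lt h3] at h2
      have h4 := h.new x ⟨hx, h3⟩ k b (by rw [res_st_lt p h3]; exact h1)
        (by rw [res_st_lt q h3]; exact h2)
      have h5 : (amal t q p).res x.1 = (q.res t).res x.1 := by
        rw [← amal_res h, res_res h3.le, ]
      rw [h5]
      exact h4
    · rw [amal_st_ge h3, h1] at h2
      exact absurd h2 (by simp)

lemma amal_le_left {t : T} {q p : Cnd K S T} (h : Cle (q.res t) (p.res t)) :
    Cle (amal t q p) (q.res t) := by
  have h1 := cle_res (amal t q p) t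
  rwa [amal_res h] at h1

lemma Cnd.Small.res {p : Cnd K S T} (h : p.Small) (t : T) : (p.res t).Small := by
  refine ⟨h.c, lt_of_le_of_lt (mk_le_mk_of_subset ?_) h.st,
    lt_of_le_of_lt (mk_le_mk_of_subset ?_) h.pr⟩
  · intro x hx
    have hx' : (p.res t).st x.1 x.2 ≠ none := hx
    show p.st x.1 x.2 ≠ none
    rw [res_st] at hx'
    split_ifs at hx' with h1
    · exact hx'
    · exact absurd rfl hx'
  · intro x hx
    exact hx.1

variable [WellFoundedLT T]

lemma Leg.res {p : Cnd K S T} (h : Leg p) (t : T) : Leg (p.res t) :=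
  ⟨h.small.res t, fun x hx => h.pr x hx.1⟩

lemma Leg.stg {p : Cnd K S T} (h : Leg p) (t : T) : Stg LegN t (p.res t) := by
  refine ⟨h.small.res t, fun s k hs => ?_, fun x hx => ⟨hx.2, h.pr x hx.1⟩⟩
  by_contra h1
  rw [res_st, if_neg h1] at hs
  exact hs rfl

lemma Stg.leg {p : Cnd K S T} {t : T} (h : Stg LegN t p) : Leg p :=
  ⟨h.small, fun x hx => (h.pr x hx).2⟩

lemma Stg.res_eq {p : Cnd K S T} {t : T} (h : Stg LegN t p) : p.res t = p := by
  refine Cnd.ext rfl ?_ ?_
  · funext s k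
    rw [res_st]
    split_ifs with h1
    · rfl
    · by_contra h2
      exact h1 (h.st s k (fun h3 => h2 h3.symm))
  · ext x
    exact ⟨fun hx => hx.1, fun hx => ⟨hx, (h.pr x hx).1⟩⟩

lemma Stg.mono {L : T → Nm K S T → Prop} {p : Cnd K S T} {t t' : T} (h : Stg L t p) (ht : t ≤ t') :
    Stg L t' p :=
  ⟨h.small, fun s k hs => (h.st s k hs).trans_le ht, fun x hx =>
    ⟨(h.pr x hx).1.trans_le ht, (h.pr x hx).2⟩⟩

lemma amal_leg (hK : ℵ₀ ≤ #K) {t : T} {q p : Cnd K S T} (hq : Leg q) (hp : Leg p) :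
    Leg (amal t q p) := by
  refine ⟨⟨hq.small.c, ?_, ?_⟩, ?_⟩
  · refine lt_of_le_of_lt (mk_le_mk_of_subset
      (t := {x : T × K | q.st x.1 x.2 ≠ none} ∪ {x : T × K | p.st x.1 x.2 ≠ none}) ?_) ?_
    · intro x hx
      have hx' : (amal t q p).st x.1 x.2 ≠ none := hx
      rcases lt_or_ge x.1 t with h1 | h1
      · rw [amal_st_lt h1] at hx'
        exact Or.inl hx'
      · rw [amal_st_ge h1] at hx'
        exact Or.inr hx'
    · exact (mk_union_le _ _).trans_lt (add_lt_of_lt hK hq.small.st hp.small.st)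
  · refine (mk_union_le _ _).trans_lt (add_lt_of_lt hK ?_ hp.small.pr)
    exact lt_of_le_of_lt (mk_le_mk_of_subset fun x hx => hx.1) hq.small.pr
  · rintro x (hx | hx)
    · exact hq.pr x hx.1
    · exact hp.pr x hx

/-- A legal name at work: below every condition `p` there is one below `n.cnd i j`, for some `j`,
which differs from `p` only below `t`. -/
theorem exists_frc (hK : ℵ₀ ≤ #K) {t : T} {n : Nm K S T} (hn : LegN t n) (i : K)
    (p : Fo K S T) : ∃ q ≤ p, (∃ w, Frc n (q.1.res t) i w) ∧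
      (∀ s ≥ t, ∀ k, q.1.st s k = p.1.st s k) ∧ ∀ x ∈ q.1.pr, x ∈ p.1.pr ∨ x.1 < t := by
  obtain ⟨j, r, hr, h1, h2⟩ := ((legN_iff t n).1 hn).dense i (p.1.res t) (p.2.stg t)
  have h3 : Cle (r.res t) (p.1.res t) := by rwa [hr.res_eq]
  refine ⟨⟨amal t r p.1, amal_leg hK hr.leg p.2⟩, amal_le_right h3, ⟨n.val i j, ?_⟩, ?_, ?_⟩
  · show Frc n ((amal t r p.1).res t) i (n.val i j)
    rw [amal_res h3, hr.res_eq]
    exact (frc_iff _ _ _ _).2 ⟨j, le_rfl, h2⟩
  · intro s hs k
    exact amal_st_ge hs _ _ _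
  · rintro x (hx | hx)
    · exact Or.inr hx.2
    · exact Or.inl hx

end Pool.PU
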