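import Pool.Agent.Lib.MP_54c436_pu.VA1
import Pool.Agent.Lib.MP_54c436_pu.VA2
/-!
# PU, V-side, row VA3: the dominating functions are total
-/


set_option autoImplicit false
set_option linter.unusedSectionVars false
open Cardinal Set
namespace Pool.PU
open Pool.CF
variable {K S T : Type} [LinearOrder K] [WellFoundedLT K] [LinearOrder T] [WellFoundedLT T]
/-- A new entry of a stem. -/
noncomputable def addSt (p : Cnd K S T) (t : T) (i w : K) : Cnd K S T := by
  classical
  exact ⟨p.c, fun s k => if s = t ∧ k = i then some w else p.st s k, p.pr⟩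

/-- A new entry of the Cohen part. -/
noncomputable def addC (p : Cnd K S T) (α : S) (k : K) (b : Bool) : Cnd K S T := by
  classical
  exact ⟨fun β l => if β = α ∧ l = k then some b else p.c β l, p.st, p.pr⟩

private lemma VA3_st_eq (p : Cnd K S T) (t : T) (i w : K) : (addSt p t i w).st t i = some w := by
  classical
  show (if t = t ∧ i = i then some w else p.st t i) = some w
  rw [if_pos ⟨rfl, rfl⟩]

private lemma VA3_st_ne (p : Cnd K S T) (t : T) (i w : K) {s : T} {k : K} (h : ¬ (s = t ∧ k = i)) :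
    (addSt p t i w).st s k = p.st s k := by
  classical
  show (if s = t ∧ k = i then some w else p.st s k) = p.st s k
  rw [if_neg h]

private lemma VA3_c_eq (p : Cnd K S T) (α : S) (k : K) (b : Bool) :
    (addC p α k b).c α k = some b := by
  classical
  show (if α = α ∧ k = k then some b else p.c α k) = some b
  rw [if_pos ⟨rfl, rfl⟩]

private lemma VA3_c_ne (p : Cnd K S T) (α : S) (k : K) (b : Bool) {β : S} {l : K}
    (h : ¬ (β = α ∧ l = k)) : (addC p α k b).c β l = p.c β l := by
  classical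
  show (if β = α ∧ l = k then some b else p.c β l) = p.c β l
  rw [if_neg h]

/-- Row VA3a. -/
theorem addSt_le (hK : ℵ₀ ≤ #K) (p : Fo K S T) (t : T) (i w : K) (h : p.1.st t i = none)
    (hf : ∀ x ∈ p.1.pr, x.1 = t → Frc x.2 (p.1.res t) i w) :
    ∃ q : Fo K S T, q ≤ p ∧ q.1 = addSt p.1 t i w := by
  have hres : (addSt p.1 t i w).res t = p.1.res t := by
    refine Cnd.ext rfl ?_ rfl
    funext s k
    rw [res_st, res_st]
    split_ifs with h1
    · exact VA3_st_ne _ _ _ _ fun h2 => h1.ne h2.1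
    · rfl
  refine ⟨⟨addSt p.1 t i w, ⟨p.2.small.c, ?_, p.2.small.pr⟩, p.2.pr⟩,
    ⟨fun _ _ _ h1 => h1, fun s k b h1 => ?_, Subset.rfl, fun x hx k b h1 h2 => ?_⟩, rfl⟩
  · refine lt_of_le_of_lt (mk_le_mk_of_subset
      (t := {x : T × K | p.1.st x.1 x.2 ≠ none} ∪ {(t, i)}) ?_) ?_
    · rintro ⟨s, k⟩ hx
      by_cases h1 : s = t ∧ k = i
      · refine Or.inr ?_
        rw [h1.1, h1.2]
        exact mem_singleton _
      · refine Or.inl ?_
        have h2 : (addSt p.1 t i w).st s k ≠ none := hx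
        rw [VA3_st_ne _ _ _ _ h1] at h2
        exact h2
    · refine (mk_union_le _ _).trans_lt (add_lt_of_lt hK p.2.small.st ?_)
      rw [mk_singleton]
      exact one_lt_aleph0.trans_le hK
  · show (addSt p.1 t i w).st s k = some b
    rw [VA3_st_ne, h1]
    rintro ⟨rfl, rfl⟩
    rw [h] at h1
    exact absurd h1 (by simp)
  · have h3 : (addSt p.1 t i w).st x.1 k = some b := h2
    by_cases h4 : x.1 = t ∧ k = i
    · obtain ⟨h5, rfl⟩ := h4
      rw [h5, VA3_st_eq] at h3
      obtain rfl := Option.some_injective _ h3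
      show Frc x.2 ((addSt p.1 t k w).res x.1) k w
      rw [h5, hres]
      exact hf x hx h5
    · rw [VA3_st_ne _ _ _ _ h4, h1] at h3
      exact absurd h3 (by simp)

/-- Row VA3b. -/
theorem addC_le (hK : ℵ₀ ≤ #K) (p : Fo K S T) (α : S) (k : K) (b : Bool)
    (h : p.1.c α k = none) : ∃ q : Fo K S T, q ≤ p ∧ q.1 = addC p.1 α k b := by
  refine ⟨⟨addC p.1 α k b, ⟨?_, p.2.small.st, p.2.small.pr⟩, p.2.pr⟩,
    ⟨fun β l b' h1 => ?_, fun _ _ _ h1 => h1, Subset.rfl, fun x hx l b' h1 h2 => ?_⟩, rfl⟩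
  · refine lt_of_le_of_lt (mk_le_mk_of_subset
      (t := {x : S × K | p.1.c x.1 x.2 ≠ none} ∪ {(α, k)}) ?_) ?_
    · rintro ⟨β, l⟩ hx
      by_cases h1 : β = α ∧ l = k
      · refine Or.inr ?_
        rw [h1.1, h1.2]
        exact mem_singleton _
      · refine Or.inl ?_
        have h2 : (addC p.1 α k b).c β l ≠ none := hx
        rw [VA3_c_ne _ _ _ _ h1] at h2
        exact h2
    · refine (mk_union_le _ _).trans_lt (add_lt_of_lt hK p.2.small.c ?_)
      rw [mk_singleton]
      exact one_lt_aleph0.trans_le hK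
  · show (addC p.1 α k b).c β l = some b'
    rw [VA3_c_ne, h1]
    rintro ⟨rfl, rfl⟩
    rw [h] at h1
    exact absurd h1 (by simp)
  · have h3 : p.1.st x.1 l = some b' := h2
    rw [h1] at h3
    exact absurd h3 (by simp)

/-- Row VA3c.  If `p.st t i = none`: for the promises `x ∈ p.pr` with `x.1 = t` (fewer than `#K`)
the sets `A x = {q | (∃ w, Frc x.2 (q.res t) i w)}` are dense open below `p` (`exists_frc`), so
`dc_inter` gives `q ≤ p` in all of them; let `r = amal t q p` (it has no new promises at `t`, and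
`r.st t i = none`), `w` = a common bound of the values (`bdd_of_small`, `Frc` is monotone in `w`),
and use `addSt_le`. -/
theorem total (hreg : (#K).IsRegular) (hinit : ∀ a : K, #(Iio a) < #K) (t : T) (i : K)
    (p : Fo K S T) : ∃ q ≤ p, ∃ w, q.1.st t i = some w := by
  classical
  have hK : ℵ₀ ≤ #K := hreg.aleph0_le
  cases hsti : p.1.st t i with
  | some w => exact ⟨p, le_rfl, w, hsti⟩
  | none =>
    -- the promises at `t`
    let J : Type := {x : T × Nm K S T // x ∈ p.1.pr ∧ x.1 = t}
    have hJ : #J < #K := lt_of_le_of_lt (mk_le_mk_of_subset (fun x hx => hx.1)) p.2.small.pr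
    have hleg : ∀ j : J, LegN t j.1.2 := by
      rintro ⟨⟨s, n⟩, h1, h2⟩
      have h3 := p.2.pr _ h1
      have h4 : s = t := h2
      subst h4
      exact h3
    obtain ⟨q, hqp, hq⟩ := dc_inter (dirClosed (K := K) (S := S) (T := T) hreg) hJ
      (fun j => {q : Fo K S T | ∃ w, Frc j.1.2 (q.1.res t) i w})
      (by
        rintro j q ⟨w, hw⟩ r hr
        exact ⟨w, hw.mono (Cle.res hr t)⟩) p
      (by
        intro j q _
        obtain ⟨r, hr, h1, -, -⟩ := exists_frc hK (hleg j) i q
        exact ⟨r, hr, h1⟩)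
    choose w hw using hq
    obtain ⟨b, hb⟩ := bdd_of_small hreg hinit (range w) (mk_range_le.trans_lt hJ)
    have h0 : Cle (q.1.res t) (p.1.res t) := Cle.res hqp t
    let r : Fo K S T := ⟨amal t q.1 p.1, amal_leg hK q.2 p.2⟩
    have hrp : r ≤ p := amal_le_right h0
    have hr1 : r.1.st t i = none := (amal_st_ge le_rfl _ _ _).trans hsti
    have hr2 : r.1.res t = q.1.res t := amal_res h0
    obtain ⟨q', h1, h2⟩ := addSt_le hK r t i b hr1 (by
      rintro x hx hxt
      have hxp : x ∈ p.1.pr := by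
        rcases hx with h | h
        · exact absurd hxt h.2.ne
        · exact h
      have h3 := hw ⟨x, hxp, hxt⟩
      rw [hr2]
      obtain ⟨j, hj, hj'⟩ := (frc_iff _ _ _ _).1 h3
      exact (frc_iff _ _ _ _).2 ⟨j, hj.trans (hb _ ⟨_, rfl⟩).le, hj'⟩)
    refine ⟨q', h1.trans hrp, b, ?_⟩
    rw [h2]
    exact if_pos ⟨rfl, rfl⟩

end Pool.PU
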