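import Pool.Agent.Lib.MP_54c436_pu.VA2
import Pool.Agent.Lib.MP_54c436_pu.VA4
/-!
# PU, V-side, row VA5: names of functions
-/


set_option autoImplicit false
set_option linter.unusedSectionVars false
open Cardinal Set
namespace Pool.PU
variable {K S T : Type} [LinearOrder K] [WellFoundedLT K] [LinearOrder T] [WellFoundedLT T]
private theorem VA5a_code (p : Fo K S T) : ∃ (tg : K → Option T) (ch : K → Nm K S T),
    p.1.pr = {x | ∃ l, tg l = some x.1 ∧ x.2 = ch l} := by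
  classical
  have h : #p.1.pr ≤ #K := p.2.small.pr.le
  obtain ⟨f⟩ : Nonempty (p.1.pr ↪ K) := Cardinal.le_def _ _ |>.1 h
  refine ⟨fun l => if h : ∃ x : p.1.pr, f x = l then some h.choose.1.1 else none,
    fun l => if h : ∃ x : p.1.pr, f x = l then h.choose.1.2 else .idn, ?_⟩
  ext x
  constructor
  · intro hx
    have h1 : ∃ y : p.1.pr, f y = f ⟨x, hx⟩ := ⟨⟨x, hx⟩, rfl⟩
    have h2 : h1.choose = ⟨x, hx⟩ := f.injective h1.choose_spec
    refine ⟨f ⟨x, hx⟩, ?_, ?_⟩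
    · show (if h : ∃ y : p.1.pr, f y = f ⟨x, hx⟩ then some h.choose.1.1 else none) = _
      rw [dif_pos h1, h2]
    · show _ = (if h : ∃ y : p.1.pr, f y = f ⟨x, hx⟩ then h.choose.1.2 else .idn)
      rw [dif_pos h1, h2]
  · rintro ⟨l, h1, h2⟩
    have h1' : (if h : ∃ y : p.1.pr, f y = l then some h.choose.1.1 else none) = some x.1 := h1
    have h2' : x.2 = (if h : ∃ y : p.1.pr, f y = l then h.choose.1.2 else .idn) := h2
    by_cases h3 : ∃ y : p.1.pr, f y = l
    · rw [dif_pos h3] at h1' h2'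
      have h4 : x = h3.choose.1 := Prod.ext (Option.some_injective _ h1').symm h2'
      rw [h4]
      exact h3.choose.2
    · rw [dif_neg h3] at h1'
      exact absurd h1' (by simp)

/-- Row VA5a: a name with given conditions. -/
theorem exists_nm [Nonempty K] (a : K → K → Fo K S T) (v : K → K → K) :
    ∃ n : Nm K S T, (∀ i j, n.cnd i j = (a i j).1) ∧ ∀ i j, n.val i j = v i j := by
  choose tg ch h using fun i j => VA5a_code (a i j)
  refine ⟨.mk (fun i j => ⟨(a i j).1.c, (a i j).1.st⟩) v tg ch, fun i j => ?_, fun i j => rfl⟩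
  exact Cnd.ext rfl rfl (h i j).symm

/-- The empty condition. -/
def VA5emp (K S T : Type) [LinearOrder K] [LinearOrder T] [WellFoundedLT T] [Nonempty K] :
    Fo K S T :=
  ⟨⟨fun _ _ => none, fun _ _ => none, ∅⟩, ⟨⟨by
    have h : {x : S × K | (fun (_ : S) (_ : K) => (none : Option Bool)) x.1 x.2 ≠ none} = ∅ := by
      ext x
      simp
    rw [h, mk_eq_zero]
    exact pos_iff_ne_zero.2 (mk_ne_zero K), by
    have h : {x : T × K | (fun (_ : T) (_ : K) => (none : Option K)) x.1 x.2 ≠ none} = ∅ := by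
      ext x
      simp
    rw [h, mk_eq_zero]
    exact pos_iff_ne_zero.2 (mk_ne_zero K), by
    rw [mk_eq_zero]
    exact pos_iff_ne_zero.2 (mk_ne_zero K)⟩, fun x hx => absurd hx (notMem_empty x)⟩⟩

/-- Row VA5b.  `predense` for the sets `⋃ w, G i w`, enumerated by `K` (the predense sets are
nonempty as `Fo` is nonempty); `t₀` is above the supports of all `a i j`
(`bdd_of_small` for `T`: there are at most `#K < #T` many coordinates). -/
theorem exists_name [Hyp K S T] (G : K → K → Set (Fo K S T))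
    (hd : ∀ i p, ∃ q ≤ p, ∃ w, q ∈ G i w) (hG : ∀ i w, ∀ p ∈ G i w, ∀ q ≤ p, q ∈ G i w) :
    ∃ (n : Nm K S T) (t₀ : T), (∀ t ≥ t₀, LegN t n) ∧
      ∀ i j, ∀ q : Fo K S T, Cle q.1 (n.cnd i j) → q ∈ G i (n.val i j) := by
  have hH : Hyp K S T := inferInstance
  have hK := hH.reg.aleph0_le
  haveI : Nonempty K := mk_ne_zero_iff.1 (fun h => by
    rw [h] at hK
    exact absurd hK (not_le.2 aleph0_pos))
  -- predense sets
  have h1 := fun i => predense hH.reg hH.sl {q : Fo K S T | ∃ w, q ∈ G i w}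
    (fun p => by
      obtain ⟨q, hq, w, hw⟩ := hd i p
      exact ⟨q, hq, w, hw⟩)
  choose A hAG hAc hAp using h1
  have h2 : ∀ i, ∃ f : K → Fo K S T, (∀ j, f j ∈ A i) ∧ ∀ a ∈ A i, ∃ j, f j = a := by
    intro i
    obtain ⟨a₀, ha₀, -⟩ := hAp i (VA5emp K S T)
    haveI : Nonempty (A i) := ⟨⟨a₀, ha₀⟩⟩
    obtain ⟨e⟩ := (le_def _ _).1 (hAc i)
    refine ⟨fun j => (Function.invFun e j).1, fun j => (Function.invFun e j).2, fun a ha =>
      ⟨e ⟨a, ha⟩, ?_⟩⟩
    show (Function.invFun e (e ⟨a, ha⟩)).1 = a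
    rw [Function.leftInverse_invFun e.injective]
  choose a ha hasurj using h2
  have h3 : ∀ i j, ∃ w, a i j ∈ G i w := fun i j => hAG i (ha i j)
  choose v hv using h3
  obtain ⟨n, hn1, hn2⟩ := exists_nm a v
  -- the bound of the supports
  obtain ⟨t₀, ht₀⟩ := bdd_of_small (K := T) hH.T_reg hH.T_init
    (⋃ i : K, ⋃ j : K, (a i j).1.supp) (by
      refine lt_of_le_of_lt ?_ (hH.S_gt.trans hH.S_lt)
      refine (mk_iUnion_le_sum_mk).trans ((sum_le_sum _ (fun _ => #K) fun i => ?_).trans ?_)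
      · refine (mk_iUnion_le_sum_mk).trans ((sum_le_sum _ (fun _ => #K) fun j =>
          (VA4_supp hK (a i j).2.small).le).trans ?_)
        rw [sum_const', mul_eq_self hK]
      · rw [sum_const', mul_eq_self hK])
  have hsup : ∀ i j, ∀ s ∈ (a i j).1.supp, s < t₀ := fun i j s hs =>
    ht₀ s (mem_iUnion.2 ⟨i, mem_iUnion.2 ⟨j, hs⟩⟩)
  refine ⟨n, t₀, fun t ht => (legN_iff t n).2 ⟨fun i j => ?_, fun i q hq => ?_⟩,
    fun i j q hq => ?_⟩
  · rw [hn1]
    refine ⟨(a i j).2.small, fun s k hs => (hsup i j s (Or.inl ⟨k, hs⟩)).trans_le ht, ?_⟩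
    rintro ⟨s, m⟩ hx
    exact ⟨(hsup i j s (Or.inr ⟨m, hx⟩)).trans_le ht, (a i j).2.pr _ hx⟩
  · obtain ⟨b, hb, r, hr1, hr2⟩ := hAp i ⟨q, hq.leg⟩
    obtain ⟨j, rfl⟩ := hasurj i b hb
    refine ⟨j, r.1.res t, r.2.stg t, ?_, ?_⟩
    · have h4 : Cle (r.1.res t) (q.res t) := Cle.res (show Cle r.1 q from hr1) t
      rwa [hq.res_eq] at h4
    · rw [hn1]
      have h4 : Cle (r.1.res t) ((a i j).1.res t) := Cle.res (show Cle r.1 (a i j).1 from hr2) t
      have h5 : (a i j).1.res t = (a i j).1 := by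
        refine Stg.res_eq (t := t) ⟨(a i j).2.small, fun s k hs =>
          (hsup i j s (Or.inl ⟨k, hs⟩)).trans_le ht, ?_⟩
        rintro ⟨s, m⟩ hx
        exact ⟨(hsup i j s (Or.inr ⟨m, hx⟩)).trans_le ht, (a i j).2.pr _ hx⟩
      rwa [h5] at h4
  · rw [hn1] at hq
    rw [hn2]
    exact hG i (v i j) _ (hv i j) q hq

end Pool.PU
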