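import Pool.Agent.Lib.MP_54c436_pu.VA3
import Pool.Agent.Lib.MP_54c436_pu.VA5
/-!
# PU, V-side, row VA6: domination
-/


set_option autoImplicit false
set_option linter.unusedSectionVars false
open Cardinal Set
namespace Pool.PU
open Pool.CF
variable {K S T : Type} [LinearOrder K] [WellFoundedLT K] [LinearOrder T] [WellFoundedLT T]
/-- Row VA6a: adding a promise. -/
theorem addPr (hK : ℵ₀ ≤ #K) (p : Fo K S T) (t : T) (n : Nm K S T) (hn : LegN t n) :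
    ∃ q : Fo K S T, q ≤ p ∧ (t, n) ∈ q.1.pr ∧ q.1.st = p.1.st := by
  refine ⟨⟨⟨p.1.c, p.1.st, insert (t, n) p.1.pr⟩, ⟨p.2.small.c, p.2.small.st, ?_⟩, ?_⟩,
    ⟨fun _ _ _ h => h, fun _ _ _ h => h, subset_insert _ _, fun x _ k b h1 h2 => ?_⟩,
    mem_insert _ _, rfl⟩
  · refine Cardinal.mk_insert_le.trans_lt ?_
    exact add_lt_of_lt hK p.2.small.pr (one_lt_aleph0.trans_le hK)
  · rintro x (rfl | hx)
    · exact hn
    · exact p.2.pr x hx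
  · have h3 : p.1.st x.1 k = some b := h2
    rw [h1] at h3
    exact absurd h3 (by simp)

/-- Row VA6b.  Names `n ξ` and stages `t₀ ξ` from `exists_name`; `t` = a bound of the `t₀ ξ`
(`bdd_of_small`, `#S < #T`).  For `p` add the promise `(t, n ξ)`, `i₀` above the domain of
`p.st t`.  If `r ≤ q`, `i > i₀`: by `total` we may assume `r.st t i = some b`, a new entry, so
`Frc (n ξ) (r.res t) i b`. -/
theorem dominate [Hyp K S T] (G : S → K → K → Set (Fo K S T))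
    (hd : ∀ ξ i p, ∃ q ≤ p, ∃ w, q ∈ G ξ i w)
    (hG : ∀ ξ i w, ∀ p ∈ G ξ i w, ∀ q ≤ p, q ∈ G ξ i w) :
    ∃ t : T, ∀ ξ p, ∃ q ≤ p, ∃ i₀, ∀ i, i₀ < i → ∀ r ≤ q, ∃ r' ≤ r, ∃ a b, a ≤ b ∧
      r' ∈ G ξ i a ∧ r'.1.st t i = some b := by
  have hH : Hyp K S T := inferInstance
  have hK := hH.reg.aleph0_le
  have h1 := fun ξ => exists_name (G ξ) (hd ξ) (hG ξ)
  choose n t₀ hn hnG using h1
  obtain ⟨t, ht⟩ := bdd_of_small (K := T) hH.T_reg hH.T_init (range t₀)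
    (mk_range_le.trans_lt hH.S_lt)
  refine ⟨t, fun ξ p => ?_⟩
  have hle : LegN t (n ξ) := hn ξ t (ht _ ⟨ξ, rfl⟩).le
  obtain ⟨q, hqp, hqn, hqst⟩ := addPr hK p t (n ξ) hle
  -- the domain of the stem is bounded
  obtain ⟨i₀, hi₀⟩ := bdd_of_small (K := K) hH.reg hH.init {i | p.1.st t i ≠ none} (by
    refine lt_of_le_of_lt ?_ p.2.small.st
    refine mk_le_of_injective (f := fun i : {i | p.1.st t i ≠ none} =>
      (⟨(t, i.1), i.2⟩ : {x : T × K | p.1.st x.1 x.2 ≠ none})) fun i j e => ?_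
    exact Subtype.ext (congrArg (fun z => z.1.2) e))
  refine ⟨q, hqp, i₀, fun i hi r hr => ?_⟩
  obtain ⟨r', hr', b, hb⟩ := total hH.reg hH.init t i r
  have h2 : q.1.st t i = none := by
    rw [hqst]
    by_contra h3
    exact absurd (hi₀ i h3) (not_lt.2 hi.le)
  have h3 : Cle r'.1 q.1 := (show r' ≤ q from hr'.trans hr)
  have h4 : Frc (n ξ) (r'.1.res t) i b := h3.new (t, n ξ) hqn i b h2 hb
  obtain ⟨j, hj1, hj2⟩ := (frc_iff _ _ _ _).1 h4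
  exact ⟨r', hr', (n ξ).val i j, b, hj1, hnG ξ i j r' ((cle_res r'.1 t).trans hj2), hb⟩

/-- Row VA6c.  `G ξ i w = {p | (no r ≤ p is ≤ p₀) or p ∈ C ξ j for some j with i < j ≤ w}`;
`E k = {p | for all i < k: for all q ≤ p there are r ≤ q and w < k with r.st t i = some w}`.
`E` is unbounded by `clo` (for `{p | p.st t i = some w}`, dense by `total`). -/
theorem pint [Hyp K S T] (C : S → K → Set (Fo K S T)) (hC : ∀ ξ k, RegOpen (C ξ k))
    (p₀ : Fo K S T) (h : ∀ ξ, ∀ q ≤ p₀, ∀ γ, ∃ r ≤ q, ∃ k, γ < k ∧ r ∈ C ξ k) :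
    ∃ E : K → Set (Fo K S T), (∀ k, RegOpen (E k)) ∧
      (∀ q ≤ p₀, ∀ γ, ∃ r ≤ q, ∃ k, γ < k ∧ r ∈ E k) ∧
      ∀ ξ, ∀ q ≤ p₀, ∃ r ≤ q, ∃ i₀, ∀ k, i₀ < k → ∀ r' ≤ r, r' ∈ E k → ∀ i < k, ∀ s ≤ r',
        ∃ s' ≤ s, ∃ j, i < j ∧ j < k ∧ s' ∈ C ξ j := by
  have hreg : (#K).IsRegular := Hyp.reg (K := K) (S := S) (T := T)
  have hunc : ℵ₀ < #K := Hyp.unc (K := K) (S := S) (T := T)
  have hinit : ∀ a : K, #(Iio a) < #K := Hyp.init (K := K) (S := S) (T := T)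
  obtain ⟨t, ht⟩ := dominate (K := K) (S := S) (T := T)
    (fun ξ i w => {p | (∀ r ≤ p, ¬ r ≤ p₀) ∨ ∃ j, i < j ∧ j ≤ w ∧ p ∈ C ξ j})
    (by
      intro ξ i p
      by_cases hp : ∃ r ≤ p, r ≤ p₀
      · obtain ⟨r, hrp, hr0⟩ := hp
        obtain ⟨r', hr', k, hk, hrk⟩ := h ξ r hr0 i
        exact ⟨r', hr'.trans hrp, k, Or.inr ⟨k, hk, le_rfl, hrk⟩⟩
      · push Not at hp
        exact ⟨p, le_rfl, i, Or.inl hp⟩)
    (by
      rintro ξ i w p (hp | ⟨j, hij, hjw, hp⟩) q hqp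
      · exact Or.inl fun r hr => hp r (hr.trans hqp)
      · exact Or.inr ⟨j, hij, hjw, (hC ξ j).1 p hp q hqp⟩)
  refine ⟨fun k => {p | ∀ i < k, ∀ q ≤ p, ∃ r ≤ q, ∃ w < k, r.1.st t i = some w}, ?_, ?_, ?_⟩
  · intro k
    constructor
    · intro p hp q hqp i hi q' hq'
      exact hp i hi q' (hq'.trans hqp)
    · intro p hp i hi q hqp
      obtain ⟨r, hrq, hr⟩ := hp q hqp
      obtain ⟨r', hr', w, hw, h1⟩ := hr i hi r le_rfl
      exact ⟨r', hr'.trans hrq, w, hw, h1⟩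
  · intro q _ γ
    obtain ⟨r, hrq, δ, hγ, h1⟩ := clo (P := Fo K S T) hreg hunc hinit (dirClosed hreg)
      (fun i w => {p | p.1.st t i = some w}) (fun i w p hp q' hq' => hq'.st _ _ _ hp) q
      (fun i q' _ => total hreg hinit t i q') γ
    refine ⟨r, hrq, δ, hγ, ?_⟩
    intro i hi q' hq'
    obtain ⟨w, hw, h2⟩ := h1 i hi
    exact ⟨q', le_rfl, w, hw, hq'.st _ _ _ h2⟩
  · intro ξ q hq
    obtain ⟨r, hrq, i₀, h1⟩ := ht ξ q
    obtain ⟨i₁, h2⟩ := bdd_of_small hreg hinit ({i₀} : Set K) (by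
      rw [mk_singleton]
      exact one_lt_aleph0.trans hunc)
    have h01 : i₀ < i₁ := h2 i₀ rfl
    refine ⟨r, hrq, i₁, ?_⟩
    intro k hk r' hr' hr'E i hi s hs
    have hmax : max i i₁ < k := max_lt hi hk
    obtain ⟨r₂, hr₂, w, hw, h3⟩ := hr'E (max i i₁) hmax s hs
    obtain ⟨r₃, hr₃, a, b, hab, h4, h5⟩ := h1 (max i i₁) (h01.trans_le (le_max_right _ _)) r₂
      (hr₂.trans (hs.trans hr'))
    have h6 : r₃.1.st t (max i i₁) = some w := hr₃.st _ _ _ h3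
    have hbw : b = w := by
      rw [h6] at h5
      exact (Option.some_injective _ h5).symm
    rcases h4 with h4 | ⟨j, hij, hja, h4⟩
    · exact absurd (hr₃.trans (hr₂.trans (hs.trans (hr'.trans (hrq.trans hq))))) (h4 r₃ le_rfl)
    · refine ⟨r₃, hr₃.trans hr₂, j, (le_max_left _ _).trans_lt hij, ?_, h4⟩
      rw [hbw] at hab
      exact (hja.trans hab).trans_lt hw

end Pool.PU
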