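import Pool.Agent.Lib.MP_cc7fb1_cn.IDef

/-!
# PU, V-side: the forcing

`K` has order type `κ`, `S` indexes the Cohen subsets of `K`, `T` indexes the dominating functions.
A condition consists of a small partial function `c : S × K → Bool`, a small partial function
`st : T × K → K` and a small set `pr` of promises `(t, n)`, `n` a name of a function `K → K`.
The name `n` is given by conditions `n.cnd i j` and values `n.val i j`: the condition `n.cnd i j`
forces the value `n.val i j` at `i`.
-/

set_option autoImplicit false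
set_option linter.unusedSectionVars false

open Cardinal Set

namespace Pool.PU

/-- The part of a condition without the promises. -/
structure Raw (K S T : Type) where
  /-- the Cohen part -/
  c : S → K → Option Bool
  /-- the stems of the dominating functions -/
  st : T → K → Option K

/-- Names of functions from `K` to `K`: the name `idn` of the identity function, and the names
given by the conditions `raw i j` with the promises `(t, ch i j l)`, `tg i j l = some t`, and the
values `v i j`. -/
inductive Nm (K S T : Type) : Type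
  | idn : Nm K S T
  | mk (raw : K → K → Raw K S T) (v : K → K → K) (tg : K → K → K → Option T)
      (ch : K → K → K → Nm K S T) : Nm K S T

/-- Conditions (without the requirements). -/
@[ext] structure Cnd (K S T : Type) where
  /-- the Cohen part -/
  c : S → K → Option Bool
  /-- the stems of the dominating functions -/
  st : T → K → Option K
  /-- the promises -/
  pr : Set (T × Nm K S T)

variable {K S T : Type}

/-- The `(i, j)`-th condition of a name. -/
def Nm.cnd : Nm K S T → K → K → Cnd K S T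
  | .idn => fun _ _ => ⟨fun _ _ => none, fun _ _ => none, ∅⟩
  | .mk raw _ tg ch => fun i j =>
    ⟨(raw i j).c, (raw i j).st, {x | ∃ l, tg i j l = some x.1 ∧ x.2 = ch i j l}⟩

/-- The `(i, j)`-th value of a name. -/
def Nm.val : Nm K S T → K → K → K
  | .idn => fun i _ => i
  | .mk _ v _ _ => v

section order

variable [LinearOrder K] [LinearOrder T]

/-- The restriction of a condition to the stage `t`. -/
def Cnd.res (p : Cnd K S T) (t : T) : Cnd K S T :=
  ⟨p.c, fun s k => if s < t then p.st s k else none, {x | x ∈ p.pr ∧ x.1 < t}⟩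

/-- `Frc n q i w`: the condition `q` is below one of the conditions `n.cnd i j` with
`n.val i j ≤ w`; so `q` forces `n(i) ≤ w`.  See `frc_iff`. -/
def Frc : Nm K S T → Cnd K S T → K → K → Prop
  | .idn => fun _ i w => i ≤ w
  | .mk raw v tg ch => fun q i w => ∃ j, v i j ≤ w ∧
    (∀ α k b, (raw i j).c α k = some b → q.c α k = some b) ∧
    (∀ t k b, (raw i j).st t k = some b → q.st t k = some b) ∧
    ∀ l t, tg i j l = some t → (t, ch i j l) ∈ q.pr ∧
      ∀ k b, (raw i j).st t k = none → q.st t k = some b → Frc (ch i j l) (q.res t) k b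

/-- The order of the conditions: the new values of the function with index `t` obey the promises
`(t, n)`. -/
structure Cle (q p : Cnd K S T) : Prop where
  c : ∀ α k b, p.c α k = some b → q.c α k = some b
  st : ∀ t k b, p.st t k = some b → q.st t k = some b
  pr : p.pr ⊆ q.pr
  new : ∀ x ∈ p.pr, ∀ k b, p.st x.1 k = none → q.st x.1 k = some b → Frc x.2 (q.res x.1) k b

theorem frc_iff (n : Nm K S T) (q : Cnd K S T) (i w : K) :
    Frc n q i w ↔ ∃ j, n.val i j ≤ w ∧ Cle q (n.cnd i j) := by
  cases n with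
  | idn =>
    constructor
    · intro h
      exact ⟨i, h, fun _ _ _ h1 => absurd h1 (by simp [Nm.cnd]),
        fun _ _ _ h1 => absurd h1 (by simp [Nm.cnd]), fun x hx => absurd hx (notMem_empty x),
        fun x hx => absurd hx (notMem_empty x)⟩
    · rintro ⟨_, h, _⟩
      exact h
  | mk raw v tg ch =>
    constructor
    · rintro ⟨j, h1, h2, h3, h4⟩
      refine ⟨j, h1, h2, h3, ?_, ?_⟩
      · rintro ⟨t, m⟩ ⟨l, hl, rfl⟩
        exact (h4 l t hl).1
      · rintro ⟨t, m⟩ ⟨l, hl, rfl⟩ k b hk hb
        exact (h4 l t hl).2 k b hk hb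
    · rintro ⟨j, h1, h2⟩
      refine ⟨j, h1, h2.c, h2.st, fun l t hl => ⟨h2.pr ⟨l, hl, rfl⟩, fun k b hk hb => ?_⟩⟩
      exact h2.new (t, ch i j l) ⟨l, hl, rfl⟩ k b hk hb

/-- The names in the promises of the conditions of a name are simpler. -/
theorem Nm.ind {C : Nm K S T → Prop} (h : ∀ n : Nm K S T, (∀ i j, ∀ x ∈ (n.cnd i j).pr, C x.2) → C n)
    (n : Nm K S T) : C n := by
  induction n with
  | idn => exact h _ fun i j x hx => absurd hx (notMem_empty x)
  | mk raw v tg ch ih =>
    refine h _ fun i j x hx => ?_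
    obtain ⟨l, _, h2⟩ := hx
    rw [h2]
    exact ih i j l

@[simp] lemma res_c (p : Cnd K S T) (t : T) : (p.res t).c = p.c := rfl

lemma res_st (p : Cnd K S T) (t s : T) (k : K) :
    (p.res t).st s k = if s < t then p.st s k else none := rfl

lemma res_st_lt (p : Cnd K S T) {t s : T} (h : s < t) (k : K) : (p.res t).st s k = p.st s k :=
  if_pos h

lemma res_st_some {p : Cnd K S T} {t s : T} {k b : K} :
    (p.res t).st s k = some b ↔ s < t ∧ p.st s k = some b := by
  rw [res_st]
  split_ifs with h
  · exact ⟨fun h1 => ⟨h, h1⟩, fun h1 => h1.2⟩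
  · exact ⟨fun h1 => absurd h1 (by simp), fun h1 => absurd h1.1 h⟩

lemma mem_res_pr {p : Cnd K S T} {t : T} {x : T × Nm K S T} :
    x ∈ (p.res t).pr ↔ x ∈ p.pr ∧ x.1 < t := Iff.rfl

lemma res_res {p : Cnd K S T} {s t : T} (h : s ≤ t) : (p.res t).res s = p.res s := by
  refine Cnd.ext rfl ?_ ?_
  · funext r k
    rw [res_st, res_st, res_st]
    split_ifs with h1 h2
    · rfl
    · exact absurd (h1.trans_le h) h2
    · rfl
  · ext x
    rw [mem_res_pr, mem_res_pr, mem_res_pr]
    exact ⟨fun h1 => ⟨h1.1.1, h1.2⟩, fun h1 => ⟨⟨h1.1, h1.2.trans_le h⟩, h1.2⟩⟩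

theorem Cle.refl (p : Cnd K S T) : Cle p p :=
  ⟨fun _ _ _ h => h, fun _ _ _ h => h, Subset.rfl, fun x _ k b h1 h2 => by
    rw [h1] at h2
    exact absurd h2 (by simp)⟩

/-- Restrictions are larger. -/
theorem cle_res (p : Cnd K S T) (t : T) : Cle p (p.res t) :=
  ⟨fun _ _ _ h => h, fun s k b h => (res_st_some.1 h).2, fun x hx => hx.1, fun x hx k b h1 h2 => by
    rw [res_st_lt p hx.2, h2] at h1
    exact absurd h1 (by simp)⟩

/-- Restrictions are monotone. -/
theorem Cle.res {q p : Cnd K S T} (h : Cle q p) (t : T) : Cle (q.res t) (p.res t) := by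
  refine ⟨h.c, fun s k b h1 => ?_, fun x hx => ⟨h.pr hx.1, hx.2⟩, fun x hx k b h1 h2 => ?_⟩
  · obtain ⟨h2, h3⟩ := res_st_some.1 h1
    exact res_st_some.2 ⟨h2, h.st s k b h3⟩
  · rw [res_st_lt p hx.2] at h1
    rw [res_st_lt q hx.2] at h2
    rw [res_res hx.2.le]
    exact h.new x hx.1 k b h1 h2

/-- `Frc n` is monotone. -/
def Mono (n : Nm K S T) : Prop :=
  ∀ r q : Cnd K S T, Cle r q → ∀ i w, Frc n q i w → Frc n r i w

theorem Cle.trans_of {r q p : Cnd K S T} (hp : ∀ x ∈ p.pr, Mono x.2) (h1 : Cle r q)
    (h2 : Cle q p) : Cle r p := by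
  refine ⟨fun α k b h => h1.c _ _ _ (h2.c _ _ _ h), fun t k b h => h1.st _ _ _ (h2.st _ _ _ h),
    h2.pr.trans h1.pr, fun x hx k b h3 h4 => ?_⟩
  cases h5 : q.st x.1 k with
  | none => exact h1.new x (h2.pr hx) k b h5 h4
  | some b' =>
    have h6 := h1.st _ _ _ h5
    rw [h4] at h6
    obtain rfl := Option.some_injective _ h6
    exact hp x hx _ _ (h1.res x.1) k b (h2.new x hx k b h3 h5)

theorem mono (n : Nm K S T) : Mono n := by
  induction n using Nm.ind with
  | h n ih =>
    intro r q hrq i w h
    obtain ⟨j, h1, h2⟩ := (frc_iff n q i w).1 h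
    exact (frc_iff n r i w).2 ⟨j, h1, hrq.trans_of (ih i j) h2⟩

theorem Frc.mono {n : Nm K S T} {r q : Cnd K S T} {i w : K} (h : Frc n q i w) (hrq : Cle r q) :
    Frc n r i w := Pool.PU.mono n r q hrq i w h

theorem Cle.trans {r q p : Cnd K S T} (h1 : Cle r q) (h2 : Cle q p) : Cle r p :=
  h1.trans_of (fun x _ => Pool.PU.mono x.2) h2

theorem Cle.antisymm {q p : Cnd K S T} (h1 : Cle q p) (h2 : Cle p q) : q = p := by
  refine Cnd.ext ?_ ?_ (h2.pr.antisymm h1.pr)
  · funext α k
    cases h3 : q.c α k with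
    | some b => exact (h2.c _ _ _ h3).symm
    | none =>
      cases h4 : p.c α k with
      | none => rfl
      | some b =>
        rw [h1.c _ _ _ h4] at h3
        exact absurd h3 (by simp)
  · funext t k
    cases h3 : q.st t k with
    | some b => exact (h2.st _ _ _ h3).symm
    | none =>
      cases h4 : p.st t k with
      | none => rfl
      | some b =>
        rw [h1.st _ _ _ h4] at h3
        exact absurd h3 (by simp)

end order

section legal

/-- The three parts of the condition are small. -/
structure Cnd.Small (p : Cnd K S T) : Prop where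
  c : #{x : S × K | p.c x.1 x.2 ≠ none} < #K
  st : #{x : T × K | p.st x.1 x.2 ≠ none} < #K
  pr : #p.pr < #K

variable [LinearOrder K] [LinearOrder T]

/-- The conditions of stage `t`, where `L s n` says that `n` is a name of stage `s`. -/
structure Stg (L : T → Nm K S T → Prop) (t : T) (p : Cnd K S T) : Prop where
  small : p.Small
  st : ∀ s k, p.st s k ≠ none → s < t
  pr : ∀ x ∈ p.pr, x.1 < t ∧ L x.1 x.2

/-- `n` is a name over the set `C` of conditions. -/
structure NmAt (C : Cnd K S T → Prop) (n : Nm K S T) : Prop where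
  mem : ∀ i j, C (n.cnd i j)
  dense : ∀ i q, C q → ∃ j r, C r ∧ Cle r q ∧ Cle r (n.cnd i j)

variable [WellFoundedLT T]

/-- `LegN t n`: `n` is a name of stage `t`, that is, its conditions are conditions of stage `t`,
and for every `i` the conditions `n.cnd i j` form a predense set of conditions of stage `t`. -/
def LegN : T → Nm K S T → Prop :=
  (wellFounded_lt (α := T)).fix fun t ih => NmAt (Stg (fun s m => ∃ h : s < t, ih s h m) t)

theorem legN_iff (t : T) (n : Nm K S T) : LegN t n ↔ NmAt (Stg LegN t) n := by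
  have h1 : LegN t n ↔ NmAt (Stg (fun s m => ∃ _ : s < t, LegN s m) t) n := by
    unfold LegN
    rw [WellFounded.fix_eq]
  rw [h1]
  have h2 : (Stg (fun s m => ∃ _ : s < t, LegN s m) t : Cnd K S T → Prop) = Stg LegN t := by
    funext p
    refine propext ⟨fun h => ⟨h.small, h.st, fun x hx => ⟨(h.pr x hx).1, ?_⟩⟩,
      fun h => ⟨h.small, h.st, fun x hx => ⟨(h.pr x hx).1, (h.pr x hx).1, (h.pr x hx).2⟩⟩⟩
    obtain ⟨_, h3⟩ := (h.pr x hx).2
    exact h3
  rw [h2]

/-- Legal conditions. -/
structure Leg (p : Cnd K S T) : Prop where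
  small : p.Small
  pr : ∀ x ∈ p.pr, LegN x.1 x.2

variable (K S T) in
/-- THE FORCING. -/
def Fo : Type := {p : Cnd K S T // Leg p}

instance : PartialOrder (Fo K S T) where
  le q p := Cle q.1 p.1
  le_refl p := Cle.refl p.1
  le_trans _ _ _ h1 h2 := h1.trans h2
  le_antisymm _ _ h1 h2 := Subtype.ext (h1.antisymm h2)

lemma Fo.le_def {q p : Fo K S T} : q ≤ p ↔ Cle q.1 p.1 := Iff.rfl

end legal

/-- The cardinals. -/
class Hyp (K S T : Type) [LinearOrder K] [WellFoundedLT K] [LinearOrder T] [WellFoundedLT T] :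
    Prop where
  reg : (#K).IsRegular
  unc : ℵ₀ < #K
  sl : ∀ c < #K, 2 ^ c < #K
  init : ∀ a : K, #(Iio a) < #K
  S_gt : #K < #S
  S_lt : #S < #T
  T_reg : (#T).IsRegular
  T_init : ∀ t : T, #(Iio t) < #T

end Pool.PU
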