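import Pool.Agent.Lib.MP_cc7fb1_cn.IDef

/-!
# PU: the interface between the V-side and the N-side

`K = κ.ord.ToType`; Boolean valued subsets of `K` are given by regular open sets `A i`, `i : K`.
-/

set_option autoImplicit false

open Cardinal Set

namespace Pool.PU

open Pool.CF

/-- `G` is a Boolean valued normal ultrafilter on `κ`.  A `P`-name for a subset of `κ` is given by
the regular open sets `A i` (the truth value of `i ∈ A`), and `G A` is the truth value of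
`A ∈ G`. -/
structure NormN (κ : Cardinal.{0}) (P : Type) [PartialOrder P]
    (G : (κ.ord.ToType → Set P) → Set P) : Prop where
  reg : ∀ A, (∀ i, RegOpen (A i)) → RegOpen (G A)
  up : ∀ A A', (∀ i, RegOpen (A i)) → (∀ i, RegOpen (A' i)) → ∀ p ∈ G A,
    (∀ i, ∀ q ≤ p, q ∈ A i → q ∈ A' i) → p ∈ G A'
  proper : G (fun _ => ∅) = ∅
  ultra : ∀ A, (∀ i, RegOpen (A i)) → ∀ p, ∃ q ≤ p, q ∈ G A ∨ q ∈ G (fun i => perp (A i))
  complete : ∀ (J : Type) (A : J → κ.ord.ToType → Set P), #J < κ → (∀ j i, RegOpen (A j i)) →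
    ∀ p, (∀ j, p ∈ G (A j)) → p ∈ G (fun i => {q | ∀ j, q ∈ A j i})
  unif : ∀ (a : κ.ord.ToType) (p : P), p ∈ G (fun i => {_q | a < i})
  diag : ∀ A : κ.ord.ToType → κ.ord.ToType → Set P, (∀ j i, RegOpen (A j i)) →
    ∀ p, (∀ j, p ∈ G (A j)) → p ∈ G (fun i => {q | ∀ j < i, q ∈ A j i})

/-- `κ` is a measurable cardinal, and its measurability is preserved by all `< κ`-directed closed
forcings. -/
structure IndMeas (κ : Cardinal.{0}) : Prop where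
  reg : κ.IsRegular
  unc : ℵ₀ < κ
  sl : ∀ c < κ, 2 ^ c < κ
  ext : ∀ (P : Type) [PartialOrder P], DirClosed κ P →
    ∃ G : (κ.ord.ToType → Set P) → Set P, NormN κ P G

/-- `W` is a normal ultrafilter on `κ`. -/
structure NormW (κ : Cardinal.{0}) (W : Set (Set κ.ord.ToType)) : Prop where
  up : ∀ A ∈ W, ∀ B, A ⊆ B → B ∈ W
  ultra : ∀ A, (A ∈ W ↔ Aᶜ ∉ W)
  complete : ∀ (J : Type) (A : J → Set κ.ord.ToType), #J < κ → (∀ j, A j ∈ W) → (⋂ j, A j) ∈ W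
  unif : ∀ a : κ.ord.ToType, {i | a < i} ∈ W
  diag : ∀ A : κ.ord.ToType → Set κ.ord.ToType, (∀ j, A j ∈ W) → {i | ∀ j < i, i ∈ A j} ∈ W

/-- What is common to the two forcings. -/
structure Core (κ : Cardinal.{0}) (P : Type) [PartialOrder P]
    (G : (κ.ord.ToType → Set P) → Set P) : Prop where
  reg : κ.IsRegular
  unc : ℵ₀ < κ
  ne : Nonempty P
  dir : DirClosed κ P
  norm : NormN κ P G

/-- The forcing for the strict inequality. -/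
structure StrV (κ : Cardinal.{0}) (P S : Type) [PartialOrder P]
    (c : S → κ.ord.ToType → Set P) : Prop where
  reg : ∀ α k, RegOpen (c α k)
  /-- the sets `c α` are a splitting family -/
  spl : ∀ A : κ.ord.ToType → Set P, (∀ k, RegOpen (A k)) → ∀ p,
    (∀ q ≤ p, ∀ γ, ∃ r ≤ q, ∃ k, γ < k ∧ r ∈ A k) →
    ∃ α : S, ∀ q ≤ p, ∀ γ, (∃ r ≤ q, ∃ k, γ < k ∧ r ∈ A k ∧ r ∈ c α k) ∧
      ∃ r ≤ q, ∃ k, γ < k ∧ r ∈ A k ∧ r ∈ perp (c α k)
  /-- families of clubs indexed by `S` have pseudo-intersections -/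
  pint : ∀ C : S → κ.ord.ToType → Set P, (∀ ξ k, RegOpen (C ξ k)) → ∀ p,
    (∀ ξ, ∀ q ≤ p, ∀ γ, ∃ r ≤ q, ∃ k, γ < k ∧ r ∈ C ξ k) →
    ∃ E : κ.ord.ToType → Set P, (∀ k, RegOpen (E k)) ∧
      (∀ q ≤ p, ∀ γ, ∃ r ≤ q, ∃ k, γ < k ∧ r ∈ E k) ∧
      ∀ ξ, ∀ q ≤ p, ∃ r ≤ q, ∃ i₀, ∀ k, i₀ < k → ∀ r' ≤ r, r' ∈ E k → ∀ i < k, ∀ s ≤ r',
        ∃ s' ≤ s, ∃ j, i < j ∧ j < k ∧ s' ∈ C ξ j

/-- The forcing for the equality. -/
structure EqV (κ : Cardinal.{0}) (P S : Type) [PartialOrder P] [LinearOrder S]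
    (e : S → κ.ord.ToType → Set P) : Prop where
  init : ∀ a : S, #(Iio a) ≤ κ
  reg : ∀ α k, RegOpen (e α k)
  sur : ∀ A : κ.ord.ToType → Set P, (∀ k, RegOpen (A k)) → ∀ p, ∃ q ≤ p, ∃ α, ∀ k, ∀ r ≤ q,
    (r ∈ A k ↔ r ∈ e α k)

end Pool.PU
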